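import Pool.Agent.H730R3.HC.Defs

set_option autoImplicit false

namespace H730HC

open Finset
open scoped ComplexConjugate

universe u v

/-- tracial state (not necessarily faithful) -/
structure IsTS (A : Type u) [CStarAlgebra A] (τ : A →ₗ[ℂ] ℂ) : Prop where
  one : τ 1 = 1
  comm : ∀ x y, τ (x * y) = τ (y * x)
  nonneg : ∀ x, 0 ≤ (τ (star x * x)).re
  real : ∀ x, (τ (star x * x)).im = 0

section
variable {A : Type u} [CStarAlgebra A]

/-- left action on the dual: `(a · φ) x = φ (x a)` -/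
noncomputable def la (a : A) (φ : A →L[ℂ] ℂ) : A →L[ℂ] ℂ := φ.comp ((ContinuousLinearMap.mul ℂ A).flip a)

/-- right action on the dual: `(φ · a) x = φ (a x)` -/
noncomputable def ra (φ : A →L[ℂ] ℂ) (a : A) : A →L[ℂ] ℂ := φ.comp (ContinuousLinearMap.mul ℂ A a)

/-- trace-like functionals -/
def IsTr (φ : A →L[ℂ] ℂ) : Prop := ∀ x y : A, φ (x * y) = φ (y * x)

/-- uniform integrability of one functional with given data -/
def UIat (τ : A →ₗ[ℂ] ℂ) (R ε : ℝ) (φ : A →L[ℂ] ℂ) : Prop :=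
  ∀ x, ‖φ x‖ ≤ R * Real.sqrt (sq τ x) + ε * ‖x‖

/-- uniformly integrable family of functionals -/
def UIfam {I : Type v} (τ : A →ₗ[ℂ] ℂ) (Z : I → (A →L[ℂ] ℂ)) : Prop :=
  ∀ ε > 0, ∃ R : ℝ, 0 ≤ R ∧ ∀ i, UIat τ R ε (Z i)

/-- uniformly integrable cochains -/
def UIc (τ : A →ₗ[ℂ] ℂ) (n : ℕ) (f : (ℕ → A) → (A →L[ℂ] ℂ)) : Prop :=
  ∀ ε > 0, ∃ R : ℝ, 0 ≤ R ∧ ∀ a x, ‖f a x‖ ≤ (∏ k ∈ range n, ‖a k‖) * (R * Real.sqrt (sq τ x) + ε * ‖x‖)

open Classical in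
/-- the mean of a bounded family of functionals -/
noncomputable def EX {I : Type v} (m : (I → ℝ) → ℝ) (f : I → (A →L[ℂ] ℂ)) : A →L[ℂ] ℂ :=
  if h : ∃ φ : A →L[ℂ] ℂ, ∀ x, (φ x).re = m (fun i => (f i x).re) ∧ (φ x).im = m (fun i => (f i x).im)
    then h.choose else 0

/-- the projection onto trace-like functionals -/
noncomputable def Cp (m0 : (unitary A → ℝ) → ℝ) (φ : A →L[ℂ] ℂ) : A →L[ℂ] ℂ :=
  EX m0 (fun v => ra (la (star (v : A)) φ) (v : A))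

/-- faces -/
noncomputable def fX (m i : ℕ) (f : (ℕ → A) → (A →L[ℂ] ℂ)) : (ℕ → A) → (A →L[ℂ] ℂ) :=
  fun a => if i = 0 then la (a 0) (f (shift a)) else if i ≤ m then f (mu (i - 1) a) else ra (f a) (a m)

/-- coboundary -/
noncomputable def dX (m : ℕ) (f : (ℕ → A) → (A →L[ℂ] ℂ)) : (ℕ → A) → (A →L[ℂ] ℂ) :=
  fun a => ∑ i ∈ range (m + 2), ((-1 : ℂ) ^ i) • fX m i f a

/-- sums of faces -/
def SumX (m k : ℕ) (T : (ℕ → A) → (A →L[ℂ] ℂ)) : Prop :=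
  ∃ h : ℕ → (ℕ → A) → (A →L[ℂ] ℂ), (∀ i, IsB m (h i)) ∧ ∀ a, T a = ∑ i ∈ Ico k (m + 2), fX m i (h i) a

/-- `s_0 F(t_k a_k s_{k+1}) t_n` -/
noncomputable def cjX (n : ℕ) (s t : ℕ → A) (F : (ℕ → A) → (A →L[ℂ] ℂ)) (a : ℕ → A) : A →L[ℂ] ℂ :=
  ra (la (s 0) (F (fun k => t k * a k * s (k + 1)))) (t n)

/-- prism operator -/
noncomputable def PrX (n : ℕ) (s t : ℕ → A) (F : (ℕ → A) → (A →L[ℂ] ℂ)) (a : ℕ → A) : A →L[ℂ] ℂ :=
  ∑ m ∈ range n, ((-1 : ℂ) ^ m) •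
    ra (F (fun k => if k < m then a k else if k = m then s m else t (k - 1) * a (k - 1) * s k)) (t (n - 1))

/-- amplification, general target -/
noncomputable def ampX {B : Type v} [AddCommMonoid B] {J : ℕ} : ℕ → Fin J → Fin J → ((ℕ → A) → B) →
    (ℕ → Fin J → Fin J → A) → B
  | 0, k, l, T, _ => if k = l then T (fun _ => 0) else 0
  | n + 1, k, l, T, X => ∑ j, ampX n j l (fun a => T (cons (X 0 k j) a)) (fun i => X (i + 1))

/-- matrix with a single entry -/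
noncomputable def sgl {J : ℕ} (k l : Fin J) (x : A) : CStarMatrix (Fin J) (Fin J) A :=
  CStarMatrix.ofMatrix (Matrix.of fun p q => if p = k ∧ q = l then x else 0)

end

section
variable {A : Type u} [CStarAlgebra A]

attribute [local instance] CStarAlgebra.spectralOrder CStarAlgebra.spectralOrderedRing

open Classical in
/-- amplification with values in the dual of the matrix algebra -/
noncomputable def ampMX {J : ℕ} (n : ℕ) (T : (ℕ → A) → (A →L[ℂ] ℂ)) :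
    (ℕ → CStarMatrix (Fin J) (Fin J) A) → (CStarMatrix (Fin J) (Fin J) A →L[ℂ] ℂ) :=
  fun X => if h : ∃ φ : CStarMatrix (Fin J) (Fin J) A →L[ℂ] ℂ, ∀ Y, φ Y =
      ∑ k, ∑ l, ampX n k l T (fun i p q => X i p q) (Y l k) then h.choose else 0

open Classical in
/-- the functional `y ↦ φ (E_{l k} ⊗ y)` (the entry `(k,l)`) -/
noncomputable def ent {J : ℕ} (k l : Fin J) (φ : CStarMatrix (Fin J) (Fin J) A →L[ℂ] ℂ) : A →L[ℂ] ℂ :=
  if h : ∃ ψ : A →L[ℂ] ℂ, ∀ y, ψ y = φ (sgl l k y) then h.choose else 0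

end

end H730HC
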