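import Pool.Agent.H730R3.HD.Defs
import Pool.Agent.H730R3.HD.R01
import Pool.Agent.H730R3.HC.Final

set_option autoImplicit false

namespace H730HC

open Finset
open scoped ComplexConjugate

universe u v

variable {A : Type u} [CStarAlgebra A] {τ : A →ₗ[ℂ] ℂ}



namespace R02_

/-- convex combinations of conjugates -/
def P (x : A) (y : A) : Prop :=
  ∃ (J : Finset (unitary A)) (l : unitary A → ℝ), (∀ v, 0 ≤ l v) ∧ (∀ v, v ∉ J → l v = 0) ∧
    ∑ v ∈ J, l v = 1 ∧ y = ∑ v ∈ J, (l v : ℂ) • ((v : A) * x * star (v : A))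

theorem P_self (x : A) : P x x := by
  classical
  refine ⟨{1}, fun v => if v = 1 then 1 else 0, ?_, ?_, ?_, ?_⟩
  · intro v; dsimp only; split_ifs <;> norm_num
  · intro v hv
    rw [Finset.mem_singleton] at hv
    simp [hv]
  · simp
  · simp

theorem P_mid (x y z : A) (hy : P x y) (hz : P x z) : P x (((1 / 2 : ℝ) : ℂ) • (y + z)) := by
  classical
  obtain ⟨J1, l1, h1, h2, h3, h4⟩ := hy
  obtain ⟨J2, l2, k1, k2, k3, k4⟩ := hz
  have e1 : ∑ v ∈ J1 ∪ J2, l1 v = 1 := by
    rw [← h3]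
    exact (Finset.sum_subset Finset.subset_union_left (fun v _ hv => h2 v hv)).symm
  have e2 : ∑ v ∈ J1 ∪ J2, l2 v = 1 := by
    rw [← k3]
    exact (Finset.sum_subset Finset.subset_union_right (fun v _ hv => k2 v hv)).symm
  have e3 : y = ∑ v ∈ J1 ∪ J2, (l1 v : ℂ) • ((v : A) * x * star (v : A)) := by
    rw [h4]
    exact Finset.sum_subset Finset.subset_union_left (fun v _ hv => by rw [h2 v hv]; simp)
  have e4 : z = ∑ v ∈ J1 ∪ J2, (l2 v : ℂ) • ((v : A) * x * star (v : A)) := by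
    rw [k4]
    exact Finset.sum_subset Finset.subset_union_right (fun v _ hv => by rw [k2 v hv]; simp)
  refine ⟨J1 ∪ J2, fun v => (1 / 2) * (l1 v + l2 v), ?_, ?_, ?_, ?_⟩
  · intro v
    have := h1 v
    have := k1 v
    positivity
  · intro v hv
    rw [Finset.mem_union, not_or] at hv
    simp only
    rw [h2 v hv.1, k2 v hv.2]; ring
  · rw [← Finset.mul_sum, Finset.sum_add_distrib, e1, e2]; norm_num
  · rw [e3, e4, ← Finset.sum_add_distrib, Finset.smul_sum]
    refine Finset.sum_congr rfl fun v _ => ?_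
    rw [← add_smul, smul_smul]
    push_cast
    rfl

theorem P_conj (x y : A) (u : unitary A) (hy : P x y) : P x ((u : A) * y * star (u : A)) := by
  classical
  obtain ⟨J, l, h1, h2, h3, h4⟩ := hy
  refine ⟨J.map (mulLeftEmbedding u), fun v => l (u⁻¹ * v), fun v => h1 _, ?_, ?_, ?_⟩
  · intro v hv
    apply h2
    intro hm
    apply hv
    rw [Finset.mem_map]
    exact ⟨_, hm, by simp [mulLeftEmbedding]⟩
  · rw [Finset.sum_map, ← h3]
    refine Finset.sum_congr rfl fun v _ => ?_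
    simp [mulLeftEmbedding]
  · rw [Finset.sum_map, h4, Finset.mul_sum, Finset.sum_mul]
    refine Finset.sum_congr rfl fun v _ => ?_
    have e1 : u⁻¹ * (mulLeftEmbedding u v) = v := by simp [mulLeftEmbedding]
    have e2 : ((mulLeftEmbedding u v : unitary A) : A) = (u : A) * (v : A) := rfl
    beta_reduce
    rw [e1, e2, star_mul, mul_smul_comm, smul_mul_assoc]
    simp only [mul_assoc]

theorem norm_cs (hτ : IsTS A τ) (a z : A) :
    ‖τ (star a * z)‖ ≤ 2 * (Real.sqrt (sq τ a) * Real.sqrt (sq τ z)) := by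
  have h0 : ∀ w : A, |(τ (star a * w)).re| ≤ Real.sqrt (sq τ a) * Real.sqrt (sq τ w) := by
    intro w
    rw [← Real.sqrt_mul (ts_sq_nonneg hτ a)]
    apply Real.abs_le_sqrt
    exact ts_cs hτ a w
  have h1 := h0 z
  have h2 := h0 (Complex.I • z)
  rw [ts_sq_smul hτ, Complex.norm_I, one_pow, one_mul, mul_smul_comm, map_smul, smul_eq_mul,
    Complex.I_mul_re, abs_neg] at h2
  have h3 := Complex.norm_le_abs_re_add_abs_im (τ (star a * z))
  linarith

theorem span_bound (hτ : IsTS A τ) (x : A) (hx : x ∈ Submodule.span ℂ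
    {y : A | ∃ (z : A) (w : unitary A), y = z - (w : A) * z * star (w : A)}) :
    ∃ K : ℝ, 0 ≤ K ∧ ∀ (y : A) (δ : ℝ), 0 ≤ δ →
      (∀ w : unitary A, Real.sqrt (sq τ (y - (w : A) * y * star (w : A))) ≤ δ) →
      ‖τ (star y * x)‖ ≤ K * δ := by
  induction hx using Submodule.span_induction with
  | mem x hx =>
    obtain ⟨z, w, rfl⟩ := hx
    refine ⟨2 * Real.sqrt (sq τ z), by positivity, fun y δ hδ hy => ?_⟩
    have h1 : τ (star y * (z - (w : A) * z * star (w : A)))
        = τ (star (y - ((w⁻¹ : unitary A) : A) * y * star ((w⁻¹ : unitary A) : A)) * z) := by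
      have e1 : ((w⁻¹ : unitary A) : A) = star (w : A) := rfl
      rw [e1, star_star, mul_sub, map_sub, star_sub, sub_mul, map_sub]
      congr 1
      rw [star_mul, star_mul, star_star]
      calc τ (star y * ((w : A) * z * star (w : A)))
          = τ ((star y * ((w : A) * z)) * star (w : A)) := by simp only [mul_assoc]
        _ = τ (star (w : A) * (star y * ((w : A) * z))) := hτ.comm _ _
        _ = τ (star (w : A) * (star y * (w : A)) * z) := by simp only [mul_assoc]
    rw [h1]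
    refine (norm_cs hτ _ _).trans ?_
    have h2 := hy w⁻¹
    have h3 := Real.sqrt_nonneg (sq τ z)
    calc 2 * (Real.sqrt (sq τ (y - ((w⁻¹ : unitary A) : A) * y * star ((w⁻¹ : unitary A) : A)))
          * Real.sqrt (sq τ z)) ≤ 2 * (δ * Real.sqrt (sq τ z)) := by
          apply mul_le_mul_of_nonneg_left _ (by norm_num)
          exact mul_le_mul_of_nonneg_right h2 h3
      _ = 2 * Real.sqrt (sq τ z) * δ := by ring
  | zero => exact ⟨0, le_rfl, fun y δ _ _ => by simp⟩
  | add x1 x2 _ _ ih1 ih2 =>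
    obtain ⟨K1, hK1, h1⟩ := ih1
    obtain ⟨K2, hK2, h2⟩ := ih2
    refine ⟨K1 + K2, by positivity, fun y δ hδ hy => ?_⟩
    rw [mul_add, map_add, add_mul]
    exact (norm_add_le _ _).trans (add_le_add (h1 y δ hδ hy) (h2 y δ hδ hy))
  | smul c x _ ih =>
    obtain ⟨K, hK, h1⟩ := ih
    refine ⟨‖c‖ * K, by positivity, fun y δ hδ hy => ?_⟩
    rw [mul_smul_comm, map_smul, norm_smul, mul_assoc]
    exact mul_le_mul_of_nonneg_left (h1 y δ hδ hy) (norm_nonneg c)

end R02_

theorem ts_average (hτ : IsTS A τ) (x : A) (hx : x ∈ Submodule.span ℂ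
    {y : A | ∃ (z : A) (w : unitary A), y = z - (w : A) * z * star (w : A)}) (ε : ℝ) (hε : 0 < ε) :
    ∃ (J : Finset (unitary A)) (l : unitary A → ℝ), (∀ v ∈ J, 0 ≤ l v) ∧ ∑ v ∈ J, l v = 1 ∧
      sq τ (∑ v ∈ J, (l v : ℂ) • ((v : A) * x * star (v : A))) ≤ ε := by
  obtain ⟨K, hK, hKb⟩ := R02_.span_bound hτ x hx
  set B := K + 2 * Real.sqrt (sq τ x) with hB
  have hB0 : 0 ≤ B := by have := Real.sqrt_nonneg (sq τ x); linarith
  set δ := ε / (B + 1) with hδ
  have hδ0 : 0 < δ := by positivity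
  have hδB : B * δ ≤ ε := by
    rw [hδ, mul_div_assoc', div_le_iff₀ (by linarith)]
    nlinarith
  set S : Set ℝ := {r | ∃ y, R02_.P x y ∧ r = sq τ y} with hS
  have hSne : S.Nonempty := ⟨_, x, R02_.P_self x, rfl⟩
  have hSbd : BddBelow S := ⟨0, by rintro r ⟨y, _, rfl⟩; exact ts_sq_nonneg hτ y⟩
  obtain ⟨r, ⟨y, hy, rfl⟩, hr⟩ := exists_lt_of_csInf_lt hSne
    (show sInf S < sInf S + δ ^ 2 / 4 by linarith [show 0 < δ ^ 2 / 4 by positivity])
  have hclose : ∀ w : unitary A, Real.sqrt (sq τ (y - (w : A) * y * star (w : A))) ≤ δ := by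
    intro w
    rw [Real.sqrt_le_left hδ0.le]
    have h1 : sInf S ≤ sq τ (((1 / 2 : ℝ) : ℂ) • (y + (w : A) * y * star (w : A))) :=
      csInf_le hSbd ⟨_, R02_.P_mid x _ _ hy (R02_.P_conj x y w hy), rfl⟩
    rw [ts_sq_smul hτ] at h1
    have h2 : ‖(((1 / 2 : ℝ) : ℂ))‖ ^ 2 = 1 / 4 := by
      rw [Complex.norm_real]; norm_num
    rw [h2] at h1
    have h3 := ts_sq_add hτ y ((w : A) * y * star (w : A))
    have h4 := ts_sq_add hτ y ((-1 : ℂ) • ((w : A) * y * star (w : A)))
    rw [ts_sq_smul hτ, mul_smul_comm, map_smul] at h4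
    have h5 : y + (-1 : ℂ) • ((w : A) * y * star (w : A)) = y - (w : A) * y * star (w : A) := by
      rw [neg_one_smul, sub_eq_add_neg]
    have h6 : ((-1 : ℂ) • τ (star y * ((w : A) * y * star (w : A)))).re
        = - (τ (star y * ((w : A) * y * star (w : A)))).re := by simp
    have h7 : ‖(-1 : ℂ)‖ ^ 2 = 1 := by simp
    rw [h5, h6, h7] at h4
    have h8 := ts_sq_unitary hτ w y
    rw [h8] at h3 h4
    linarith
  have hterm : ∀ v : unitary A, (τ (star y * ((v : A) * x * star (v : A)))).re ≤ ε := by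
    intro v
    have e1 : ((v⁻¹ : unitary A) : A) = star (v : A) := rfl
    have h1 : τ (star y * ((v : A) * x * star (v : A))) = τ (star y * x)
        - τ (star (y - ((v⁻¹ : unitary A) : A) * y * star ((v⁻¹ : unitary A) : A)) * x) := by
      rw [e1, star_star, star_sub, sub_mul, map_sub, sub_sub_cancel, star_mul, star_mul, star_star]
      calc τ (star y * ((v : A) * x * star (v : A)))
          = τ ((star y * ((v : A) * x)) * star (v : A)) := by simp only [mul_assoc]
        _ = τ (star (v : A) * (star y * ((v : A) * x))) := hτ.comm _ _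
        _ = τ (star (v : A) * (star y * (v : A)) * x) := by simp only [mul_assoc]
    have h2 := hKb y δ hδ0.le hclose
    have h3 := R02_.norm_cs hτ (y - ((v⁻¹ : unitary A) : A) * y * star ((v⁻¹ : unitary A) : A)) x
    have h4 := hclose v⁻¹
    have h5 : Real.sqrt (sq τ (y - ((v⁻¹ : unitary A) : A) * y * star ((v⁻¹ : unitary A) : A)))
        * Real.sqrt (sq τ x) ≤ δ * Real.sqrt (sq τ x) :=
      mul_le_mul_of_nonneg_right h4 (Real.sqrt_nonneg _)
    have h6 := Complex.re_le_norm (τ (star y * ((v : A) * x * star (v : A))))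
    have h7 : ‖τ (star y * ((v : A) * x * star (v : A)))‖ ≤ ‖τ (star y * x)‖ +
        ‖τ (star (y - ((v⁻¹ : unitary A) : A) * y * star ((v⁻¹ : unitary A) : A)) * x)‖ := by
      rw [h1]; exact norm_sub_le _ _
    have h8 : B * δ = K * δ + 2 * (δ * Real.sqrt (sq τ x)) := by rw [hB]; ring
    linarith
  obtain ⟨J, l, g1, g2, g3, g4⟩ := hy
  refine ⟨J, l, fun v _ => g1 v, g3, ?_⟩
  rw [← g4]
  have h1 : sq τ y = ∑ v ∈ J, l v * (τ (star y * ((v : A) * x * star (v : A)))).re := by
    have h2 : sq τ y = (τ (star y * ∑ v ∈ J, (l v : ℂ) • ((v : A) * x * star (v : A)))).re := by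
      rw [← g4]; rfl
    rw [h2, Finset.mul_sum, map_sum, Complex.re_sum]
    refine Finset.sum_congr rfl fun v _ => ?_
    rw [mul_smul_comm, map_smul, smul_eq_mul, Complex.re_ofReal_mul]
  rw [h1]
  calc ∑ v ∈ J, l v * (τ (star y * ((v : A) * x * star (v : A)))).re
      ≤ ∑ v ∈ J, l v * ε := Finset.sum_le_sum fun v _ => mul_le_mul_of_nonneg_left (hterm v) (g1 v)
    _ = ε := by rw [← Finset.sum_mul, g3, one_mul]

end H730HC
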