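import Pool.Agent.H730R3.HD.Defs

set_option autoImplicit false

namespace H730HC

open Finset
open scoped ComplexConjugate

universe u v

variable {A : Type u} [CStarAlgebra A] {τ : A →ₗ[ℂ] ℂ}

/-- the mean of a bounded complex function -/
def R04_cm {I : Type v} (m : (I → ℝ) → ℝ) (g : I → ℂ) : ℂ :=
  ⟨m (fun i => (g i).re), m (fun i => (g i).im)⟩

theorem R04_ne {I : Type v} {m : (I → ℝ) → ℝ} (hm : IsMean m) : Nonempty I := by
  by_contra h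
  rw [not_nonempty_iff] at h
  have h0 := hm.const 0
  have h1 := hm.const 1
  have h2 : (fun _ : I => (0:ℝ)) = fun _ => (1:ℝ) := funext fun i => h.elim i
  rw [h2, h1] at h0
  exact one_ne_zero h0

theorem R04_bre {I : Type v} {g : I → ℂ} (hg : ∃ K : ℝ, ∀ i, ‖g i‖ ≤ K) :
    Bdd (fun i => (g i).re) := by
  obtain ⟨K, hK⟩ := hg
  exact ⟨K, fun i => (Complex.abs_re_le_norm _).trans (hK i)⟩

theorem R04_bim {I : Type v} {g : I → ℂ} (hg : ∃ K : ℝ, ∀ i, ‖g i‖ ≤ K) :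
    Bdd (fun i => (g i).im) := by
  obtain ⟨K, hK⟩ := hg
  exact ⟨K, fun i => (Complex.abs_im_le_norm _).trans (hK i)⟩

theorem R04_bmul {I : Type v} {g : I → ℝ} (c : ℝ) (hg : Bdd g) : Bdd (fun i => c * g i) := by
  obtain ⟨K, hK⟩ := hg
  refine ⟨|c| * K, fun i => ?_⟩
  rw [abs_mul]
  exact mul_le_mul_of_nonneg_left (hK i) (abs_nonneg c)

theorem R04_cm_add {I : Type v} {m : (I → ℝ) → ℝ} (hm : IsMean m) (g h : I → ℂ)
    (hg : ∃ K : ℝ, ∀ i, ‖g i‖ ≤ K) (hh : ∃ K : ℝ, ∀ i, ‖h i‖ ≤ K) :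
    R04_cm m (fun i => g i + h i) = R04_cm m g + R04_cm m h := by
  apply Complex.ext
  · show m (fun i => (g i + h i).re) = m (fun i => (g i).re) + m (fun i => (h i).re)
    rw [← hm.add _ _ (R04_bre hg) (R04_bre hh)]
    rfl
  · show m (fun i => (g i + h i).im) = m (fun i => (g i).im) + m (fun i => (h i).im)
    rw [← hm.add _ _ (R04_bim hg) (R04_bim hh)]
    rfl

theorem R04_cm_smul {I : Type v} {m : (I → ℝ) → ℝ} (hm : IsMean m) (c : ℂ) (g : I → ℂ)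
    (hg : ∃ K : ℝ, ∀ i, ‖g i‖ ≤ K) :
    R04_cm m (fun i => c * g i) = c * R04_cm m g := by
  apply Complex.ext
  · show m (fun i => (c * g i).re) = c.re * m (fun i => (g i).re) - c.im * m (fun i => (g i).im)
    have e : (fun i => (c * g i).re) = fun i => c.re * (g i).re + (-c.im) * (g i).im := by
      funext i
      rw [Complex.mul_re]
      ring
    rw [e, hm.add _ _ (R04_bmul _ (R04_bre hg)) (R04_bmul _ (R04_bim hg)),
      hm.smul _ _ (R04_bre hg), hm.smul _ _ (R04_bim hg)]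
    ring
  · show m (fun i => (c * g i).im) = c.re * m (fun i => (g i).im) + c.im * m (fun i => (g i).re)
    have e : (fun i => (c * g i).im) = fun i => c.re * (g i).im + c.im * (g i).re := by
      funext i
      rw [Complex.mul_im]
    rw [e, hm.add _ _ (R04_bmul _ (R04_bim hg)) (R04_bmul _ (R04_bre hg)),
      hm.smul _ _ (R04_bre hg), hm.smul _ _ (R04_bim hg)]

theorem R04_cm_norm {I : Type v} {m : (I → ℝ) → ℝ} (hm : IsMean m) (g : I → ℂ) (K : ℝ)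
    (hg : ∀ i, ‖g i‖ ≤ K) : ‖R04_cm m g‖ ≤ K := by
  obtain ⟨i₀⟩ := R04_ne hm
  have hK : 0 ≤ K := (norm_nonneg _).trans (hg i₀)
  have hb : ∀ i, ‖conj (R04_cm m g) * g i‖ ≤ ‖R04_cm m g‖ * K := by
    intro i
    rw [norm_mul, RCLike.norm_conj]
    exact mul_le_mul_of_nonneg_left (hg i) (norm_nonneg _)
  have h1 : (R04_cm m (fun i => conj (R04_cm m g) * g i)).re = ‖R04_cm m g‖ ^ 2 := by
    rw [R04_cm_smul hm _ _ ⟨K, hg⟩, ← Complex.normSq_eq_conj_mul_self, Complex.ofReal_re,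
      Complex.normSq_eq_norm_sq]
  have h2 : (R04_cm m (fun i => conj (R04_cm m g) * g i)).re ≤ ‖R04_cm m g‖ * K := by
    show m (fun i => (conj (R04_cm m g) * g i).re) ≤ _
    have h3 := hm.mono _ _ (R04_bre ⟨_, hb⟩) (⟨|‖R04_cm m g‖ * K|, fun _ => le_rfl⟩ :
      Bdd (fun _ : I => ‖R04_cm m g‖ * K)) (fun i => (Complex.re_le_norm _).trans (hb i))
    rwa [hm.const] at h3
  rw [h1] at h2
  by_contra hcon
  push Not at hcon
  have h4 : 0 < ‖R04_cm m g‖ := lt_of_le_of_lt hK hcon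
  nlinarith

theorem R04_bdx {I : Type v} {f : I → (A →L[ℂ] ℂ)} {C : ℝ} (hf : ∀ i, ‖f i‖ ≤ C) (x : A) (i : I) :
    ‖f i x‖ ≤ C * ‖x‖ :=
  ((f i).le_opNorm x).trans (mul_le_mul_of_nonneg_right (hf i) (norm_nonneg x))

theorem R04_exists {I : Type v} {m : (I → ℝ) → ℝ} (hm : IsMean m) (f : I → (A →L[ℂ] ℂ)) (C : ℝ)
    (hf : ∀ i, ‖f i‖ ≤ C) :
    ∃ φ : A →L[ℂ] ℂ, ‖φ‖ ≤ C ∧ ∀ x, φ x = R04_cm m (fun i => f i x) := by
  obtain ⟨i₀⟩ := R04_ne hm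
  have hC : 0 ≤ C := (norm_nonneg _).trans (hf i₀)
  let L : A →ₗ[ℂ] ℂ :=
    { toFun := fun x => R04_cm m (fun i => f i x)
      map_add' := by
        intro x y
        rw [← R04_cm_add hm _ _ ⟨_, R04_bdx hf x⟩ ⟨_, R04_bdx hf y⟩]
        congr 1
        funext i
        rw [map_add]
      map_smul' := by
        intro c x
        rw [RingHom.id_apply, smul_eq_mul, ← R04_cm_smul hm c _ ⟨_, R04_bdx hf x⟩]
        congr 1
        funext i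
        rw [map_smul, smul_eq_mul] }
  have hL : ∀ x, ‖L x‖ ≤ C * ‖x‖ := fun x => R04_cm_norm hm _ _ (R04_bdx hf x)
  exact ⟨L.mkContinuous C hL, L.mkContinuous_norm_le hC hL, fun x => rfl⟩

theorem R04_EX_eq {I : Type v} {m : (I → ℝ) → ℝ} (hm : IsMean m) (f : I → (A →L[ℂ] ℂ))
    (hf : ∃ C, ∀ i, ‖f i‖ ≤ C) (x : A) : EX m f x = R04_cm m (fun i => f i x) := by
  obtain ⟨C, hC⟩ := hf
  obtain ⟨φ, _, hφ⟩ := R04_exists hm f C hC
  have hex : ∃ φ : A →L[ℂ] ℂ, ∀ x, (φ x).re = m (fun i => (f i x).re) ∧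
      (φ x).im = m (fun i => (f i x).im) :=
    ⟨φ, fun x => by rw [hφ x]; exact ⟨rfl, rfl⟩⟩
  have h1 : EX m f = hex.choose := dif_pos hex
  have h2 := hex.choose_spec x
  rw [← h1] at h2
  exact Complex.ext h2.1 h2.2

theorem EX_spec {I : Type v} {m : (I → ℝ) → ℝ} (hm : IsMean m) (f : I → (A →L[ℂ] ℂ)) (C : ℝ)
    (hf : ∀ i, ‖f i‖ ≤ C) :
    (∀ x, (EX m f x).re = m (fun i => (f i x).re) ∧ (EX m f x).im = m (fun i => (f i x).im)) ∧
      ‖EX m f‖ ≤ C := by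
  constructor
  · intro x
    rw [R04_EX_eq hm f ⟨C, hf⟩ x]
    exact ⟨rfl, rfl⟩
  · obtain ⟨φ, h1, h2⟩ := R04_exists hm f C hf
    have h3 : EX m f = φ := by
      ext x
      rw [R04_EX_eq hm f ⟨C, hf⟩ x, h2]
    rw [h3]
    exact h1

theorem EX_bound {I : Type v} {m : (I → ℝ) → ℝ} (hm : IsMean m) (f : I → (A →L[ℂ] ℂ))
    (hf : ∃ C, ∀ i, ‖f i‖ ≤ C) (x : A) (K : ℝ) (hK : ∀ i, ‖f i x‖ ≤ K) : ‖EX m f x‖ ≤ K := by
  rw [R04_EX_eq hm f hf x]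
  exact R04_cm_norm hm _ K hK

theorem R04_bx {I : Type v} {f : I → (A →L[ℂ] ℂ)} (hf : ∃ C, ∀ i, ‖f i‖ ≤ C) (x : A) :
    ∃ K : ℝ, ∀ i, ‖f i x‖ ≤ K := by
  obtain ⟨C, hC⟩ := hf
  exact ⟨_, R04_bdx hC x⟩

theorem R04_badd {I : Type v} {f g : I → (A →L[ℂ] ℂ)} (hf : ∃ C, ∀ i, ‖f i‖ ≤ C)
    (hg : ∃ C, ∀ i, ‖g i‖ ≤ C) : ∃ C, ∀ i, ‖f i + g i‖ ≤ C := by
  obtain ⟨C, hC⟩ := hf
  obtain ⟨D, hD⟩ := hg
  exact ⟨C + D, fun i => (norm_add_le _ _).trans (add_le_add (hC i) (hD i))⟩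

theorem R04_bcomp {I : Type v} {f : I → (A →L[ℂ] ℂ)} (hf : ∃ C, ∀ i, ‖f i‖ ≤ C) (T : A →L[ℂ] A) :
    ∃ C, ∀ i, ‖(f i).comp T‖ ≤ C := by
  obtain ⟨C, hC⟩ := hf
  exact ⟨C * ‖T‖, fun i => ((f i).opNorm_comp_le T).trans
    (mul_le_mul_of_nonneg_right (hC i) (norm_nonneg T))⟩

theorem EX_add {I : Type v} {m : (I → ℝ) → ℝ} (hm : IsMean m) (f g : I → (A →L[ℂ] ℂ))
    (hf : ∃ C, ∀ i, ‖f i‖ ≤ C) (hg : ∃ C, ∀ i, ‖g i‖ ≤ C) :
    EX m (fun i => f i + g i) = EX m f + EX m g := by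
  ext x
  rw [R04_EX_eq hm _ (R04_badd hf hg) x, add_apply, R04_EX_eq hm f hf x,
    R04_EX_eq hm g hg x, ← R04_cm_add hm _ _ (R04_bx hf x) (R04_bx hg x)]
  rfl

theorem EX_smul {I : Type v} {m : (I → ℝ) → ℝ} (hm : IsMean m) (c : ℂ) (f : I → (A →L[ℂ] ℂ))
    (hf : ∃ C, ∀ i, ‖f i‖ ≤ C) : EX m (fun i => c • f i) = c • EX m f := by
  have h1 : ∃ C, ∀ i, ‖c • f i‖ ≤ C := by
    obtain ⟨C, hC⟩ := hf
    exact ⟨‖c‖ * C, fun i => by
      rw [norm_smul]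
      exact mul_le_mul_of_nonneg_left (hC i) (norm_nonneg c)⟩
  ext x
  rw [R04_EX_eq hm _ h1 x, smul_apply, R04_EX_eq hm f hf x, smul_eq_mul,
    ← R04_cm_smul hm _ _ (R04_bx hf x)]
  rfl

theorem EX_la {I : Type v} {m : (I → ℝ) → ℝ} (hm : IsMean m) (a : A) (f : I → (A →L[ℂ] ℂ))
    (hf : ∃ C, ∀ i, ‖f i‖ ≤ C) : EX m (fun i => la a (f i)) = la a (EX m f) := by
  ext x
  rw [R04_EX_eq hm (fun i => la a (f i))
    (R04_bcomp hf ((ContinuousLinearMap.mul ℂ A).flip a)) x]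
  show R04_cm m (fun i => f i (x * a)) = EX m f (x * a)
  rw [R04_EX_eq hm f hf (x * a)]

theorem EX_ra {I : Type v} {m : (I → ℝ) → ℝ} (hm : IsMean m) (a : A) (f : I → (A →L[ℂ] ℂ))
    (hf : ∃ C, ∀ i, ‖f i‖ ≤ C) : EX m (fun i => ra (f i) a) = ra (EX m f) a := by
  ext x
  rw [R04_EX_eq hm (fun i => ra (f i) a) (R04_bcomp hf (ContinuousLinearMap.mul ℂ A a)) x]
  show R04_cm m (fun i => f i (a * x)) = EX m f (a * x)
  rw [R04_EX_eq hm f hf (a * x)]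

theorem EX_const {I : Type v} {m : (I → ℝ) → ℝ} (hm : IsMean m) (φ : A →L[ℂ] ℂ) :
    EX m (fun _ => φ) = φ := by
  ext x
  rw [R04_EX_eq hm _ ⟨‖φ‖, fun _ => le_rfl⟩ x]
  exact Complex.ext (hm.const _) (hm.const _)

theorem R04_bdd_sum {I : Type v} {ι : Type*} (s : Finset ι) (f : ι → I → (A →L[ℂ] ℂ))
    (hf : ∀ j ∈ s, ∃ C, ∀ i, ‖f j i‖ ≤ C) : ∃ C, ∀ i, ‖∑ j ∈ s, f j i‖ ≤ C := by
  classical
  induction s using Finset.induction_on with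
  | empty => exact ⟨0, fun i => by simp⟩
  | insert j s hj ih =>
    obtain ⟨C, hC⟩ := ih fun k hk => hf k (Finset.mem_insert_of_mem hk)
    obtain ⟨D, hD⟩ := hf j (Finset.mem_insert_self j s)
    refine ⟨D + C, fun i => ?_⟩
    rw [Finset.sum_insert hj]
    exact (norm_add_le _ _).trans (add_le_add (hD i) (hC i))

theorem EX_sum {I : Type v} {m : (I → ℝ) → ℝ} (hm : IsMean m) {ι : Type*}
    (s : Finset ι) (f : ι → I → (A →L[ℂ] ℂ)) (hf : ∀ j ∈ s, ∃ C, ∀ i, ‖f j i‖ ≤ C) :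
    EX m (fun i => ∑ j ∈ s, f j i) = ∑ j ∈ s, EX m (f j) := by
  classical
  induction s using Finset.induction_on with
  | empty =>
    simp only [Finset.sum_empty]
    exact EX_const hm 0
  | insert j s hj ih =>
    simp only [Finset.sum_insert hj]
    rw [EX_add hm _ _ (hf j (Finset.mem_insert_self j s))
      (R04_bdd_sum s f fun k hk => hf k (Finset.mem_insert_of_mem hk)),
      ih fun k hk => hf k (Finset.mem_insert_of_mem hk)]

end H730HC
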