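import Pool.Agent.H730R3.HD.Defs
import Pool.Agent.H730R3.HC.Final

set_option autoImplicit false

namespace H730HC

open Finset
open scoped ComplexConjugate

universe u v

variable {A : Type u} [CStarAlgebra A] {τ : A →ₗ[ℂ] ℂ}

attribute [local instance] CStarAlgebra.spectralOrder CStarAlgebra.spectralOrderedRing



theorem R23_sgl_apply {J : ℕ} (k l : Fin J) (x : A) (p q : Fin J) :
    sgl k l x p q = if p = k ∧ q = l then x else 0 := rfl

/-- the matrix with a single entry, as a continuous linear map -/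
noncomputable def R23_cl (A : Type u) [CStarAlgebra A] {J : ℕ} (k l : Fin J) :
    A →L[ℂ] CStarMatrix (Fin J) (Fin J) A where
  toFun x := sgl k l x
  map_add' x y := by
    ext p q
    show (if p = k ∧ q = l then x + y else 0) =
      (if p = k ∧ q = l then x else 0) + (if p = k ∧ q = l then y else 0)
    split_ifs
    · rfl
    · rw [add_zero]
  map_smul' c x := by
    ext p q
    show (if p = k ∧ q = l then c • x else 0) = c • (if p = k ∧ q = l then x else 0)
    split_ifs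
    · rfl
    · rw [smul_zero]
  cont := by
    have h : Continuous (fun x : A => (Matrix.of fun p q : Fin J => if p = k ∧ q = l then x else 0)) := by
      refine continuous_matrix fun i j => ?_
      simp only [Matrix.of_apply]
      split_ifs
      · exact continuous_id
      · exact continuous_const
    exact (CStarMatrix.ofMatrixL (m := Fin J) (n := Fin J) (A := A)).continuous.comp h

theorem ent_apply {J : ℕ} (k l : Fin J) (φ : CStarMatrix (Fin J) (Fin J) A →L[ℂ] ℂ) (y : A) :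
    ent k l φ y = φ (sgl l k y) := by
  have h : ∃ ψ : A →L[ℂ] ℂ, ∀ y, ψ y = φ (sgl l k y) := ⟨φ.comp (R23_cl A l k), fun y => rfl⟩
  unfold ent
  rw [dif_pos h]
  exact h.choose_spec y

theorem ent_add {J : ℕ} (k l : Fin J) (φ ψ : CStarMatrix (Fin J) (Fin J) A →L[ℂ] ℂ) :
    ent k l (φ + ψ) = ent k l φ + ent k l ψ := by
  ext y
  rw [ent_apply, ContinuousLinearMap.add_apply, ContinuousLinearMap.add_apply, ent_apply, ent_apply]

theorem ent_smul {J : ℕ} (k l : Fin J) (c : ℂ) (φ : CStarMatrix (Fin J) (Fin J) A →L[ℂ] ℂ) :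
    ent k l (c • φ) = c • ent k l φ := by
  ext y
  rw [ent_apply, ContinuousLinearMap.smul_apply, ContinuousLinearMap.smul_apply, ent_apply]

theorem ent_bound {J : ℕ} (k l : Fin J) : ∃ K : ℝ, 0 ≤ K ∧ ∀ φ : CStarMatrix (Fin J) (Fin J) A →L[ℂ] ℂ,
    ‖ent k l φ‖ ≤ K * ‖φ‖ := by
  refine ⟨‖R23_cl A l k‖, norm_nonneg _, fun φ => ?_⟩
  have h : ent k l φ = φ.comp (R23_cl A l k) := by
    ext y
    rw [ent_apply]; rfl
  rw [h, mul_comm]
  exact ContinuousLinearMap.opNorm_comp_le _ _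

theorem R23_mul (n : ℕ) (X Y : CStarMatrix (Fin (n + 1)) (Fin (n + 1)) A) (p r : Fin (n + 1)) :
    (X * Y) p r = ∑ j, X p j * Y j r := CStarMatrix.mul_apply

theorem R23_Lt_apply (n : ℕ) (a : ℕ → A) (q : ℕ) (p r : Fin (n + 1)) :
    Lt n a q p r = if (p : ℕ) = q ∧ (r : ℕ) = q + 1 then a q else 0 := rfl

theorem R23_sgl_zero {J : ℕ} (k l : Fin J) : sgl k l (0 : A) = 0 := by
  ext p q
  rw [R23_sgl_apply, CStarMatrix.zero_apply]
  split_ifs <;> rfl

theorem R23_left (n : ℕ) (a : ℕ → A) (q : ℕ) (hq : q < n) (l : Fin (n + 1)) (y : A) :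
    sgl l 0 y * Lt n a q = if q = 0 then sgl l ⟨min 1 n, by omega⟩ (y * a 0) else 0 := by
  ext p r
  rw [R23_mul]
  rw [Finset.sum_eq_single (0 : Fin (n + 1))]
  · rw [R23_sgl_apply, R23_Lt_apply]
    by_cases h : q = 0
    · subst h
      rw [if_pos rfl, R23_sgl_apply]
      by_cases hp : p = l
      · by_cases hr : r = (⟨min 1 n, by omega⟩ : Fin (n + 1))
        · have hr' : (r : ℕ) = 0 + 1 := by rw [hr]; show min 1 n = 0 + 1; omega
          rw [if_pos ⟨hp, rfl⟩, if_pos ⟨rfl, hr'⟩, if_pos ⟨hp, hr⟩]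
        · have hr' : ¬ (r : ℕ) = 0 + 1 := by
            intro h1; apply hr; apply Fin.ext; show (r : ℕ) = min 1 n; omega
          rw [if_neg (fun h1 : ((0 : Fin (n+1)) : ℕ) = 0 ∧ (r : ℕ) = 0 + 1 => hr' h1.2), mul_zero,
            if_neg (fun h1 => hr h1.2)]
      · rw [if_neg (fun h1 => hp h1.1), zero_mul, if_neg (fun h1 => hp h1.1)]
    · rw [if_neg h, CStarMatrix.zero_apply]
      have : ¬ (((0 : Fin (n + 1)) : ℕ) = q ∧ (r : ℕ) = q + 1) := fun h1 => h h1.1.symm
      rw [if_neg this, mul_zero]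
  · intro j _ hj
    rw [R23_sgl_apply, if_neg (fun h1 => hj h1.2), zero_mul]
  · intro hn
    exact absurd (Finset.mem_univ _) hn

theorem R23_right (n : ℕ) (a : ℕ → A) (q : ℕ) (hq : q < n) (k : Fin (n + 1)) (y : A) :
    Lt n a q * sgl (Fin.last n) k y = if q + 1 = n then sgl ⟨n - 1, by omega⟩ k (a q * y) else 0 := by
  ext p r
  rw [R23_mul]
  rw [Finset.sum_eq_single (Fin.last n)]
  · rw [R23_sgl_apply, R23_Lt_apply]
    by_cases h : q + 1 = n
    · rw [if_pos h, R23_sgl_apply]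
      by_cases hp : p = (⟨n - 1, by omega⟩ : Fin (n + 1))
      · have hp' : (p : ℕ) = q := by rw [hp]; show n - 1 = q; omega
        have hl : ((Fin.last n : Fin (n + 1)) : ℕ) = q + 1 := by rw [Fin.val_last]; exact h.symm
        by_cases hr : r = k
        · rw [if_pos ⟨hp', hl⟩, if_pos ⟨rfl, hr⟩, if_pos ⟨hp, hr⟩]
        · rw [if_neg (fun h1 : Fin.last n = Fin.last n ∧ r = k => hr h1.2), mul_zero, if_neg (fun h1 => hr h1.2)]
      · have hp' : ¬ (p : ℕ) = q := by
          intro h1; apply hp; apply Fin.ext; show (p : ℕ) = n - 1; omega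
        rw [if_neg (fun h1 => hp' h1.1), zero_mul, if_neg (fun h1 => hp h1.1)]
    · rw [if_neg h, CStarMatrix.zero_apply]
      have : ¬ ((p : ℕ) = q ∧ ((Fin.last n : Fin (n + 1)) : ℕ) = q + 1) := by
        rintro ⟨_, h1⟩
        rw [Fin.val_last] at h1
        exact h h1.symm
      rw [if_neg this, zero_mul]
  · intro j _ hj
    rw [R23_sgl_apply, if_neg (fun h1 => hj h1.1), mul_zero]
  · intro hn
    exact absurd (Finset.mem_univ _) hn

theorem ent_la_Lt (n : ℕ) (a : ℕ → A) (q : ℕ) (hq : q < n)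
    (φ : CStarMatrix (Fin (n + 1)) (Fin (n + 1)) A →L[ℂ] ℂ) (l : Fin (n + 1)) :
    ent 0 l (la (Lt n a q) φ) = if q = 0 then la (a 0) (ent ⟨min 1 n, by omega⟩ l φ) else 0 := by
  ext y
  rw [ent_apply]
  show φ (sgl l 0 y * Lt n a q) = _
  rw [R23_left n a q hq l y]
  split_ifs with h
  · show _ = ent ⟨min 1 n, by omega⟩ l φ (y * a 0)
    rw [ent_apply]
  · rw [map_zero]; rfl

theorem ent_ra_Lt (n : ℕ) (a : ℕ → A) (q : ℕ) (hq : q < n)
    (φ : CStarMatrix (Fin (n + 1)) (Fin (n + 1)) A →L[ℂ] ℂ) (k : Fin (n + 1)) :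
    ent k (Fin.last n) (ra φ (Lt n a q)) =
      if q + 1 = n then ra (ent k ⟨n - 1, by omega⟩ φ) (a q) else 0 := by
  ext y
  rw [ent_apply]
  show φ (Lt n a q * sgl (Fin.last n) k y) = _
  rw [R23_right n a q hq k y]
  split_ifs with h
  · show _ = ent k ⟨n - 1, by omega⟩ φ (a q * y)
    rw [ent_apply]
  · rw [map_zero]; rfl

end H730HC
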