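import Pool.Agent.H730R3.HD.Defs
import Pool.Agent.H730R3.HD.R23
import Pool.Agent.H730R3.HC.Final

set_option autoImplicit false

namespace H730HC

open Finset
open scoped ComplexConjugate

universe u v

variable {A : Type u} [CStarAlgebra A] {τ : A →ₗ[ℂ] ℂ}

attribute [local instance] CStarAlgebra.spectralOrder CStarAlgebra.spectralOrderedRing



section R25gen

variable {B : Type v} [NormedAddCommGroup B] [NormedSpace ℂ B]

theorem R25_addT {J : ℕ} (n : ℕ) : ∀ (k l : Fin J) (T1 T2 : (ℕ → A) → B)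
    (X : ℕ → Fin J → Fin J → A),
    ampX n k l (fun a => T1 a + T2 a) X = ampX n k l T1 X + ampX n k l T2 X := by
  induction n with
  | zero =>
    intro k l T1 T2 X
    simp only [ampX]
    split_ifs
    · rfl
    · rw [add_zero]
  | succ n ih =>
    intro k l T1 T2 X
    simp only [ampX]
    rw [← Finset.sum_add_distrib]
    exact Finset.sum_congr rfl fun j _ => ih j l _ _ _

theorem R25_smulT {J : ℕ} (n : ℕ) (c : ℂ) : ∀ (k l : Fin J) (T1 : (ℕ → A) → B)
    (X : ℕ → Fin J → Fin J → A),
    ampX n k l (fun a => c • T1 a) X = c • ampX n k l T1 X := by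
  induction n with
  | zero =>
    intro k l T1 X
    simp only [ampX]
    split_ifs
    · rfl
    · rw [smul_zero]
  | succ n ih =>
    intro k l T1 X
    simp only [ampX]
    rw [Finset.smul_sum]
    exact Finset.sum_congr rfl fun j _ => ih j l _ _

theorem R25_dep {J : ℕ} (n : ℕ) : ∀ (k l : Fin J) (T : (ℕ → A) → B)
    (X Y : ℕ → Fin J → Fin J → A), (∀ i < n, X i = Y i) → ampX n k l T X = ampX n k l T Y := by
  induction n with
  | zero => intro k l T X Y _; rfl
  | succ n ih =>
    intro k l T X Y h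
    simp only [ampX]
    refine Finset.sum_congr rfl fun j _ => ?_
    rw [h 0 (Nat.succ_pos _)]
    exact ih j l _ _ _ fun i hi => h (i + 1) (by omega)

theorem R25_cons (x : A) (a : ℕ → A) : cons x a = ins 0 x a := by
  funext k
  simp [cons, ins]

theorem R25_IsB_cons {n : ℕ} {T : (ℕ → A) → B} (hT : IsB (n + 1) T) (x : A) :
    IsB n (fun a => T (cons x a)) := by
  have h := IsB_ins (Nat.zero_le n) hT x
  simp only [R25_cons]
  exact h

theorem R25_cons_upd (x y : A) (a : ℕ → A) : cons x a = Function.update (cons y a) 0 x := by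
  funext k
  rcases k with _ | k
  · simp [cons]
  · simp [cons]

theorem R25_upd0 {J : ℕ} (X : ℕ → Fin J → Fin J → A) (P : Fin J → Fin J → A) :
    (fun i => Function.update X 0 P (i + 1)) = fun i => X (i + 1) := by
  funext i
  rw [Function.update_of_ne (by omega)]

theorem R25_updS {J : ℕ} (X : ℕ → Fin J → Fin J → A) (P : Fin J → Fin J → A) (i₀ : ℕ) :
    (fun i => Function.update X (i₀ + 1) P (i + 1)) =
      Function.update (fun i => X (i + 1)) i₀ P := by
  funext i
  by_cases h : i = i₀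
  · subst h; simp
  · rw [Function.update_of_ne (by omega), Function.update_of_ne h]

theorem R25_add {J : ℕ} (n : ℕ) : ∀ (k l : Fin J) (T : (ℕ → A) → B), IsB n T →
    ∀ (X : ℕ → Fin J → Fin J → A) (i : ℕ) (P Q : Fin J → Fin J → A), i < n →
    ampX n k l T (Function.update X i (fun p q => P p q + Q p q)) =
      ampX n k l T (Function.update X i P) + ampX n k l T (Function.update X i Q) := by
  induction n with
  | zero => intro k l T _ X i P Q hi; omega
  | succ n ih =>
    intro k l T hT X i P Q hi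
    simp only [ampX]
    rw [← Finset.sum_add_distrib]
    refine Finset.sum_congr rfl fun j _ => ?_
    rcases i with _ | i
    · simp only [R25_upd0, Function.update_self]
      rw [← R25_addT]
      congr 1
      funext a
      rw [R25_cons_upd (P k j + Q k j) 0 a, R25_cons_upd (P k j) 0 a, R25_cons_upd (Q k j) 0 a]
      exact hT.add _ _ _ _ (Nat.succ_pos _)
    · simp only [R25_updS]
      have h0 : ∀ P : Fin J → Fin J → A, Function.update X (i + 1) P 0 = X 0 := fun P =>
        Function.update_of_ne (by omega) _ _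
      simp only [h0]
      exact ih j l _ (R25_IsB_cons hT _) _ i P Q (by omega)

theorem R25_smul {J : ℕ} (n : ℕ) (c : ℂ) : ∀ (k l : Fin J) (T : (ℕ → A) → B), IsB n T →
    ∀ (X : ℕ → Fin J → Fin J → A) (i : ℕ) (P : Fin J → Fin J → A), i < n →
    ampX n k l T (Function.update X i (fun p q => c • P p q)) =
      c • ampX n k l T (Function.update X i P) := by
  induction n with
  | zero => intro k l T _ X i P hi; omega
  | succ n ih =>
    intro k l T hT X i P hi
    simp only [ampX]
    rw [Finset.smul_sum]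
    refine Finset.sum_congr rfl fun j _ => ?_
    rcases i with _ | i
    · simp only [R25_upd0, Function.update_self]
      rw [← R25_smulT]
      congr 1
      funext a
      rw [R25_cons_upd (c • P k j) 0 a, R25_cons_upd (P k j) 0 a]
      exact hT.smul _ _ _ _ (Nat.succ_pos _)
    · simp only [R25_updS]
      have h0 : ∀ P : Fin J → Fin J → A, Function.update X (i + 1) P 0 = X 0 := fun P =>
        Function.update_of_ne (by omega) _ _
      simp only [h0]
      exact ih j l _ (R25_IsB_cons hT _) _ i P (by omega)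

theorem R25_bd {J : ℕ} (n : ℕ) : ∀ (k l : Fin J) (T : (ℕ → A) → B) (C : ℝ), 0 ≤ C →
    (∀ a, ‖T a‖ ≤ C * ∏ i ∈ range n, ‖a i‖) →
    ∀ (X : ℕ → CStarMatrix (Fin J) (Fin J) A),
    ‖ampX n k l T (fun i p q => X i p q)‖ ≤ C * (J : ℝ) ^ n * ∏ i ∈ range n, ‖X i‖ := by
  induction n with
  | zero =>
    intro k l T C hC hT X
    simp only [ampX, pow_zero, mul_one, Finset.range_zero, Finset.prod_empty]
    split_ifs
    · simpa using hT (fun _ => 0)
    · rw [norm_zero]; exact hC
  | succ n ih =>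
    intro k l T C hC hT X
    simp only [ampX]
    have h1 : ∀ j : Fin J, ‖ampX n j l (fun a => T (cons (X 0 k j) a))
        (fun i p q => X (i + 1) p q)‖ ≤ (C * ‖X 0‖) * (J : ℝ) ^ n * ∏ i ∈ range n, ‖X (i + 1)‖ := by
      intro j
      refine ih j l _ (C * ‖X 0‖) (mul_nonneg hC (norm_nonneg _)) ?_ (fun i => X (i + 1))
      intro a
      refine (hT _).trans ?_
      rw [Finset.prod_range_succ']
      have h2 : ‖cons (X 0 k j) a 0‖ ≤ ‖X 0‖ := by
        show ‖X 0 k j‖ ≤ ‖X 0‖
        exact CStarMatrix.norm_entry_le_norm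
      have h3 : ∀ i, cons (X 0 k j) a (i + 1) = a i := fun i => by simp [cons]
      simp only [h3]
      have h4 : 0 ≤ ∏ i ∈ range n, ‖a i‖ := Finset.prod_nonneg fun _ _ => norm_nonneg _
      calc C * ((∏ i ∈ range n, ‖a i‖) * ‖cons (X 0 k j) a 0‖)
          ≤ C * ((∏ i ∈ range n, ‖a i‖) * ‖X 0‖) :=
            mul_le_mul_of_nonneg_left (mul_le_mul_of_nonneg_left h2 h4) hC
        _ = _ := by ring
    refine (norm_sum_le _ _).trans ((Finset.sum_le_sum fun j _ => h1 j).trans (le_of_eq ?_))
    rw [Finset.sum_const, Finset.card_univ, Fintype.card_fin, nsmul_eq_mul,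
      Finset.prod_range_succ', pow_succ]
    ring

theorem R25_upd {J : ℕ} (X : ℕ → CStarMatrix (Fin J) (Fin J) A)
    (P : CStarMatrix (Fin J) (Fin J) A) (i₀ : ℕ) :
    (fun i p q => Function.update X i₀ P i p q) =
      Function.update (fun i p q => X i p q) i₀ (fun p q => P p q) := by
  funext i p q
  by_cases h : i = i₀
  · subst h; rw [Function.update_self, Function.update_self]
  · rw [Function.update_of_ne h, Function.update_of_ne h]

theorem R25_IsB_amp {n J : ℕ} {T : (ℕ → A) → B} (hT : IsB n T) (k l : Fin J) :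
    IsB n (fun X : ℕ → CStarMatrix (Fin J) (Fin J) A => ampX n k l T (fun i p q => X i p q)) := by
  obtain ⟨C, hC, hb⟩ := hT.bd
  refine ⟨?_, ?_, ?_, C * (J : ℝ) ^ n, by positivity, ?_⟩
  · intro X Y h
    refine R25_dep n k l T _ _ fun i hi => ?_
    rw [h i hi]
  · intro X i P Q hi
    simp only [R25_upd]
    exact R25_add n k l T hT _ i (fun p q => P p q) (fun p q => Q p q) hi
  · intro X i c P hi
    simp only [R25_upd]
    exact R25_smul n c k l T hT _ i (fun p q => P p q) hi
  · intro X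
    exact R25_bd n k l T C hC hb X

end R25gen

/-- the entry `(l,k)`, as a continuous linear map -/
noncomputable def R25_en (A : Type u) [CStarAlgebra A] {J : ℕ} (k l : Fin J) :
    CStarMatrix (Fin J) (Fin J) A →L[ℂ] A :=
  LinearMap.mkContinuous
    { toFun := fun Y => Y l k
      map_add' := fun _ _ => rfl
      map_smul' := fun _ _ => rfl } 1 (fun Y => by
        rw [one_mul]
        show ‖Y l k‖ ≤ ‖Y‖
        exact CStarMatrix.norm_entry_le_norm)

/-- `φ ↦ (Y ↦ φ (Y l k))`, as a continuous linear map -/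
noncomputable def R25_cl (A : Type u) [CStarAlgebra A] {J : ℕ} (k l : Fin J) :
    (A →L[ℂ] ℂ) →L[ℂ] (CStarMatrix (Fin J) (Fin J) A →L[ℂ] ℂ) :=
  (ContinuousLinearMap.compL ℂ (CStarMatrix (Fin J) (Fin J) A) A ℂ).flip (R25_en A k l)

theorem R25_cl_apply {J : ℕ} (k l : Fin J) (φ : A →L[ℂ] ℂ) (Y : CStarMatrix (Fin J) (Fin J) A) :
    R25_cl A k l φ Y = φ (Y l k) := rfl

theorem R25_eq {n J : ℕ} (T : (ℕ → A) → (A →L[ℂ] ℂ)) (X : ℕ → CStarMatrix (Fin J) (Fin J) A) :
    ampMX n T X = ∑ k : Fin J, ∑ l : Fin J,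
      R25_cl A k l (ampX n k l T (fun i p q => X i p q)) := by
  have h0 : ∀ Y : CStarMatrix (Fin J) (Fin J) A, (∑ k : Fin J, ∑ l : Fin J,
      R25_cl A k l (ampX n k l T (fun i p q => X i p q))) Y =
      ∑ k, ∑ l, ampX n k l T (fun i p q => X i p q) (Y l k) := by
    intro Y
    rw [ContinuousLinearMap.sum_apply]
    refine Finset.sum_congr rfl fun k _ => ?_
    rw [ContinuousLinearMap.sum_apply]
    exact Finset.sum_congr rfl fun l _ => R25_cl_apply k l _ Y
  have h : ∃ φ : CStarMatrix (Fin J) (Fin J) A →L[ℂ] ℂ, ∀ Y, φ Y =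
      ∑ k, ∑ l, ampX n k l T (fun i p q => X i p q) (Y l k) := ⟨_, h0⟩
  unfold ampMX
  rw [dif_pos h]
  ext Y
  rw [h.choose_spec Y, h0 Y]

theorem ampMX_apply {n J : ℕ} {T : (ℕ → A) → (A →L[ℂ] ℂ)} (hT : IsB n T)
    (X : ℕ → CStarMatrix (Fin J) (Fin J) A) (Y : CStarMatrix (Fin J) (Fin J) A) :
    ampMX n T X Y = ∑ k, ∑ l, ampX n k l T (fun i p q => X i p q) (Y l k) := by
  rw [R25_eq, ContinuousLinearMap.sum_apply]
  refine Finset.sum_congr rfl fun k _ => ?_
  rw [ContinuousLinearMap.sum_apply]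
  exact Finset.sum_congr rfl fun l _ => R25_cl_apply k l _ Y

theorem ent_ampMX {n J : ℕ} {T : (ℕ → A) → (A →L[ℂ] ℂ)} (hT : IsB n T)
    (X : ℕ → CStarMatrix (Fin J) (Fin J) A) (k l : Fin J) :
    ent k l (ampMX n T X) = ampX n k l T (fun i p q => X i p q) := by
  ext y
  rw [ent_apply, ampMX_apply hT]
  have hs : ∀ p q : Fin J, (sgl l k y : CStarMatrix (Fin J) (Fin J) A) p q =
      if p = l ∧ q = k then y else 0 := fun p q => rfl
  rw [Finset.sum_eq_single k, Finset.sum_eq_single l]
  · rw [hs, if_pos ⟨rfl, rfl⟩]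
  · intro l' _ hl
    rw [hs, if_neg (fun h => hl h.1), map_zero]
  · intro hn
    exact absurd (Finset.mem_univ _) hn
  · intro k' _ hk
    refine Finset.sum_eq_zero fun l' _ => ?_
    rw [hs, if_neg (fun h => hk h.2), map_zero]
  · intro hn
    exact absurd (Finset.mem_univ _) hn

theorem IsB_ampMX {n J : ℕ} {T : (ℕ → A) → (A →L[ℂ] ℂ)} (hT : IsB n T) :
    IsB n (ampMX (J := J) n T) := by
  have h1 := IsB_sum (m := n) (Finset.univ : Finset (Fin J))
    (f := fun k (X : ℕ → CStarMatrix (Fin J) (Fin J) A) => ∑ l : Fin J, R25_cl A k l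
      (ampX n k l T (fun i p q => X i p q)))
    (fun k _ => IsB_sum (m := n) (Finset.univ : Finset (Fin J))
      (f := fun l (X : ℕ → CStarMatrix (Fin J) (Fin J) A) => R25_cl A k l
        (ampX n k l T (fun i p q => X i p q)))
      (fun l _ => IsB_comp (R25_IsB_amp hT k l) (R25_cl A k l)))
  have h2 : (ampMX (J := J) n T) = fun X : ℕ → CStarMatrix (Fin J) (Fin J) A =>
      ∑ k : Fin J, ∑ l : Fin J, R25_cl A k l (ampX n k l T (fun i p q => X i p q)) := by
    funext X
    exact R25_eq T X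
  rw [h2]
  exact h1

end H730HC
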