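import Pool.Agent.H730R3.HD.Defs
import Pool.Agent.H730R3.HD.R01
import Pool.Agent.H730R3.HD.R25
import Pool.Agent.H730R3.HC.Final

set_option autoImplicit false

namespace H730HC

open Finset
open scoped ComplexConjugate

universe u v

variable {A : Type u} [CStarAlgebra A] {τ : A →ₗ[ℂ] ℂ}

attribute [local instance] CStarAlgebra.spectralOrder CStarAlgebra.spectralOrderedRing



theorem R05_amp {J : ℕ} (l : Fin J) (x : A) : ∀ (n : ℕ) (k : Fin J) (T : (ℕ → A) → (A →L[ℂ] ℂ))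
    (X : ℕ → Fin J → Fin J → A) (c : ℕ → ℝ) (b : ℝ), 0 ≤ b → (∀ i p q, ‖X i p q‖ ≤ c i) →
    (∀ a : ℕ → A, ‖T a x‖ ≤ (∏ i ∈ range n, ‖a i‖) * b) →
    ‖ampX n k l T X x‖ ≤ (J : ℝ) ^ n * (∏ i ∈ range n, c i) * b := by
  intro n
  induction n with
  | zero =>
    intro k T X c b hb hX hT
    simp only [ampX, pow_zero, range_zero, prod_empty, one_mul]
    split_ifs with h
    · simpa using hT (fun _ => 0)
    · simpa using hb
  | succ n ih =>
    intro k T X c b hb hX hT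
    have hc : ∀ i, 0 ≤ c i := fun i => (norm_nonneg _).trans (hX i k k)
    have h1 : ampX (n + 1) k l T X x =
        ∑ j, ampX n j l (fun a => T (cons (X 0 k j) a)) (fun i => X (i + 1)) x := by
      simp only [ampX, _root_.sum_apply]
    rw [h1]
    have h2 : ∀ j, ‖ampX n j l (fun a => T (cons (X 0 k j) a)) (fun i => X (i + 1)) x‖ ≤
        (J : ℝ) ^ n * (∏ i ∈ range n, c (i + 1)) * (c 0 * b) := by
      intro j
      refine ih j (fun a => T (cons (X 0 k j) a)) (fun i => X (i + 1)) (fun i => c (i + 1)) (c 0 * b)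
        (mul_nonneg (hc 0) hb) (fun i p q => hX (i + 1) p q) ?_
      intro a
      refine (hT _).trans ?_
      rw [prod_range_succ']
      have e1 : ∀ i, ‖cons (X 0 k j) a (i + 1)‖ = ‖a i‖ := fun i => by simp [cons]
      have e2 : ‖cons (X 0 k j) a 0‖ = ‖X 0 k j‖ := by simp [cons]
      simp only [e1, e2]
      have h3 : 0 ≤ ∏ i ∈ range n, ‖a i‖ := prod_nonneg fun _ _ => norm_nonneg _
      rw [mul_assoc]
      exact mul_le_mul_of_nonneg_left (mul_le_mul_of_nonneg_right (hX 0 k j) hb) h3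
    refine (norm_sum_le _ _).trans ((sum_le_sum fun j _ => h2 j).trans (le_of_eq ?_))
    rw [sum_const, card_univ, Fintype.card_fin, nsmul_eq_mul, prod_range_succ', pow_succ]
    ring

theorem R05_sq (hτ : IsTS A τ) {J : ℕ} (Y : CStarMatrix (Fin (J + 1)) (Fin (J + 1)) A)
    (l k : Fin (J + 1)) : sq τ (Y l k) ≤ ((J : ℝ) + 1) * sq (tauM (J + 1) τ) Y := by
  have h1 : sq (tauM (J + 1) τ) Y = ((J : ℝ) + 1)⁻¹ * ∑ p, ∑ r, sq τ (Y r p) := by
    unfold sq
    have e1 : tauM (J + 1) τ (star Y * Y) = ((J + 1 : ℕ) : ℂ)⁻¹ * ∑ p, τ ((star Y * Y) p p) := rfl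
    have e2 : ∀ p, (star Y * Y) p p = ∑ r, star (Y r p) * Y r p := by
      intro p
      rw [CStarMatrix.mul_apply]
      rfl
    rw [e1]
    have e3 : ((J + 1 : ℕ) : ℂ)⁻¹ = (((J : ℝ) + 1)⁻¹ : ℝ) := by push_cast; rfl
    rw [e3, Complex.re_ofReal_mul, Complex.re_sum]
    congr 1
    refine sum_congr rfl fun p _ => ?_
    rw [e2, map_sum, Complex.re_sum]
  have hJ : (0 : ℝ) < (J : ℝ) + 1 := by positivity
  rw [h1, ← mul_assoc, mul_inv_cancel₀ hJ.ne', one_mul]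
  calc sq τ (Y l k) ≤ ∑ r, sq τ (Y r k) :=
        single_le_sum (f := fun r => sq τ (Y r k)) (fun r _ => hτ.nonneg _) (mem_univ l)
    _ ≤ ∑ p, ∑ r, sq τ (Y r p) :=
        single_le_sum (f := fun p => ∑ r, sq τ (Y r p))
          (fun p _ => sum_nonneg fun r _ => hτ.nonneg _) (mem_univ k)

theorem UI_ampMX (hτ : IsTS A τ) {n J : ℕ} {T : (ℕ → A) → (A →L[ℂ] ℂ)} (hT : IsB n T)
    (hUI : UIc τ n T) : UIc (tauM (J + 1) τ) n (ampMX (J := J + 1) n T) := by
  intro ε hε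
  have hJ : (0 : ℝ) < (J : ℝ) + 1 := by positivity
  have hD : (0 : ℝ) < ((J : ℝ) + 1) ^ (n + 2) := by positivity
  obtain ⟨R, hR, hRT⟩ := hUI (ε / ((J : ℝ) + 1) ^ (n + 2)) (div_pos hε hD)
  refine ⟨((J : ℝ) + 1) ^ (n + 2) * (R * Real.sqrt ((J : ℝ) + 1)), by positivity, ?_⟩
  intro X Y
  rw [ampMX_apply hT]
  have hP : 0 ≤ ∏ i ∈ range n, ‖X i‖ := prod_nonneg fun _ _ => norm_nonneg _
  have hsqY : 0 ≤ Real.sqrt (sq (tauM (J + 1) τ) Y) := Real.sqrt_nonneg _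
  have h1 : ∀ k l : Fin (J + 1), ‖ampX n k l T (fun i p q => X i p q) (Y l k)‖ ≤
      ((J : ℝ) + 1) ^ n * (∏ i ∈ range n, ‖X i‖) *
        (R * (Real.sqrt ((J : ℝ) + 1) * Real.sqrt (sq (tauM (J + 1) τ) Y)) +
          ε / ((J : ℝ) + 1) ^ (n + 2) * ‖Y‖) := by
    intro k l
    have hb : 0 ≤ R * Real.sqrt (sq τ (Y l k)) + ε / ((J : ℝ) + 1) ^ (n + 2) * ‖Y l k‖ := by
      positivity
    have h2 := R05_amp l (Y l k) n k T (fun i p q => X i p q) (fun i => ‖X i‖)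
      (R * Real.sqrt (sq τ (Y l k)) + ε / ((J : ℝ) + 1) ^ (n + 2) * ‖Y l k‖) hb
      (fun i p q => CStarMatrix.norm_entry_le_norm) (fun a => hRT a (Y l k))
    refine h2.trans ?_
    have e1 : ((J + 1 : ℕ) : ℝ) = (J : ℝ) + 1 := by push_cast; ring
    rw [e1]
    refine mul_le_mul_of_nonneg_left ?_ (by positivity)
    have h3 : Real.sqrt (sq τ (Y l k)) ≤
        Real.sqrt ((J : ℝ) + 1) * Real.sqrt (sq (tauM (J + 1) τ) Y) := by
      rw [← Real.sqrt_mul hJ.le]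
      exact Real.sqrt_le_sqrt (R05_sq hτ Y l k)
    have h4 : ‖Y l k‖ ≤ ‖Y‖ := CStarMatrix.norm_entry_le_norm
    exact add_le_add (mul_le_mul_of_nonneg_left h3 hR)
      (mul_le_mul_of_nonneg_left h4 (div_pos hε hD).le)
  refine (norm_sum_le _ _).trans ((sum_le_sum fun k _ => (norm_sum_le _ _).trans
    (sum_le_sum fun l _ => h1 k l)).trans (le_of_eq ?_))
  simp only [sum_const, card_univ, Fintype.card_fin, nsmul_eq_mul]
  push_cast
  field_simp
  ring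

end H730HC
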