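import Pool.Agent.H730R3.HD.Defs
import Pool.Agent.H730R3.HD.R04
import Pool.Agent.H730R3.HC.Final

set_option autoImplicit false

namespace H730HC

open Finset
open scoped ComplexConjugate

universe u v

variable {A : Type u} [CStarAlgebra A] {τ : A →ₗ[ℂ] ℂ}



theorem R06_apply (φ : A →L[ℂ] ℂ) (v : unitary A) (x : A) :
    ra (la (star (v : A)) φ) (v : A) x = φ ((v : A) * x * star (v : A)) := rfl

theorem R06_norm_conj (v : unitary A) (x : A) : ‖(v : A) * x * star (v : A)‖ ≤ ‖x‖ := by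
  have h1 : ‖(v : A)‖ ≤ 1 := by
    rcases subsingleton_or_nontrivial A with hA | hA
    · rw [Subsingleton.elim (v : A) 0, norm_zero]
      exact zero_le_one
    · exact (CStarRing.norm_coe_unitary v).le
  have h2 : ‖star (v : A)‖ ≤ 1 := by rw [norm_star]; exact h1
  calc ‖(v : A) * x * star (v : A)‖ ≤ ‖(v : A) * x‖ * ‖star (v : A)‖ := norm_mul_le _ _
    _ ≤ (‖(v : A)‖ * ‖x‖) * ‖star (v : A)‖ :=
        mul_le_mul_of_nonneg_right (norm_mul_le _ _) (norm_nonneg _)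
    _ ≤ (1 * ‖x‖) * 1 := mul_le_mul (mul_le_mul_of_nonneg_right h1 (norm_nonneg _)) h2
        (norm_nonneg _) (by positivity)
    _ = ‖x‖ := by ring

theorem R06_norm (φ : A →L[ℂ] ℂ) (v : unitary A) :
    ‖ra (la (star (v : A)) φ) (v : A)‖ ≤ ‖φ‖ := by
  refine ContinuousLinearMap.opNorm_le_bound _ (norm_nonneg _) fun x => ?_
  rw [R06_apply]
  exact (φ.le_opNorm _).trans (mul_le_mul_of_nonneg_left (R06_norm_conj v x) (norm_nonneg _))

theorem IsTr_of_unitary (φ : A →L[ℂ] ℂ) (h : ∀ (u : unitary A) (y : A), φ ((u : A) * y * star (u : A)) = φ y) :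
    IsTr φ := by
  intro x y
  have hx : x ∈ Submodule.span ℂ ((unitary A : Submonoid A) : Set A) := by
    rw [CStarAlgebra.span_unitary]
    exact Submodule.mem_top
  induction hx using Submodule.span_induction with
  | mem u hu =>
    have h1 := h ⟨u, hu⟩ (y * u)
    have h2 : u * star u = 1 := Unitary.mul_star_self_of_mem hu
    have h3 : u * (y * u) * star u = u * y := by
      rw [← mul_assoc, mul_assoc (u * y) u (star u), h2, mul_one]
    rw [← h1]
    show φ (u * y) = φ (u * (y * u) * star u)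
    rw [h3]
  | zero => simp
  | add a b _ _ ha hb => rw [add_mul, mul_add, map_add, map_add, ha, hb]
  | smul c a _ ha => rw [smul_mul_assoc, mul_smul_comm, map_smul, map_smul, ha]

theorem Cp_tr (hτ : IsTS A τ) (m0 : (unitary A → ℝ) → ℝ) (hm0 : IsMean m0)
    (hmix : ∀ x ∈ Submodule.span ℂ {y : A | ∃ (z : A) (w : unitary A), y = z - (w : A) * z * star (w : A)},
      ∀ φ : A →ₗ[ℝ] ℝ, (∀ ε > 0, ∃ R : ℝ, 0 ≤ R ∧ ∀ y, |φ y| ≤ R * Real.sqrt (sq τ y) + ε * ‖y‖) →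
      m0 (fun v => φ ((v : A) * x * star (v : A))) = 0)
    (φ : A →L[ℂ] ℂ) (hφ : ∀ ε > 0, ∃ R : ℝ, 0 ≤ R ∧ UIat τ R ε φ) : IsTr (Cp m0 φ) := by
  refine IsTr_of_unitary _ fun u y => ?_
  have hx : y - (u : A) * y * star (u : A) ∈
      Submodule.span ℂ {y : A | ∃ (z : A) (w : unitary A), y = z - (w : A) * z * star (w : A)} :=
    Submodule.subset_span ⟨y, u, rfl⟩
  have hs := (EX_spec hm0 (fun v : unitary A => ra (la (star (v : A)) φ) (v : A)) ‖φ‖
    (fun v => R06_norm φ v)).1 (y - (u : A) * y * star (u : A))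
  have hre := hmix _ hx (Complex.reLm.comp (φ.toLinearMap.restrictScalars ℝ)) (by
    intro ε hε
    obtain ⟨R, hR, hR2⟩ := hφ ε hε
    exact ⟨R, hR, fun y => (Complex.abs_re_le_norm _).trans (hR2 y)⟩)
  have him := hmix _ hx (Complex.imLm.comp (φ.toLinearMap.restrictScalars ℝ)) (by
    intro ε hε
    obtain ⟨R, hR, hR2⟩ := hφ ε hε
    exact ⟨R, hR, fun y => (Complex.abs_im_le_norm _).trans (hR2 y)⟩)
  have h0 : Cp m0 φ (y - (u : A) * y * star (u : A)) = 0 := by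
    apply Complex.ext
    · exact hs.1.trans hre
    · exact hs.2.trans him
  rw [map_sub, sub_eq_zero] at h0
  exact h0.symm

theorem Cp_of_tr (m0 : (unitary A → ℝ) → ℝ) (hm0 : IsMean m0) (φ : A →L[ℂ] ℂ) (hφ : IsTr φ) :
    Cp m0 φ = φ := by
  have h1 : (fun v : unitary A => ra (la (star (v : A)) φ) (v : A)) = fun _ => φ := by
    funext v
    ext x
    rw [R06_apply, hφ, ← mul_assoc, Unitary.coe_star_mul_self, one_mul]
  unfold Cp
  rw [h1]
  exact EX_const hm0 φ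

theorem Cp_add (m0 : (unitary A → ℝ) → ℝ) (hm0 : IsMean m0) (φ ψ : A →L[ℂ] ℂ) :
    Cp m0 (φ + ψ) = Cp m0 φ + Cp m0 ψ := by
  have h1 := EX_add hm0 (fun v : unitary A => ra (la (star (v : A)) φ) (v : A))
    (fun v : unitary A => ra (la (star (v : A)) ψ) (v : A)) ⟨‖φ‖, fun v => R06_norm φ v⟩
    ⟨‖ψ‖, fun v => R06_norm ψ v⟩
  exact h1

theorem Cp_smul (m0 : (unitary A → ℝ) → ℝ) (hm0 : IsMean m0) (c : ℂ) (φ : A →L[ℂ] ℂ) :
    Cp m0 (c • φ) = c • Cp m0 φ := by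
  have h1 := EX_smul hm0 c (fun v : unitary A => ra (la (star (v : A)) φ) (v : A))
    ⟨‖φ‖, fun v => R06_norm φ v⟩
  exact h1

theorem Cp_norm (m0 : (unitary A → ℝ) → ℝ) (hm0 : IsMean m0) (φ : A →L[ℂ] ℂ) : ‖Cp m0 φ‖ ≤ ‖φ‖ :=
  (EX_spec hm0 (fun v : unitary A => ra (la (star (v : A)) φ) (v : A)) ‖φ‖
    (fun v => R06_norm φ v)).2

end H730HC
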