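import Pool.Agent.H730R3.HD.Defs
import Pool.Agent.H730R3.HD.R01
import Pool.Agent.H730R3.HD.R02
import Pool.Agent.H730R3.HC.Final

set_option autoImplicit false

namespace H730HC

open Finset
open scoped ComplexConjugate

universe u v

variable {A : Type u} [CStarAlgebra A] {τ : A →ₗ[ℂ] ℂ}



theorem R34_sq (hτ : IsTS A τ) {Φ : A → A} (hΦ : Φ ∈ T34Av A) (x : A) :
    sq τ (Φ x) ≤ sq τ x := by
  have h : Real.sqrt (sq τ (Φ x)) ≤ Real.sqrt (sq τ x) := by
    refine T34_ind (fun Φ => Real.sqrt (sq τ (Φ x)) ≤ Real.sqrt (sq τ x)) ?_ ?_ hΦ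
    · intro a ha b hb p q hp hq hpq
      simp only [Set.mem_ofPred_eq, Pi.add_apply, Pi.smul_apply] at ha hb ⊢
      have hs : ∀ (c : ℝ), 0 ≤ c → ∀ y : A, Real.sqrt (sq τ (c • y)) = c * Real.sqrt (sq τ y) := by
        intro c hc y
        rw [T34_rsmul, ts_sq_smul hτ, Complex.norm_real, Real.norm_of_nonneg hc,
          Real.sqrt_mul (by positivity), Real.sqrt_sq hc]
      calc Real.sqrt (sq τ (p • a x + q • b x))
          ≤ Real.sqrt (sq τ (p • a x)) + Real.sqrt (sq τ (q • b x)) := ts_triangle hτ _ _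
        _ = p * Real.sqrt (sq τ (a x)) + q * Real.sqrt (sq τ (b x)) := by rw [hs p hp, hs q hq]
        _ ≤ p * Real.sqrt (sq τ x) + q * Real.sqrt (sq τ x) := by gcongr
        _ = Real.sqrt (sq τ x) := by rw [← add_mul, hpq, one_mul]
    · intro v
      show Real.sqrt (sq τ ((v : A) * x * star (v : A))) ≤ _
      rw [ts_sq_unitary hτ]
  exact (Real.sqrt_le_sqrt_iff (ts_sq_nonneg hτ x)).1 h

theorem R34_mem (J : Finset (unitary A)) (l : unitary A → ℝ) (h0 : ∀ v ∈ J, 0 ≤ l v)
    (h1 : ∑ v ∈ J, l v = 1) :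
    (fun x : A => ∑ v ∈ J, (l v : ℂ) • ((v : A) * x * star (v : A))) ∈ T34Av A := by
  have h : ∑ v ∈ J, l v • (fun x : A => (v : A) * x * star (v : A)) ∈ T34Av A :=
    Convex.sum_mem (t := J) (w := l) (z := fun v : unitary A => fun x : A => (v : A) * x * star (v : A))
      (convex_convexHull ℝ
        (Set.range fun (v : unitary A) (x : A) => (v : A) * x * star (v : A))) h0 h1
      (fun v _ => T34_Ad v)
  convert h using 1
  funext x
  rw [Finset.sum_apply]
  refine Finset.sum_congr rfl (fun v _ => ?_)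
  rw [Pi.smul_apply, T34_rsmul]

theorem R34_rep {Φ : A → A} (hΦ : Φ ∈ T34Av A) :
    ∃ (J : Finset (unitary A)) (l : unitary A → ℝ), (∀ v ∈ J, 0 ≤ l v) ∧ ∑ v ∈ J, l v = 1 ∧
      ∀ x, Φ x = ∑ v ∈ J, (l v : ℂ) • ((v : A) * x * star (v : A)) := by
  have key : ∃ l : unitary A →₀ ℝ, (∀ v, 0 ≤ l v) ∧ (l.sum fun _ c => c) = 1 ∧
      ∀ x, Φ x = l.sum fun v c => (c : ℂ) • ((v : A) * x * star (v : A)) := by
    refine T34_ind (fun Φ => ∃ l : unitary A →₀ ℝ, (∀ v, 0 ≤ l v) ∧ (l.sum fun _ c => c) = 1 ∧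
      ∀ x, Φ x = l.sum fun v c => (c : ℂ) • ((v : A) * x * star (v : A))) ?_ ?_ hΦ
    · rintro a ⟨la, ha0, ha1, ha⟩ b ⟨lb, hb0, hb1, hb⟩ p q hp hq hpq
      refine ⟨p • la + q • lb, ?_, ?_, ?_⟩
      · intro v
        simp only [Finsupp.add_apply, Finsupp.smul_apply, smul_eq_mul]
        have := ha0 v
        have := hb0 v
        positivity
      · rw [Finsupp.sum_add_index' (by intro v; rfl) (by intro v c d; rfl),
          Finsupp.sum_smul_index' (by intro v; rfl), Finsupp.sum_smul_index' (by intro v; rfl)]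
        simp only [smul_eq_mul]
        rw [← Finsupp.mul_sum, ← Finsupp.mul_sum, ha1, hb1, mul_one, mul_one, hpq]
      · intro x
        rw [Pi.add_apply, Pi.smul_apply, Pi.smul_apply, ha, hb,
          Finsupp.sum_add_index' (by intro v; simp) (by intro v c d; push_cast; rw [add_smul]),
          Finsupp.sum_smul_index' (by intro v; simp), Finsupp.sum_smul_index' (by intro v; simp),
          Finsupp.smul_sum, Finsupp.smul_sum]
        congr 1
        · refine Finset.sum_congr rfl (fun v _ => ?_)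
          simp only [smul_eq_mul]
          rw [T34_rsmul, smul_smul, Complex.ofReal_mul]
        · refine Finset.sum_congr rfl (fun v _ => ?_)
          simp only [smul_eq_mul]
          rw [T34_rsmul, smul_smul, Complex.ofReal_mul]
    · intro v
      classical
      refine ⟨Finsupp.single v 1, ?_, ?_, ?_⟩
      · intro w
        rw [Finsupp.single_apply]
        split_ifs <;> norm_num
      · rw [Finsupp.sum_single_index rfl]
      · intro x
        rw [Finsupp.sum_single_index (by simp)]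
        simp
  obtain ⟨l, h0, h1, h⟩ := key
  exact ⟨l.support, l, fun v _ => h0 v, h1, h⟩

theorem R34_D {Φ : A → A} (hΦ : Φ ∈ T34Av A) (x : A) (hx : x ∈ Submodule.span ℂ
    {y : A | ∃ (z : A) (w : unitary A), y = z - (w : A) * z * star (w : A)}) :
    Φ x ∈ Submodule.span ℂ {y : A | ∃ (z : A) (w : unitary A), y = z - (w : A) * z * star (w : A)} := by
  refine T34_ind (fun Φ => Φ x ∈ Submodule.span ℂ
    {y : A | ∃ (z : A) (w : unitary A), y = z - (w : A) * z * star (w : A)}) ?_ ?_ hΦ
  · intro a ha b hb p q hp hq hpq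
    simp only [Set.mem_ofPred_eq, Pi.add_apply, Pi.smul_apply] at ha hb ⊢
    rw [T34_rsmul, T34_rsmul]
    exact Submodule.add_mem _ (Submodule.smul_mem _ _ ha) (Submodule.smul_mem _ _ hb)
  · intro v
    induction hx using Submodule.span_induction with
    | mem y hy =>
      obtain ⟨z, w, rfl⟩ := hy
      apply Submodule.subset_span
      refine ⟨(v : A) * z * star (v : A), v * w * star v, ?_⟩
      have hv : star (v : A) * (v : A) = 1 := Unitary.star_mul_self_of_mem v.2
      have e1 : ((v * w * star v : unitary A) : A) = (v : A) * (w : A) * star (v : A) := by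
        simp
      rw [e1]
      simp only [star_mul, star_star, mul_sub, sub_mul]
      congr 1
      calc (v : A) * ((w : A) * z * star (w : A)) * star (v : A)
          = (v : A) * (w : A) * 1 * z * 1 * star (w : A) * star (v : A) := by
            simp only [mul_one, mul_assoc]
        _ = _ := by
            rw [← hv]
            simp only [mul_assoc]
    | zero => simp
    | add y z _ _ hy hz =>
      have e : (v : A) * (y + z) * star (v : A) =
          (v : A) * y * star (v : A) + (v : A) * z * star (v : A) := by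
        rw [mul_add, add_mul]
      show (v : A) * (y + z) * star (v : A) ∈ _
      rw [e]
      exact Submodule.add_mem _ hy hz
    | smul c y _ hy =>
      have e : (v : A) * (c • y) * star (v : A) = c • ((v : A) * y * star (v : A)) := by
        rw [mul_smul_comm, smul_mul_assoc]
      show (v : A) * (c • y) * star (v : A) ∈ _
      rw [e]
      exact Submodule.smul_mem _ _ hy

theorem R34_main (hτ : IsTS A τ) (S : Finset A) (hS : ∀ x ∈ S, x ∈ Submodule.span ℂ
    {y : A | ∃ (z : A) (w : unitary A), y = z - (w : A) * z * star (w : A)}) (ε : ℝ) (hε : 0 < ε) :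
    ∃ Φ ∈ T34Av A, ∀ x ∈ S, sq τ (Φ x) ≤ ε := by
  classical
  induction S using Finset.induction_on with
  | empty => exact ⟨_, T34_one, by simp⟩
  | insert x S hx ih =>
    obtain ⟨Φ, hΦ, h⟩ := ih (fun y hy => hS y (Finset.mem_insert_of_mem hy))
    obtain ⟨J, l, h0, h1, h2⟩ := ts_average hτ (Φ x)
      (R34_D hΦ x (hS x (Finset.mem_insert_self x S))) ε hε
    have hΨ := R34_mem J l h0 h1
    refine ⟨_, T34_comp hΨ hΦ, ?_⟩
    intro y hy
    rcases Finset.mem_insert.1 hy with rfl | hy
    · exact h2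
    · exact (R34_sq hτ hΨ (Φ y)).trans (h y hy)

theorem ts_average_finite (hτ : IsTS A τ) (S : Finset A) (hS : ∀ x ∈ S, x ∈ Submodule.span ℂ
    {y : A | ∃ (z : A) (w : unitary A), y = z - (w : A) * z * star (w : A)}) (ε : ℝ) (hε : 0 < ε) :
    ∃ (J : Finset (unitary A)) (l : unitary A → ℝ), (∀ v ∈ J, 0 ≤ l v) ∧ ∑ v ∈ J, l v = 1 ∧
      ∀ x ∈ S, sq τ (∑ v ∈ J, (l v : ℂ) • ((v : A) * x * star (v : A))) ≤ ε := by
  obtain ⟨Φ, hΦ, h⟩ := R34_main hτ S hS ε hε
  obtain ⟨J, l, h0, h1, h2⟩ := R34_rep hΦ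
  exact ⟨J, l, h0, h1, fun x hx => by rw [← h2]; exact h x hx⟩

end H730HC
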