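import Pool.Agent.H730R3.HD.Defs
import Pool.Agent.H730R3.HD.R01
import Pool.Agent.H730R3.HD.R34
import Pool.Agent.H730R3.HC.Final

set_option autoImplicit false

namespace H730HC

open Finset
open scoped ComplexConjugate

universe u v

variable {A : Type u} [CStarAlgebra A] {τ : A →ₗ[ℂ] ℂ}



theorem ts_exists_mix (hτ : IsTS A τ) : ∃ m0 : (unitary A → ℝ) → ℝ, IsMean m0 ∧
    ∀ x ∈ Submodule.span ℂ {y : A | ∃ (z : A) (w : unitary A), y = z - (w : A) * z * star (w : A)},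
    ∀ φ : A →ₗ[ℝ] ℝ, (∀ ε > 0, ∃ R : ℝ, 0 ≤ R ∧ ∀ y, |φ y| ≤ R * Real.sqrt (sq τ y) + ε * ‖y‖) →
      m0 (fun v => φ ((v : A) * x * star (v : A))) = 0 := by
  classical
  have hd : ∀ k : Finset A × ℕ, ∃ (J : Finset (unitary A)) (l : unitary A → ℝ),
      (∀ v ∈ J, 0 ≤ l v) ∧ ∑ v ∈ J, l v = 1 ∧
      ∀ x ∈ k.1.filter (fun x => x ∈ Submodule.span ℂ
        {y : A | ∃ (z : A) (w : unitary A), y = z - (w : A) * z * star (w : A)}),
        sq τ (∑ v ∈ J, (l v : ℂ) • ((v : A) * x * star (v : A))) ≤ 1 / ((k.2 : ℝ) + 1) :=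
    fun k => ts_average_finite hτ _ (fun x hx => (Finset.mem_filter.1 hx).2) _ (by positivity)
  choose J l h0 h1 h2 using hd
  let m : (Finset A × ℕ) → (unitary A → ℝ) → ℝ := fun k f => ∑ v ∈ J k, l k v * f v
  have hm : ∀ k, IsMean (m k) := by
    intro k
    constructor
    · intro f g _ _
      simp only [m, mul_add, sum_add_distrib]
    · intro c f _
      simp only [m, mul_sum]
      exact sum_congr rfl fun v _ => by ring
    · intro f g _ _ h
      exact sum_le_sum fun v hv => mul_le_mul_of_nonneg_left (h v) (h0 k v hv)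
    · intro c
      simp only [m, ← sum_mul, h1, one_mul]
  let F : Ultrafilter (Finset A × ℕ) := Ultrafilter.of Filter.atTop
  have hF : (F : Filter (Finset A × ℕ)) ≤ Filter.atTop := Ultrafilter.of_le _
  refine ⟨fun f => ulim F (fun k => m k f), ultra_isMean F m hm, fun x hx φ hφ => ?_⟩
  have hnorm : ∀ v : unitary A, ‖(v : A) * x * star (v : A)‖ = ‖x‖ := by
    intro v
    have h := CStarRing.norm_mul_coe_unitary ((v : A) * x) (star v)
    rw [Unitary.coe_star] at h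
    rw [h, CStarRing.norm_coe_unitary_mul]
  have hb : Bdd (fun v : unitary A => φ ((v : A) * x * star (v : A))) := by
    obtain ⟨R, hR0, hR⟩ := hφ 1 one_pos
    refine ⟨R * Real.sqrt (sq τ x) + 1 * ‖x‖, fun v => ?_⟩
    have h := hR ((v : A) * x * star (v : A))
    rwa [ts_sq_unitary hτ, hnorm v] at h
  have ht := ultra_tendsto F m hm _ hb
  refine tendsto_nhds_unique ht (Filter.Tendsto.mono_left ?_ hF)
  rw [Metric.tendsto_atTop]
  intro ε hε
  have hx1 : 0 < ‖x‖ + 1 := by positivity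
  obtain ⟨R, hR0, hR⟩ := hφ (ε / (2 * (‖x‖ + 1))) (by positivity)
  obtain ⟨K, hK⟩ := exists_nat_gt (R ^ 2 / (ε / 2) ^ 2)
  refine ⟨({x}, K), fun k hk => ?_⟩
  have hk1 : x ∈ k.1 := hk.1 (Finset.mem_singleton_self x)
  have hk2 : K ≤ k.2 := hk.2
  set D : A := ∑ v ∈ J k, (l k v : ℂ) • ((v : A) * x * star (v : A)) with hD
  have e1 : m k (fun v => φ ((v : A) * x * star (v : A))) = φ D := by
    rw [hD, map_sum]
    refine sum_congr rfl fun v _ => ?_
    rw [Complex.coe_smul, map_smul, smul_eq_mul]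
  have e3 : sq τ D ≤ 1 / ((k.2 : ℝ) + 1) := h2 k x (Finset.mem_filter.2 ⟨hk1, hx⟩)
  have e4 : ‖D‖ ≤ ‖x‖ := by
    rw [hD]
    refine (norm_sum_le _ _).trans ?_
    have : ∀ v ∈ J k, ‖(l k v : ℂ) • ((v : A) * x * star (v : A))‖ ≤ l k v * ‖x‖ := by
      intro v hv
      rw [norm_smul, hnorm v, Complex.norm_real, Real.norm_of_nonneg (h0 k v hv)]
    refine (sum_le_sum this).trans ?_
    rw [← sum_mul, h1, one_mul]
  rw [dist_zero_right, e1, Real.norm_eq_abs]
  have hk3 : (K : ℝ) ≤ (k.2 : ℝ) := by exact_mod_cast hk2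
  have hpos : (0 : ℝ) < (k.2 : ℝ) + 1 := by positivity
  have e5 : R * Real.sqrt (sq τ D) < ε / 2 := by
    have h5 : Real.sqrt (sq τ D) ≤ Real.sqrt (1 / ((k.2 : ℝ) + 1)) := Real.sqrt_le_sqrt e3
    refine (mul_le_mul_of_nonneg_left h5 hR0).trans_lt ?_
    refine lt_of_abs_lt (abs_lt_of_sq_lt_sq ?_ (by positivity))
    rw [mul_pow, Real.sq_sqrt (by positivity), mul_one_div, div_lt_iff₀ hpos]
    have h6 : R ^ 2 < K * (ε / 2) ^ 2 := (div_lt_iff₀ (by positivity)).1 hK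
    nlinarith [sq_nonneg (ε / 2), mul_le_mul_of_nonneg_right hk3 (sq_nonneg (ε / 2)),
      (by positivity : 0 < (ε / 2) ^ 2)]
  have e6 : ε / (2 * (‖x‖ + 1)) * ‖D‖ ≤ ε / 2 := by
    refine (mul_le_mul_of_nonneg_left e4 (by positivity)).trans ?_
    rw [div_mul_eq_mul_div, div_le_div_iff₀ (by positivity) (by norm_num)]
    nlinarith [norm_nonneg x]
  have := hR D
  linarith

end H730HC
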