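import Pool.Agent.H730R3.HD.Defs
import Pool.Agent.H730R3.HD.R01
import Pool.Agent.H730R3.HD.R04
import Pool.Agent.H730R3.HC.Final

set_option autoImplicit false

namespace H730HC

open Finset
open scoped ComplexConjugate

universe u v

variable {A : Type u} [CStarAlgebra A] {τ : A →ₗ[ℂ] ℂ}



theorem R09_jensen {I : Type*} {m : (I → ℝ) → ℝ} (hm : IsMean m) {f : I → ℝ} (hf : Bdd f)
    (h0 : ∀ i, 0 ≤ f i) : m (fun i => Real.sqrt (f i)) ≤ Real.sqrt (m f) := by
  obtain ⟨C, hC⟩ := hf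
  have hfb : Bdd f := ⟨C, hC⟩
  have hg : Bdd (fun i => Real.sqrt (f i)) := ⟨Real.sqrt C, fun i => by
    rw [abs_of_nonneg (Real.sqrt_nonneg _)]
    exact Real.sqrt_le_sqrt ((le_abs_self _).trans (hC i))⟩
  set c : ℝ := m (fun i => Real.sqrt (f i)) with hc
  apply Real.le_sqrt_of_sq_le
  have h1 : m (fun i => (2 * c) * Real.sqrt (f i)) ≤ m (fun i => f i + c ^ 2) :=
    hm.mono _ _ (T09_bdd_smul _ hg) (T09_bdd_add hfb (T09_bdd_const _)) (fun i => by
      nlinarith [sq_nonneg (Real.sqrt (f i) - c), Real.sq_sqrt (h0 i)])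
  have h2 : m (fun i => (2 * c) * Real.sqrt (f i)) = 2 * c * c := hm.smul (2 * c) _ hg
  have h3 : m (fun i => f i + c ^ 2) = m f + c ^ 2 := by
    have h4 := hm.add f (fun _ => c ^ 2) hfb (T09_bdd_const _)
    rw [hm.const] at h4
    exact h4
  rw [h2, h3] at h1
  nlinarith

theorem R09_sq_conj (hτ : IsTS A τ) (u : unitary A) (x : A) :
    sq τ ((u : A) * x * star (u : A)) = sq τ x := ts_sq_unitary hτ u x

theorem R09_sq_conj' (hτ : IsTS A τ) (u : unitary A) (x : A) :
    sq τ (star (u : A) * x * (u : A)) = sq τ x := by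
  have h := ts_sq_unitary hτ (star u) x
  rw [Unitary.coe_star, star_star] at h
  exact h

theorem R09_sqrt_le (hτ : IsTS A τ) (x : A) : Real.sqrt (sq τ x) ≤ ‖x‖ := by
  have h := Real.sqrt_le_sqrt (ts_sq_le_norm hτ x)
  rwa [Real.sqrt_sq (norm_nonneg x)] at h

/-- the real linear functional `y ↦ re τ (s^* y)` -/
noncomputable def R09_phi (τ : A →ₗ[ℂ] ℂ) (s : A) : A →ₗ[ℝ] ℝ where
  toFun y := (τ (star s * y)).re
  map_add' x y := by rw [mul_add, map_add, Complex.add_re]
  map_smul' c y := by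
    have h : c • y = (c : ℂ) • y := rfl
    rw [h, mul_smul_comm, map_smul, smul_eq_mul, Complex.re_ofReal_mul]
    rfl

theorem R09_phi_bound (hτ : IsTS A τ) (s y : A) :
    |R09_phi τ s y| ≤ Real.sqrt (sq τ s) * Real.sqrt (sq τ y) := by
  rw [← Real.sqrt_mul (ts_sq_nonneg hτ s)]
  exact Real.abs_le_sqrt (ts_cs hτ s y)

theorem R09_real (hτ : IsTS A τ) (m0 : (unitary A → ℝ) → ℝ) (hm0 : IsMean m0)
    (hmix : ∀ x ∈ Submodule.span ℂ {y : A | ∃ (z : A) (w : unitary A), y = z - (w : A) * z * star (w : A)},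
      ∀ φ : A →ₗ[ℝ] ℝ, (∀ ε > 0, ∃ R : ℝ, 0 ≤ R ∧ ∀ y, |φ y| ≤ R * Real.sqrt (sq τ y) + ε * ‖y‖) →
      m0 (fun v => φ ((v : A) * x * star (v : A))) = 0)
    (G : Finset (unitary A)) (hG : G.Nonempty) (R ε K : ℝ) (hR : 0 ≤ R) (hε : 0 ≤ ε) (hK : 0 ≤ K) (r : ℕ) :
    ∀ (z : unitary A → A → ℝ), (∀ u x y, z u (x + y) = z u x + z u y) →
      (∀ u x, |z u x| ≤ R * Real.sqrt (sq τ x) + ε * ‖x‖) →
    ∀ (ξ : ℕ → unitary A → A), (∀ k g, ‖ξ k g‖ ≤ K) →
      (∀ k g, ξ k g ∈ Submodule.span ℂ {y : A | ∃ (z : A) (w : unitary A), y = z - (w : A) * z * star (w : A)}) →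
    ∀ s : A,
      nu G m0 r (fun u => z u s) +
      ∑ k ∈ range r, (∑ g ∈ G, Er G m0 r k
        (fun p => z (p.1 * g * p.2) ((p.1 : A) * ξ k g * star (p.1 : A)))) / (G.card : ℝ)
      ≤ R * Real.sqrt (sq τ s + r * K ^ 2) + ε * (‖s‖ + r * K) := by
  have hN : (0 : ℝ) < (G.card : ℝ) := by exact_mod_cast Finset.card_pos.2 hG
  induction r with
  | zero =>
    intro z hadd hbd ξ hξ hspan s
    have h := hbd 1 s
    have h2 := le_abs_self (z 1 s)
    simp only [nu, Finset.range_zero, Finset.sum_empty, add_zero, Nat.cast_zero, zero_mul]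
    linarith
  | succ r ih =>
    intro z hadd hbd ξ hξ hspan s
    have hav := T09_av_isMean G hG m0 hm0
    have hnu := nu_isMean G hG m0 hm0 r
    have hzb : ∀ u x, |z u x| ≤ (R + ε) * ‖x‖ := by
      intro u x
      refine (hbd u x).trans ?_
      have h1 := mul_le_mul_of_nonneg_left (R09_sqrt_le hτ x) hR
      linarith
    set z' : unitary A × unitary A → unitary A → A → ℝ := fun q B x =>
      z ((q.2 * q.1 * q.2⁻¹) * B)
        (((q.2 * q.1 * q.2⁻¹ : unitary A) : A) * x * star ((q.2 * q.1 * q.2⁻¹ : unitary A) : A))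
      with hz'
    set b : unitary A × unitary A → A := fun q => (q.2 : A) * ξ 0 q.1 * star (q.2 : A) with hb
    set s' : unitary A × unitary A → A := fun q =>
      star ((q.2 * q.1 * q.2⁻¹ : unitary A) : A) * (s + b q) *
        ((q.2 * q.1 * q.2⁻¹ : unitary A) : A) with hs'
    have hadd' : ∀ q u x y, z' q u (x + y) = z' q u x + z' q u y := by
      intro q u x y
      simp only [hz']
      rw [mul_add, add_mul, hadd]
    have hbd' : ∀ q u x, |z' q u x| ≤ R * Real.sqrt (sq τ x) + ε * ‖x‖ := by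
      intro q u x
      have h := hbd ((q.2 * q.1 * q.2⁻¹) * u) (((q.2 * q.1 * q.2⁻¹ : unitary A) : A) * x *
        star ((q.2 * q.1 * q.2⁻¹ : unitary A) : A))
      rw [R09_sq_conj hτ, T09_norm_conj] at h
      exact h
    have hz'b : ∀ q u x, |z' q u x| ≤ (R + ε) * ‖x‖ := by
      intro q u x
      refine (hbd' q u x).trans ?_
      have h1 := mul_le_mul_of_nonneg_left (R09_sqrt_le hτ x) hR
      linarith
    have hbb : ∀ q, ‖b q‖ ≤ K := by
      intro q
      simp only [hb]
      rw [T09_norm_conj]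
      exact hξ 0 q.1
    have hs'n : ∀ q, ‖s' q‖ ≤ ‖s‖ + K := by
      intro q
      simp only [hs']
      rw [T09_norm_conj']
      exact (norm_add_le _ _).trans (add_le_add le_rfl (hbb q))
    have hs'sq : ∀ q, sq τ (s' q) = sq τ (s + b q) := by
      intro q
      exact R09_sq_conj' hτ _ _
    have hz's : ∀ q B, z' q B (s' q) = z ((q.2 * q.1 * q.2⁻¹) * B) s +
        z ((q.2 * q.1 * q.2⁻¹) * B) (b q) := by
      intro q B
      simp only [hz', hs']
      rw [← hadd]
      congr 1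
      have h1 : ((q.2 * q.1 * q.2⁻¹ : unitary A) : A) * star ((q.2 * q.1 * q.2⁻¹ : unitary A) : A)
          = 1 := Unitary.coe_mul_star_self _
      calc ((q.2 * q.1 * q.2⁻¹ : unitary A) : A) * (star ((q.2 * q.1 * q.2⁻¹ : unitary A) : A) *
            (s + b q) * ((q.2 * q.1 * q.2⁻¹ : unitary A) : A)) *
            star ((q.2 * q.1 * q.2⁻¹ : unitary A) : A)
          = (((q.2 * q.1 * q.2⁻¹ : unitary A) : A) * star ((q.2 * q.1 * q.2⁻¹ : unitary A) : A)) *
            (s + b q) * (((q.2 * q.1 * q.2⁻¹ : unitary A) : A) *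
            star ((q.2 * q.1 * q.2⁻¹ : unitary A) : A)) := by
            simp only [mul_assoc]
        _ = s + b q := by rw [h1, one_mul, mul_one]
    -- the induction hypothesis
    have h1 : ∀ q, nu G m0 r (fun B => z' q B (s' q)) +
        ∑ k ∈ range r, (∑ g ∈ G, Er G m0 r k
          (fun p => z' q (p.1 * g * p.2) ((p.1 : A) * ξ (k + 1) g * star (p.1 : A)))) / (G.card : ℝ)
        ≤ R * Real.sqrt (sq τ (s + b q) + r * K ^ 2) + ε * ((‖s‖ + K) + r * K) := by
      intro q
      have h2 := ih (z' q) (hadd' q) (hbd' q) (fun k g => ξ (k + 1) g) (fun k g => hξ _ _)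
        (fun k g => hspan _ _) (s' q)
      rw [hs'sq q] at h2
      have h3 := mul_le_mul_of_nonneg_left (hs'n q) hε
      linarith
    -- boundedness
    have hEr : ∀ k g q, |Er G m0 r k
        (fun p => z' q (p.1 * g * p.2) ((p.1 : A) * ξ (k + 1) g * star (p.1 : A)))| ≤
          (R + ε) * K := by
      intro k g q
      refine T09_mean_bound (Er_isMean G hG m0 hm0 r k) fun p => ?_
      refine (hz'b q _ _).trans ?_
      rw [T09_norm_conj]
      exact mul_le_mul_of_nonneg_left (hξ _ _) (by linarith)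
    have hB1 : ∀ k g, Bdd (fun q : unitary A × unitary A => Er G m0 r k
        (fun p => z' q (p.1 * g * p.2) ((p.1 : A) * ξ (k + 1) g * star (p.1 : A)))) :=
      fun k g => ⟨_, fun q => hEr k g q⟩
    have hB2 : ∀ k, Bdd (fun q : unitary A × unitary A => (∑ g ∈ G, Er G m0 r k
        (fun p => z' q (p.1 * g * p.2) ((p.1 : A) * ξ (k + 1) g * star (p.1 : A)))) /
          (G.card : ℝ)) := by
      intro k
      have h5 := T09_bdd_smul ((G.card : ℝ)⁻¹) (T09_bdd_sum G
        (fun g q => Er G m0 r k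
        (fun p => z' q (p.1 * g * p.2) ((p.1 : A) * ξ (k + 1) g * star (p.1 : A))))
          (fun g _ => hB1 k g))
      have e : (fun q : unitary A × unitary A => (∑ g ∈ G, Er G m0 r k
        (fun p => z' q (p.1 * g * p.2) ((p.1 : A) * ξ (k + 1) g * star (p.1 : A)))) /
          (G.card : ℝ)) = (fun q => (G.card : ℝ)⁻¹ * ∑ g ∈ G, Er G m0 r k
        (fun p => z' q (p.1 * g * p.2) ((p.1 : A) * ξ (k + 1) g * star (p.1 : A)))) := by
        funext q; rw [div_eq_inv_mul]
      rw [e]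
      exact h5
    have hB3 : Bdd (fun q : unitary A × unitary A => ∑ k ∈ range r, (∑ g ∈ G, Er G m0 r k
        (fun p => z' q (p.1 * g * p.2) ((p.1 : A) * ξ (k + 1) g * star (p.1 : A)))) /
          (G.card : ℝ)) := T09_bdd_sum (range r) _ (fun k _ => hB2 k)
    have hN1 : Bdd (fun q : unitary A × unitary A =>
        nu G m0 r (fun B => z ((q.2 * q.1 * q.2⁻¹) * B) s)) :=
      ⟨(R + ε) * ‖s‖, fun q => T09_mean_bound hnu fun B => hzb _ _⟩
    have hN2 : Bdd (fun q : unitary A × unitary A =>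
        nu G m0 r (fun B => z ((q.2 * q.1 * q.2⁻¹) * B) (b q))) :=
      ⟨(R + ε) * K, fun q => T09_mean_bound hnu fun B => (hzb _ _).trans
        (mul_le_mul_of_nonneg_left (hbb q) (by linarith))⟩
    have hsplit : ∀ q, nu G m0 r (fun B => z' q B (s' q)) =
        nu G m0 r (fun B => z ((q.2 * q.1 * q.2⁻¹) * B) s) +
        nu G m0 r (fun B => z ((q.2 * q.1 * q.2⁻¹) * B) (b q)) := by
      intro q
      have e : (fun B => z' q B (s' q)) = (fun B => z ((q.2 * q.1 * q.2⁻¹) * B) s +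
        z ((q.2 * q.1 * q.2⁻¹) * B) (b q)) := funext (hz's q)
      rw [e]
      exact hnu.add (fun B => z ((q.2 * q.1 * q.2⁻¹) * B) s)
        (fun B => z ((q.2 * q.1 * q.2⁻¹) * B) (b q))
        ⟨(R + ε) * ‖s‖, fun B => hzb _ _⟩
        ⟨(R + ε) * ‖b q‖, fun B => hzb _ _⟩
    -- the average of the right side
    have hfb : Bdd (fun q : unitary A × unitary A => sq τ (s + b q) + r * K ^ 2) := by
      refine ⟨(‖s‖ + K) ^ 2 + r * K ^ 2, fun q => ?_⟩
      rw [abs_of_nonneg (by have := ts_sq_nonneg hτ (s + b q); positivity)]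
      have h4 : sq τ (s + b q) ≤ (‖s‖ + K) ^ 2 := (ts_sq_le_norm hτ _).trans
        (pow_le_pow_left₀ (norm_nonneg _) ((norm_add_le _ _).trans
          (add_le_add le_rfl (hbb q))) 2)
      linarith
    have hf0 : ∀ q : unitary A × unitary A, 0 ≤ sq τ (s + b q) + r * K ^ 2 := by
      intro q
      have := ts_sq_nonneg hτ (s + b q)
      positivity
    have hsb : Bdd (fun q : unitary A × unitary A => Real.sqrt (sq τ (s + b q) + r * K ^ 2)) := by
      obtain ⟨C, hC⟩ := hfb
      exact ⟨Real.sqrt C, fun q => by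
        rw [abs_of_nonneg (Real.sqrt_nonneg _)]
        exact Real.sqrt_le_sqrt ((le_abs_self _).trans (hC q))⟩
    have hphib : Bdd (fun q : unitary A × unitary A => R09_phi τ s (b q)) := by
      refine ⟨Real.sqrt (sq τ s) * K, fun q => (R09_phi_bound hτ s (b q)).trans ?_⟩
      exact mul_le_mul_of_nonneg_left ((R09_sqrt_le hτ _).trans (hbb q)) (Real.sqrt_nonneg _)
    have hphi0 : T09_av G m0 (fun q : unitary A × unitary A => R09_phi τ s (b q)) = 0 := by
      unfold T09_av
      rw [div_eq_zero_iff]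
      left
      refine Finset.sum_eq_zero fun g _ => ?_
      refine hmix (ξ 0 g) (hspan 0 g) (R09_phi τ s) ?_
      intro ε' hε'
      refine ⟨Real.sqrt (sq τ s), Real.sqrt_nonneg _, fun y => ?_⟩
      have h4 := R09_phi_bound hτ s y
      have h5 : 0 ≤ ε' * ‖y‖ := by positivity
      linarith
    have hfav : T09_av G m0 (fun q : unitary A × unitary A => sq τ (s + b q) + r * K ^ 2) ≤
        sq τ s + (r + 1) * K ^ 2 := by
      have h4 : T09_av G m0 (fun q : unitary A × unitary A => sq τ (s + b q) + r * K ^ 2) ≤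
          T09_av G m0 (fun q : unitary A × unitary A =>
            2 * R09_phi τ s (b q) + (sq τ s + (r + 1) * K ^ 2)) := by
        refine hav.mono _ _ hfb (T09_bdd_add (T09_bdd_smul 2 hphib) (T09_bdd_const _)) fun q => ?_
        have h5 := ts_sq_add hτ s (b q)
        have h6 : sq τ (b q) ≤ K ^ 2 := (ts_sq_le_norm hτ _).trans
          (pow_le_pow_left₀ (norm_nonneg _) (hbb q) 2)
        have h7 : R09_phi τ s (b q) = (τ (star s * b q)).re := rfl
        rw [h5, h7]
        linarith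
      refine h4.trans (le_of_eq ?_)
      have h5 := hav.add (fun q : unitary A × unitary A => 2 * R09_phi τ s (b q))
        (fun _ => sq τ s + (r + 1) * K ^ 2) (T09_bdd_smul 2 hphib) (T09_bdd_const _)
      rw [hav.const, hav.smul 2 _ hphib, hphi0] at h5
      rw [mul_zero, zero_add] at h5
      exact h5
    have hRHS : T09_av G m0 (fun q : unitary A × unitary A =>
        R * Real.sqrt (sq τ (s + b q) + r * K ^ 2) + ε * ((‖s‖ + K) + r * K)) ≤
        R * Real.sqrt (sq τ s + (r + 1) * K ^ 2) + ε * ((‖s‖ + K) + r * K) := by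
      have h5 := hav.add (fun q : unitary A × unitary A =>
        R * Real.sqrt (sq τ (s + b q) + r * K ^ 2)) (fun _ => ε * ((‖s‖ + K) + r * K))
        (T09_bdd_smul R hsb) (T09_bdd_const _)
      rw [hav.const, hav.smul R _ hsb] at h5
      refine (le_of_eq h5).trans ?_
      have h6 := (R09_jensen hav hfb hf0).trans (Real.sqrt_le_sqrt hfav)
      have h7 := mul_le_mul_of_nonneg_left h6 hR
      linarith
    -- the average of the left side
    have hLHS : T09_av G m0 (fun q : unitary A × unitary A =>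
        (nu G m0 r (fun B => z ((q.2 * q.1 * q.2⁻¹) * B) s) +
        nu G m0 r (fun B => z ((q.2 * q.1 * q.2⁻¹) * B) (b q))) +
        ∑ k ∈ range r, (∑ g ∈ G, Er G m0 r k
          (fun p => z' q (p.1 * g * p.2) ((p.1 : A) * ξ (k + 1) g * star (p.1 : A)))) /
            (G.card : ℝ)) ≤
        R * Real.sqrt (sq τ s + (r + 1) * K ^ 2) + ε * ((‖s‖ + K) + r * K) := by
      refine le_trans ?_ hRHS
      refine hav.mono _ _ (T09_bdd_add (T09_bdd_add hN1 hN2) hB3)
        (T09_bdd_add (T09_bdd_smul R hsb) (T09_bdd_const _)) fun q => ?_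
      have h5 := h1 q
      rw [hsplit q] at h5
      exact h5
    have hA1 := hav.add (fun q : unitary A × unitary A =>
        nu G m0 r (fun B => z ((q.2 * q.1 * q.2⁻¹) * B) s) +
        nu G m0 r (fun B => z ((q.2 * q.1 * q.2⁻¹) * B) (b q)))
        (fun q => ∑ k ∈ range r, (∑ g ∈ G, Er G m0 r k
          (fun p => z' q (p.1 * g * p.2) ((p.1 : A) * ξ (k + 1) g * star (p.1 : A)))) /
            (G.card : ℝ)) (T09_bdd_add hN1 hN2) hB3
    have hA2 := hav.add (fun q : unitary A × unitary A =>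
        nu G m0 r (fun B => z ((q.2 * q.1 * q.2⁻¹) * B) s))
        (fun q => nu G m0 r (fun B => z ((q.2 * q.1 * q.2⁻¹) * B) (b q))) hN1 hN2
    have hA3 : T09_av G m0 (fun q : unitary A × unitary A =>
          nu G m0 r (fun B => z ((q.2 * q.1 * q.2⁻¹) * B) s))
          = nu G m0 (r + 1) (fun B => z B s) := rfl
    have hA4 : T09_av G m0 (fun q : unitary A × unitary A =>
          nu G m0 r (fun B => z ((q.2 * q.1 * q.2⁻¹) * B) (b q)))
          = (∑ g ∈ G, Er G m0 (r + 1) 0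
        (fun p => z (p.1 * g * p.2) ((p.1 : A) * ξ 0 g * star (p.1 : A)))) / (G.card : ℝ) := by
      unfold T09_av
      congr 1
      refine Finset.sum_congr rfl fun g _ => ?_
      show m0 (fun v => nu G m0 r (fun B => z ((v * g * v⁻¹) * B)
          ((v : A) * ξ 0 g * star (v : A))))
        = m0 (fun v => nu G m0 r (fun B => z (v * g * (v⁻¹ * B))
          ((v : A) * ξ 0 g * star (v : A))))
      congr 1
      funext v
      congr 1
      funext B
      rw [← mul_assoc (v * g) v⁻¹ B]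
    have hA5 : T09_av G m0 (fun q : unitary A × unitary A =>
        ∑ k ∈ range r, (∑ g ∈ G, Er G m0 r k
          (fun p => z' q (p.1 * g * p.2) ((p.1 : A) * ξ (k + 1) g * star (p.1 : A)))) /
            (G.card : ℝ)) = ∑ k ∈ range r, (∑ g ∈ G, Er G m0 (r + 1) (k + 1)
        (fun p => z (p.1 * g * p.2) ((p.1 : A) * ξ (k + 1) g * star (p.1 : A)))) /
          (G.card : ℝ) := by
      rw [T09_mean_sum hav (range r)
        (fun k q => (∑ g ∈ G, Er G m0 r k
          (fun p => z' q (p.1 * g * p.2) ((p.1 : A) * ξ (k + 1) g * star (p.1 : A)))) /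
            (G.card : ℝ)) (fun k _ => hB2 k)]
      refine Finset.sum_congr rfl fun k _ => ?_
      have e : (fun q : unitary A × unitary A => (∑ g ∈ G, Er G m0 r k
        (fun p => z' q (p.1 * g * p.2) ((p.1 : A) * ξ (k + 1) g * star (p.1 : A)))) /
          (G.card : ℝ)) = (fun q => (G.card : ℝ)⁻¹ * ∑ g ∈ G, Er G m0 r k
        (fun p => z' q (p.1 * g * p.2) ((p.1 : A) * ξ (k + 1) g * star (p.1 : A)))) := by
        funext q; rw [div_eq_inv_mul]
      rw [e, hav.smul _ (fun q => ∑ g ∈ G, Er G m0 r k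
        (fun p => z' q (p.1 * g * p.2) ((p.1 : A) * ξ (k + 1) g * star (p.1 : A))))
        (T09_bdd_sum G (fun g q => Er G m0 r k
        (fun p => z' q (p.1 * g * p.2) ((p.1 : A) * ξ (k + 1) g * star (p.1 : A))))
          (fun g _ => hB1 k g)),
        T09_mean_sum hav G (fun g q => Er G m0 r k
        (fun p => z' q (p.1 * g * p.2) ((p.1 : A) * ξ (k + 1) g * star (p.1 : A))))
          (fun g _ => hB1 k g), div_eq_inv_mul]
      congr 1
      refine Finset.sum_congr rfl fun g' _ => ?_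
      show (∑ g ∈ G, m0 (fun v => Er G m0 r k (fun p =>
          z' (g, v) (p.1 * g' * p.2) ((p.1 : A) * ξ (k + 1) g' * star (p.1 : A))))) / (G.card : ℝ)
        = (∑ g ∈ G, m0 (fun v => Er G m0 r k (fun p =>
          z (v * g * v⁻¹ * p.1 * g' * p.2) (((v * g * v⁻¹ * p.1 : unitary A) : A) * ξ (k + 1) g' *
            star ((v * g * v⁻¹ * p.1 : unitary A) : A))))) / (G.card : ℝ)
      congr 1
      refine Finset.sum_congr rfl fun g _ => ?_
      congr 1
      funext v
      congr 1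
      funext p
      simp only [hz']
      rw [Submonoid.coe_mul (unitary A) (v * g * v⁻¹) p.1, star_mul]
      simp only [mul_assoc]
    rw [Finset.sum_range_succ']
    rw [hA1, hA2, hA3, hA4, hA5] at hLHS
    push_cast
    have hfin : ε * (‖s‖ + (r + 1) * K) = ε * ((‖s‖ + K) + r * K) := by ring
    rw [hfin]
    linarith

theorem bessel_X (hτ : IsTS A τ) (m0 : (unitary A → ℝ) → ℝ) (hm0 : IsMean m0)
    (hmix : ∀ x ∈ Submodule.span ℂ {y : A | ∃ (z : A) (w : unitary A), y = z - (w : A) * z * star (w : A)},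
      ∀ φ : A →ₗ[ℝ] ℝ, (∀ ε > 0, ∃ R : ℝ, 0 ≤ R ∧ ∀ y, |φ y| ≤ R * Real.sqrt (sq τ y) + ε * ‖y‖) →
      m0 (fun v => φ ((v : A) * x * star (v : A))) = 0)
    (G : Finset (unitary A)) (hG : G.Nonempty) (R ε K : ℝ) (hR : 0 ≤ R) (hε : 0 ≤ ε) (hK : 0 ≤ K) (r : ℕ) :
    ∀ (Z : unitary A → (A →L[ℂ] ℂ)), (∃ C, ∀ g, ‖Z g‖ ≤ C) → (∀ g, UIat τ R ε (Z g)) →
    ∀ (ξ : ℕ → unitary A → A), (∀ k g, ‖ξ k g‖ ≤ K) →
      (∀ k g, ξ k g ∈ Submodule.span ℂ {y : A | ∃ (z : A) (w : unitary A), y = z - (w : A) * z * star (w : A)}) →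
    ∀ s : A,
      nu G m0 r (fun u => (Z u s).re) +
      ∑ k ∈ range r, (∑ g ∈ G, (EX (Er G m0 r k)
        (fun p => ra (la (star (p.1 : A)) (Z (p.1 * g * p.2))) (p.1 : A)) (ξ k g)).re) / (G.card : ℝ)
      ≤ R * Real.sqrt (sq τ s + r * K ^ 2) + ε * (‖s‖ + r * K) := by
  intro Z hZC hUI ξ hξ hspan s
  obtain ⟨C, hC⟩ := hZC
  have hb : ∀ (g : unitary A) (p : unitary A × unitary A),
      ‖ra (la (star (p.1 : A)) (Z (p.1 * g * p.2))) (p.1 : A)‖ ≤ C := by
    intro g p
    have hC0 : 0 ≤ C := (norm_nonneg _).trans (hC 1)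
    refine ContinuousLinearMap.opNorm_le_bound _ hC0 fun x => ?_
    have h1 : (ra (la (star (p.1 : A)) (Z (p.1 * g * p.2))) (p.1 : A)) x =
        Z (p.1 * g * p.2) ((p.1 : A) * x * star (p.1 : A)) := rfl
    rw [h1]
    refine ((Z (p.1 * g * p.2)).le_opNorm _).trans ?_
    rw [T09_norm_conj]
    exact mul_le_mul_of_nonneg_right (hC _) (norm_nonneg _)
  have h := R09_real hτ m0 hm0 hmix G hG R ε K hR hε hK r (fun u x => (Z u x).re)
    (fun u x y => by simp only [map_add, Complex.add_re])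
    (fun u x => (Complex.abs_re_le_norm _).trans (hUI u x)) ξ hξ hspan s
  refine le_trans (le_of_eq ?_) h
  congr 1
  refine Finset.sum_congr rfl fun k _ => ?_
  congr 1
  refine Finset.sum_congr rfl fun g _ => ?_
  exact ((EX_spec (Er_isMean G hG m0 hm0 r k)
    (fun p : unitary A × unitary A => ra (la (star (p.1 : A)) (Z (p.1 * g * p.2))) (p.1 : A)) C
      (hb g)).1 (ξ k g)).1

end H730HC
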