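import Pool.Agent.H730R3.HD.Defs
import Pool.Agent.H730R3.HD.R01
import Pool.Agent.H730R3.HD.R04
import Pool.Agent.H730R3.HD.R07
import Pool.Agent.H730R3.HD.R09
import Pool.Agent.H730R3.HC.Final

set_option autoImplicit false

namespace H730HC

open Finset
open scoped ComplexConjugate

universe u v

variable {A : Type u} [CStarAlgebra A] {τ : A →ₗ[ℂ] ℂ}



theorem sm_finite_X (hτ : IsTS A τ) (C : ℝ) (Z : unitary A → (A →L[ℂ] ℂ)) (hZ : ∀ g, ‖Z g‖ ≤ C)
    (hUI : UIfam τ Z) (G : Finset (unitary A)) (S : Finset A) (hS : ∀ x ∈ S, x ∈ Submodule.span ℂ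
      {y : A | ∃ (z : A) (w : unitary A), y = z - (w : A) * z * star (w : A)}) (ε : ℝ) (hε : 0 < ε) :
    ∃ m : (unitary A × unitary A → ℝ) → ℝ, IsMean m ∧ ∀ g ∈ G, ∀ x ∈ S,
      ‖EX m (fun p => ra (la (star (p.1 : A)) (Z (p.1 * g * p.2))) (p.1 : A)) x‖ ≤ ε := by
  rcases G.eq_empty_or_nonempty with rfl | hG
  · refine ⟨fun f => f (1, 1), ⟨fun _ _ _ _ => rfl, fun _ _ _ => rfl, fun _ _ _ _ h => h _,
      fun _ => rfl⟩, fun g hg => absurd hg (Finset.notMem_empty g)⟩
  · obtain ⟨m0, hm0, hmix⟩ := ts_exists_mix (A := A) hτ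
    have hcard : (0 : ℝ) < (G.card : ℝ) := by exact_mod_cast Finset.card_pos.mpr hG
    obtain ⟨K, hKe⟩ : ∃ K : ℝ, K = ∑ x ∈ S, ‖x‖ := ⟨_, rfl⟩
    have hK0 : 0 ≤ K := by rw [hKe]; exact Finset.sum_nonneg fun x _ => norm_nonneg x
    obtain ⟨δ, hδe⟩ : ∃ δ : ℝ, δ = ε / (2 * (K + 1) * G.card) := ⟨_, rfl⟩
    have hδ0 : 0 < δ := by rw [hδe]; positivity
    have hδK : δ * K ≤ ε / (2 * G.card) := by
      rw [hδe, div_mul_eq_mul_div, div_le_div_iff₀ (by positivity) (by positivity)]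
      have : 0 ≤ ε * G.card := by positivity
      nlinarith
    obtain ⟨R, hR0, hR⟩ := hUI δ hδ0
    obtain ⟨r, hr⟩ := exists_nat_gt ((2 * G.card * (R * K) / ε) ^ 2)
    have hr0 : (0 : ℝ) < (r : ℝ) := lt_of_le_of_lt (by positivity) hr
    choose θ hθ1 hθ2 using Complex.exists_norm_eq_mul_self
    obtain ⟨c, hc⟩ : ∃ c : ℕ → unitary A → (A →L[ℂ] ℂ), c = fun k g => EX (Er G m0 r k)
        (fun p => ra (la (star (p.1 : A)) (Z (p.1 * g * p.2))) (p.1 : A)) := ⟨_, rfl⟩
    obtain ⟨ξ, hξ⟩ : ∃ ξ : ℕ → unitary A → A, ξ = fun k g => ∑ x ∈ S, θ (c k g x) • x := ⟨_, rfl⟩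
    have hξn : ∀ k g, ‖ξ k g‖ ≤ K := by
      intro k g
      rw [hξ, hKe]
      refine (norm_sum_le _ _).trans (Finset.sum_le_sum fun x _ => ?_)
      rw [norm_smul, hθ1, one_mul]
    have hξs : ∀ k g, ξ k g ∈ Submodule.span ℂ
        {y : A | ∃ (z : A) (w : unitary A), y = z - (w : A) * z * star (w : A)} := by
      intro k g
      rw [hξ]
      exact Submodule.sum_mem _ fun x hx => Submodule.smul_mem _ _ (hS x hx)
    have hb := bessel_X hτ m0 hm0 hmix G hG R δ K hR0 hδ0.le hK0 r Z ⟨C, hZ⟩ hR ξ hξn hξs 0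
    have hnu : nu G m0 r (fun u => (Z u 0).re) = 0 := by
      have h0 : (fun u : unitary A => (Z u 0).re) = fun _ => (0 : ℝ) := by
        funext u
        rw [map_zero, Complex.zero_re]
      rw [h0]
      exact (nu_isMean G hG m0 hm0 r).const 0
    have hsq0 : sq τ (0 : A) = 0 := by
      unfold sq
      rw [mul_zero, map_zero, Complex.zero_re]
    rw [hnu, hsq0, zero_add, zero_add, norm_zero, zero_add] at hb
    have hval : ∀ k g, (c k g (ξ k g)).re = ∑ x ∈ S, ‖c k g x‖ := by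
      intro k g
      rw [hξ]
      simp only [map_sum, map_smul, smul_eq_mul]
      rw [Complex.re_sum]
      refine Finset.sum_congr rfl fun x _ => ?_
      rw [← hθ2, Complex.ofReal_re]
    have hsqrt : Real.sqrt ((r : ℝ) * K ^ 2) = Real.sqrt r * K := by
      rw [Real.sqrt_mul hr0.le, Real.sqrt_sq hK0]
    rw [hsqrt] at hb
    by_contra hcon
    push Not at hcon
    have hk : ∀ k ∈ range r, ε / (G.card : ℝ) ≤ (∑ g ∈ G, (EX (Er G m0 r k)
        (fun p => ra (la (star (p.1 : A)) (Z (p.1 * g * p.2))) (p.1 : A)) (ξ k g)).re) /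
          (G.card : ℝ) := by
      intro k _
      obtain ⟨g, hg, x, hx, hlt⟩ := hcon (Er G m0 r k) (Er_isMean G hG m0 hm0 r k)
      refine div_le_div_of_nonneg_right (hlt.le.trans ?_) hcard.le
      have h1 : ∀ g ∈ G, 0 ≤ (c k g (ξ k g)).re := by
        intro g _
        rw [hval]
        exact Finset.sum_nonneg fun x _ => norm_nonneg _
      have h2 : (c k g (ξ k g)).re ≤ ∑ g ∈ G, (c k g (ξ k g)).re :=
        Finset.single_le_sum (f := fun g => (c k g (ξ k g)).re) h1 hg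
      have h3 : ‖c k g x‖ ≤ (c k g (ξ k g)).re := by
        rw [hval]
        exact Finset.single_le_sum (f := fun x => ‖c k g x‖) (fun x _ => norm_nonneg _) hx
      rw [hc] at h2 h3
      exact h3.trans h2
    have hsum := (Finset.sum_le_sum hk).trans hb
    rw [Finset.sum_const, Finset.card_range, nsmul_eq_mul] at hsum
    have h4 : δ * (r * K) ≤ r * (ε / (2 * G.card)) := by
      calc δ * (r * K) = r * (δ * K) := by ring
        _ ≤ r * (ε / (2 * G.card)) := mul_le_mul_of_nonneg_left hδK hr0.le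
    have h5 : (r : ℝ) * (ε / G.card) = r * (ε / (2 * G.card)) + r * (ε / (2 * G.card)) := by
      field_simp
      ring
    have h6 : (r : ℝ) * (ε / (2 * G.card)) ≤ R * (Real.sqrt r * K) := by linarith
    have h7 : Real.sqrt r * Real.sqrt r = r := Real.mul_self_sqrt hr0.le
    have h8 : 0 < Real.sqrt r := Real.sqrt_pos.2 hr0
    have h9 : Real.sqrt r * (ε / (2 * G.card)) ≤ R * K := by
      have : Real.sqrt r * (Real.sqrt r * (ε / (2 * G.card))) ≤ Real.sqrt r * (R * K) := by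
        calc Real.sqrt r * (Real.sqrt r * (ε / (2 * G.card))) =
            (Real.sqrt r * Real.sqrt r) * (ε / (2 * G.card)) := by ring
          _ = r * (ε / (2 * G.card)) := by rw [h7]
          _ ≤ R * (Real.sqrt r * K) := h6
          _ = Real.sqrt r * (R * K) := by ring
      exact le_of_mul_le_mul_left this h8
    have h10 : Real.sqrt r ≤ 2 * G.card * (R * K) / ε := by
      rw [le_div_iff₀ hε]
      rw [mul_div_assoc', div_le_iff₀ (by positivity)] at h9
      linarith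
    have h11 : (r : ℝ) ≤ (2 * G.card * (R * K) / ε) ^ 2 := by
      rw [← h7, ← sq_abs, pow_two]
      have h12 : Real.sqrt r ≤ |2 * G.card * (R * K) / ε| := h10.trans (le_abs_self _)
      exact mul_le_mul h12 h12 h8.le (abs_nonneg _)
    linarith

end H730HC
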