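import Pool.Agent.H730R3.HD.Defs
import Pool.Agent.H730R3.HD.R01
import Pool.Agent.H730R3.HD.R04
import Pool.Agent.H730R3.HD.R06
import Pool.Agent.H730R3.HD.R10
import Pool.Agent.H730R3.HC.Final

set_option autoImplicit false

namespace H730HC

open Finset
open scoped ComplexConjugate

universe u v

variable {A : Type u} [CStarAlgebra A] {τ : A →ₗ[ℂ] ℂ}

theorem R11_apply (φ : A →L[ℂ] ℂ) (w : unitary A) (x : A) :
    ra (la (star (w : A)) φ) (w : A) x = φ ((w : A) * x * star (w : A)) := rfl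

theorem R11_norm (C : ℝ) (Z : unitary A → (A →L[ℂ] ℂ)) (hZ : ∀ g, ‖Z g‖ ≤ C) (g : unitary A)
    (p : unitary A × unitary A) :
    ‖ra (la (star (p.1 : A)) (Z (p.1 * g * p.2))) (p.1 : A)‖ ≤ C := by
  have hC : 0 ≤ C := le_trans (norm_nonneg _) (hZ 1)
  refine ContinuousLinearMap.opNorm_le_bound _ hC fun x => ?_
  rw [R11_apply]
  have h1 : ‖(p.1 : A) * x * star (p.1 : A)‖ = ‖x‖ := by
    have e : star (p.1 : A) = ((star p.1 : unitary A) : A) := rfl
    rw [e, CStarRing.norm_mul_coe_unitary, CStarRing.norm_coe_unitary_mul]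
  calc ‖Z (p.1 * g * p.2) ((p.1 : A) * x * star (p.1 : A))‖
      ≤ ‖Z (p.1 * g * p.2)‖ * ‖(p.1 : A) * x * star (p.1 : A)‖ := ContinuousLinearMap.le_opNorm _ _
    _ ≤ C * ‖x‖ := by rw [h1]; exact mul_le_mul_of_nonneg_right (hZ _) (norm_nonneg _)

theorem sm_X (hτ : IsTS A τ) (C : ℝ) (Z : unitary A → (A →L[ℂ] ℂ)) (hZ : ∀ g, ‖Z g‖ ≤ C)
    (hUI : UIfam τ Z) :
    ∃ m : (unitary A × unitary A → ℝ) → ℝ, IsMean m ∧ ∀ g : unitary A,
      IsTr (EX m (fun p => ra (la (star (p.1 : A)) (Z (p.1 * g * p.2))) (p.1 : A))) := by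
  classical
  let D : Submodule ℂ A := Submodule.span ℂ
      {y : A | ∃ (z : A) (w : unitary A), y = z - (w : A) * z * star (w : A)}
  have hex : ∀ κ : Finset (unitary A) × Finset A × ℕ, ∃ m : (unitary A × unitary A → ℝ) → ℝ, IsMean m ∧
      ∀ g ∈ κ.1, ∀ x ∈ κ.2.1.filter (fun x => x ∈ D),
      ‖EX m (fun p => ra (la (star (p.1 : A)) (Z (p.1 * g * p.2))) (p.1 : A)) x‖
        ≤ 1 / ((κ.2.2 : ℝ) + 1) := fun κ =>
    sm_finite_X hτ C Z hZ hUI κ.1 (κ.2.1.filter (fun x => x ∈ D))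
      (fun x hx => (Finset.mem_filter.1 hx).2) _ (by positivity)
  choose mk hmk hmk2 using hex
  let F : Ultrafilter (Finset (unitary A) × Finset A × ℕ) := Ultrafilter.of Filter.atTop
  have hF : (F : Filter (Finset (unitary A) × Finset A × ℕ)) ≤ Filter.atTop := Ultrafilter.of_le _
  have hm : IsMean (fun f => ulim F (fun k => mk k f)) := ultra_isMean F mk hmk
  refine ⟨fun f => ulim F (fun k => mk k f), hm, ?_⟩
  intro g
  set f : unitary A × unitary A → (A →L[ℂ] ℂ) :=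
    fun p => ra (la (star (p.1 : A)) (Z (p.1 * g * p.2))) (p.1 : A) with hf
  have hfC : ∀ p, ‖f p‖ ≤ C := fun p => R11_norm C Z hZ g p
  have hspec := (EX_spec hm f C hfC).1
  apply IsTr_of_unitary
  intro w y
  have hd : y - (w : A) * y * star (w : A) ∈ D := Submodule.subset_span ⟨y, w, rfl⟩
  set d : A := y - (w : A) * y * star (w : A) with hdd
  have hev : ∀ k0 : ℕ, ∀ᶠ κ : Finset (unitary A) × Finset A × ℕ in
      (F : Filter (Finset (unitary A) × Finset A × ℕ)),
      ‖EX (mk κ) f d‖ ≤ 1 / ((k0 : ℝ) + 1) := by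
    intro k0
    apply hF
    filter_upwards [Filter.eventually_ge_atTop (({g} : Finset (unitary A)), ({d} : Finset A), k0)] with κ hκ
    have hg : g ∈ κ.1 := hκ.1 (Finset.mem_singleton_self g)
    have hdm : d ∈ κ.2.1 := hκ.2.1 (Finset.mem_singleton_self d)
    refine le_trans (hmk2 κ g hg d (Finset.mem_filter.2 ⟨hdm, hd⟩)) ?_
    apply one_div_le_one_div_of_le (by positivity)
    have : (k0 : ℝ) ≤ κ.2.2 := by exact_mod_cast hκ.2.2
    linarith
  have hbd : ∀ x : A, ∀ i, ‖f i x‖ ≤ C * ‖x‖ := fun x i =>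
    le_trans (ContinuousLinearMap.le_opNorm _ _) (mul_le_mul_of_nonneg_right (hfC i) (norm_nonneg _))
  have hre : (EX (fun f => ulim F (fun k => mk k f)) f d).re = 0 := by
    rw [(hspec d).1]
    have hB : Bdd (fun i => (f i d).re) :=
      ⟨C * ‖d‖, fun i => le_trans (Complex.abs_re_le_norm _) (hbd d i)⟩
    have hlim := ultra_tendsto F mk hmk _ hB
    have habs : ∀ k0 : ℕ, |ulim F (fun k => mk k (fun i => (f i d).re))| ≤ 1 / ((k0 : ℝ) + 1) := by
      intro k0
      refine le_of_tendsto hlim.abs ?_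
      filter_upwards [hev k0] with κ hκ
      rw [← ((EX_spec (hmk κ) f C hfC).1 d).1]
      exact le_trans (Complex.abs_re_le_norm _) hκ
    have h0 : |ulim F (fun k => mk k (fun i => (f i d).re))| ≤ 0 :=
      ge_of_tendsto' tendsto_one_div_add_atTop_nhds_zero_nat habs
    exact abs_nonpos_iff.1 h0
  have him : (EX (fun f => ulim F (fun k => mk k f)) f d).im = 0 := by
    rw [(hspec d).2]
    have hB : Bdd (fun i => (f i d).im) :=
      ⟨C * ‖d‖, fun i => le_trans (Complex.abs_im_le_norm _) (hbd d i)⟩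
    have hlim := ultra_tendsto F mk hmk _ hB
    have habs : ∀ k0 : ℕ, |ulim F (fun k => mk k (fun i => (f i d).im))| ≤ 1 / ((k0 : ℝ) + 1) := by
      intro k0
      refine le_of_tendsto hlim.abs ?_
      filter_upwards [hev k0] with κ hκ
      rw [← ((EX_spec (hmk κ) f C hfC).1 d).2]
      exact le_trans (Complex.abs_im_le_norm _) hκ
    have h0 : |ulim F (fun k => mk k (fun i => (f i d).im))| ≤ 0 :=
      ge_of_tendsto' tendsto_one_div_add_atTop_nhds_zero_nat habs
    exact abs_nonpos_iff.1 h0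
  have h0 : EX (fun f => ulim F (fun k => mk k f)) f d = 0 := Complex.ext hre him
  rw [hdd, map_sub, sub_eq_zero] at h0
  exact h0.symm

end H730HC
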