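import Pool.Agent.H730R3.HD.Defs
import Pool.Agent.H730R3.HC.T13

set_option autoImplicit false

namespace H730HC

open Finset
open scoped ComplexConjugate

universe u v

variable {A : Type u} [CStarAlgebra A] {τ : A →ₗ[ℂ] ℂ}



theorem R13_la_la (a b : A) (φ : A →L[ℂ] ℂ) : la (a * b) φ = la a (la b φ) := by
  ext x
  simp [la, mul_assoc]

theorem R13_ra_ra (a b : A) (φ : A →L[ℂ] ℂ) : ra (ra φ a) b = ra φ (a * b) := by
  ext x
  simp [ra, mul_assoc]

theorem R13_la_ra (a b : A) (φ : A →L[ℂ] ℂ) : ra (la a φ) b = la a (ra φ b) := by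
  ext x
  simp [la, ra, mul_assoc]

theorem fX_fX (m i j : ℕ) (hij : i < j) (hj : j ≤ m + 2)
    (f : (ℕ → A) → (A →L[ℂ] ℂ)) (hf : ∀ a b, (∀ k < m, a k = b k) → f a = f b) (a : ℕ → A) :
    fX (m + 1) j (fX m i f) a = fX (m + 1) i (fX m (j - 1) f) a := by
  have hj0 : j ≠ 0 := by omega
  rcases Nat.eq_zero_or_pos i with hi | hi
  · subst hi
    by_cases hA : j ≤ m + 1
    · have e1 : fX (m + 1) j (fX m 0 f) a =
          la ((mu (j - 1) a) 0) (f (shift (mu (j - 1) a))) := by
        simp [fX, hj0, hA]
      rw [e1]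
      by_cases hj1 : j = 1
      · subst hj1
        have e2 : fX (m + 1) 0 (fX m (1 - 1) f) a =
            la (a 0) (la ((shift a) 0) (f (shift (shift a)))) := by
          simp [fX]
        rw [e2]
        have e3 : (1 : ℕ) - 1 = 0 := rfl
        rw [e3, T13_shift_mu0]
        have e4 : (mu 0 a) 0 = a 0 * a 1 := by simp [mu]
        have e5 : (shift a) 0 = a 1 := by simp [shift]
        rw [e4, e5, R13_la_la]
      · have hj2 : 2 ≤ j := by omega
        have h1 : j - 1 ≠ 0 := by omega
        have h2 : j - 1 ≤ m := by omega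
        have e2 : fX (m + 1) 0 (fX m (j - 1) f) a =
            la (a 0) (f (mu (j - 1 - 1) (shift a))) := by
          simp [fX, h1, h2]
        rw [e2, T13_shift_mu j hj2]
        have e3 : j - 1 - 1 = j - 2 := by omega
        have e4 : (mu (j - 1) a) 0 = a 0 := by
          have : 0 < j - 1 := by omega
          simp [mu, this]
        rw [e3, e4]
    · have h2 : ¬ (j - 1 ≤ m) := by omega
      have h1 : j - 1 ≠ 0 := by omega
      have e1 : fX (m + 1) j (fX m 0 f) a = ra (la (a 0) (f (shift a))) (a (m + 1)) := by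
        simp [fX, hj0, hA]
      have e2 : fX (m + 1) 0 (fX m (j - 1) f) a =
          la (a 0) (ra (f (shift a)) ((shift a) m)) := by
        simp only [fX, if_true, if_neg h1, if_neg h2]
      rw [e1, e2]
      have e3 : (shift a) m = a (m + 1) := by simp [shift]
      rw [e3, R13_la_ra]
  · have hi0 : i ≠ 0 := by omega
    have him : i ≤ m + 1 := by omega
    have h1 : j - 1 ≠ 0 := by omega
    by_cases hA : j ≤ m + 1
    · have h2 : j - 1 ≤ m := by omega
      have h3 : i ≤ m := by omega
      have e1 : fX (m + 1) j (fX m i f) a = f (mu (i - 1) (mu (j - 1) a)) := by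
        simp only [fX, if_neg hj0, if_pos hA, if_neg hi0, if_pos h3]
      have e2 : fX (m + 1) i (fX m (j - 1) f) a = f (mu (j - 1 - 1) (mu (i - 1) a)) := by
        simp only [fX, if_neg hi0, if_pos him, if_neg h1, if_pos h2]
      rw [e1, e2, T13_mu_mu i j hi hij]
      have e3 : j - 1 - 1 = j - 2 := by omega
      rw [e3]
    · have h2 : ¬ (j - 1 ≤ m) := by omega
      have e2 : fX (m + 1) i (fX m (j - 1) f) a =
          ra (f (mu (i - 1) a)) ((mu (i - 1) a) m) := by
        simp only [fX, if_neg hi0, if_pos him, if_neg h1, if_neg h2]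
      rw [e2]
      by_cases h3 : i ≤ m
      · have e1 : fX (m + 1) j (fX m i f) a = ra (f (mu (i - 1) a)) (a (m + 1)) := by
          simp only [fX, if_neg hj0, if_neg hA, if_neg hi0, if_pos h3]
        rw [e1]
        have e3 : (mu (i - 1) a) m = a (m + 1) := by
          have h4 : ¬ (m < i - 1) := by omega
          have h5 : m ≠ i - 1 := by omega
          simp only [mu, if_neg h4, if_neg h5]
        rw [e3]
      · have him' : i = m + 1 := by omega
        subst him'
        have e1 : fX (m + 1) j (fX m (m + 1) f) a = ra (ra (f a) (a m)) (a (m + 1)) := by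
          simp only [fX, if_neg hj0, if_neg hA, if_neg hi0, if_neg h3]
        rw [e1]
        have e4 : m + 1 - 1 = m := by omega
        rw [e4]
        have e5 : (mu m a) m = a m * a (m + 1) := by simp [mu]
        have e6 : f (mu m a) = f a := by
          apply hf
          intro k hk
          simp only [mu, if_pos hk]
        rw [e5, e6, R13_ra_ra]

end H730HC
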