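import Pool.Agent.H730R3.HD.Defs
import Pool.Agent.H730R3.HC.Final

set_option autoImplicit false

namespace H730HC

open Finset
open scoped ComplexConjugate

universe u v

variable {A : Type u} [CStarAlgebra A] {τ : A →ₗ[ℂ] ℂ}



theorem R14_la_apply (a : A) (φ : A →L[ℂ] ℂ) (x : A) : la a φ x = φ (x * a) := rfl

theorem R14_ra_apply (a : A) (φ : A →L[ℂ] ℂ) (x : A) : ra φ a x = φ (a * x) := rfl

theorem R14_la_norm (a : A) (φ : A →L[ℂ] ℂ) : ‖la a φ‖ ≤ ‖a‖ * ‖φ‖ := by
  refine ContinuousLinearMap.opNorm_le_bound _ (mul_nonneg (norm_nonneg _) (norm_nonneg _)) fun x => ?_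
  rw [R14_la_apply]
  calc ‖φ (x * a)‖ ≤ ‖φ‖ * ‖x * a‖ := φ.le_opNorm _
    _ ≤ ‖φ‖ * (‖x‖ * ‖a‖) := mul_le_mul_of_nonneg_left (norm_mul_le _ _) (norm_nonneg _)
    _ = ‖a‖ * ‖φ‖ * ‖x‖ := by ring

theorem R14_ra_norm (a : A) (φ : A →L[ℂ] ℂ) : ‖ra φ a‖ ≤ ‖φ‖ * ‖a‖ := by
  refine ContinuousLinearMap.opNorm_le_bound _ (mul_nonneg (norm_nonneg _) (norm_nonneg _)) fun x => ?_
  rw [R14_ra_apply]
  calc ‖φ (a * x)‖ ≤ ‖φ‖ * ‖a * x‖ := φ.le_opNorm _
    _ ≤ ‖φ‖ * (‖a‖ * ‖x‖) := mul_le_mul_of_nonneg_left (norm_mul_le _ _) (norm_nonneg _)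
    _ = ‖φ‖ * ‖a‖ * ‖x‖ := by ring

theorem R14_la_add (a b : A) (φ : A →L[ℂ] ℂ) : la (a + b) φ = la a φ + la b φ := by
  ext x
  rw [ContinuousLinearMap.add_apply, R14_la_apply, R14_la_apply, R14_la_apply, mul_add, map_add]

theorem R14_la_smul (c : ℂ) (a : A) (φ : A →L[ℂ] ℂ) : la (c • a) φ = c • la a φ := by
  ext x
  rw [ContinuousLinearMap.smul_apply, R14_la_apply, R14_la_apply, mul_smul_comm, map_smul]

theorem R14_la_add' (a : A) (φ ψ : A →L[ℂ] ℂ) : la a (φ + ψ) = la a φ + la a ψ := by
  ext x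
  rw [ContinuousLinearMap.add_apply, R14_la_apply, R14_la_apply, R14_la_apply,
    ContinuousLinearMap.add_apply]

theorem R14_la_smul' (c : ℂ) (a : A) (φ : A →L[ℂ] ℂ) : la a (c • φ) = c • la a φ := by
  ext x
  rw [ContinuousLinearMap.smul_apply, R14_la_apply, R14_la_apply, ContinuousLinearMap.smul_apply]

theorem R14_ra_add (a b : A) (φ : A →L[ℂ] ℂ) : ra φ (a + b) = ra φ a + ra φ b := by
  ext x
  rw [ContinuousLinearMap.add_apply, R14_ra_apply, R14_ra_apply, R14_ra_apply, add_mul, map_add]

theorem R14_ra_smul (c : ℂ) (a : A) (φ : A →L[ℂ] ℂ) : ra φ (c • a) = c • ra φ a := by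
  ext x
  rw [ContinuousLinearMap.smul_apply, R14_ra_apply, R14_ra_apply, smul_mul_assoc, map_smul]

theorem R14_ra_add' (a : A) (φ ψ : A →L[ℂ] ℂ) : ra (φ + ψ) a = ra φ a + ra ψ a := by
  ext x
  rw [ContinuousLinearMap.add_apply, R14_ra_apply, R14_ra_apply, R14_ra_apply,
    ContinuousLinearMap.add_apply]

theorem R14_ra_smul' (c : ℂ) (a : A) (φ : A →L[ℂ] ℂ) : ra (c • φ) a = c • ra φ a := by
  ext x
  rw [ContinuousLinearMap.smul_apply, R14_ra_apply, R14_ra_apply, ContinuousLinearMap.smul_apply]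

theorem R14_face0 {m : ℕ} {f : (ℕ → A) → (A →L[ℂ] ℂ)} (hf : IsB m f) :
    IsB (m + 1) (fun a => la (a 0) (f (shift a))) := by
  obtain ⟨C, hC, hf4⟩ := hf.bd
  refine ⟨?_, ?_, ?_, C, hC, ?_⟩
  · intro a b h
    show la (a 0) (f (shift a)) = la (b 0) (f (shift b))
    rw [h 0 (Nat.succ_pos _), hf.dep (shift a) (shift b) fun k hk => h (k + 1) (by omega)]
  · intro a k x y hk
    show la ((Function.update a k (x + y)) 0) (f (shift (Function.update a k (x + y)))) =
      la ((Function.update a k x) 0) (f (shift (Function.update a k x))) +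
      la ((Function.update a k y) 0) (f (shift (Function.update a k y)))
    rcases k with _ | k
    · simp only [T14_shift_zero, Function.update_self, R14_la_add]
    · simp only [T14_shift_succ]
      rw [hf.add (shift a) k x y (by omega)]
      simp [Function.update_apply, R14_la_add']
  · intro a k c x hk
    show la ((Function.update a k (c • x)) 0) (f (shift (Function.update a k (c • x)))) =
      c • (la ((Function.update a k x) 0) (f (shift (Function.update a k x))))
    rcases k with _ | k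
    · simp only [T14_shift_zero, Function.update_self, R14_la_smul]
    · simp only [T14_shift_succ]
      rw [hf.smul (shift a) k c x (by omega)]
      simp [Function.update_apply, R14_la_smul']
  · intro a
    rw [Finset.prod_range_succ']
    calc ‖la (a 0) (f (shift a))‖ ≤ ‖a 0‖ * ‖f (shift a)‖ := R14_la_norm _ _
      _ ≤ ‖a 0‖ * (C * ∏ k ∈ range m, ‖shift a k‖) :=
          mul_le_mul_of_nonneg_left (hf4 _) (norm_nonneg _)
      _ = C * ((∏ k ∈ range m, ‖a (k + 1)‖) * ‖a 0‖) := by
          simp only [shift]; ring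

theorem R14_faceM {m j : ℕ} (hj : j < m) {f : (ℕ → A) → (A →L[ℂ] ℂ)} (hf : IsB m f) :
    IsB (m + 1) (fun a => f (mu j a)) := by
  obtain ⟨C, hC, hf4⟩ := hf.bd
  refine ⟨?_, ?_, ?_, C, hC, ?_⟩
  · intro a b h
    refine hf.dep _ _ fun k hk => ?_
    simp only [mu]
    rw [h k (by omega), h j (by omega), h (j + 1) (by omega), h (k + 1) (by omega)]
  · intro a k x y hk
    show f (mu j (Function.update a k (x + y))) = f (mu j (Function.update a k x)) +
      f (mu j (Function.update a k y))
    rcases lt_trichotomy k j with h | h | h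
    · simp only [T14_mu_lt j k a _ h]
      exact hf.add _ _ _ _ (by omega)
    · subst h
      simp only [T14_mu_eq, add_mul]
      exact hf.add _ _ _ _ hj
    · obtain ⟨k, rfl⟩ : ∃ l, k = l + 1 := ⟨k - 1, by omega⟩
      rcases Nat.eq_or_lt_of_le (Nat.lt_succ_iff.1 h) with h' | h'
      · subst h'
        simp only [T14_mu_eq', mul_add]
        exact hf.add _ _ _ _ hj
      · simp only [T14_mu_gt j k a _ h']
        exact hf.add _ _ _ _ (by omega)
  · intro a k c x hk
    show f (mu j (Function.update a k (c • x))) = c • f (mu j (Function.update a k x))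
    rcases lt_trichotomy k j with h | h | h
    · simp only [T14_mu_lt j k a _ h]
      exact hf.smul _ _ _ _ (by omega)
    · subst h
      simp only [T14_mu_eq, smul_mul_assoc]
      exact hf.smul _ _ _ _ hj
    · obtain ⟨k, rfl⟩ : ∃ l, k = l + 1 := ⟨k - 1, by omega⟩
      rcases Nat.eq_or_lt_of_le (Nat.lt_succ_iff.1 h) with h' | h'
      · subst h'
        simp only [T14_mu_eq', mul_smul_comm]
        exact hf.smul _ _ _ _ hj
      · simp only [T14_mu_gt j k a _ h']
        exact hf.smul _ _ _ _ (by omega)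
  · intro a
    exact (hf4 _).trans (mul_le_mul_of_nonneg_left (T14_mu_prod j m hj a) hC)

theorem R14_faceL {m : ℕ} {f : (ℕ → A) → (A →L[ℂ] ℂ)} (hf : IsB m f) :
    IsB (m + 1) (fun a => ra (f a) (a m)) := by
  obtain ⟨C, hC, hf4⟩ := hf.bd
  have hupd : ∀ (a : ℕ → A) (x : A), f (Function.update a m x) = f a := fun a x =>
    hf.dep _ _ fun k hk => by rw [Function.update_of_ne (by omega)]
  refine ⟨?_, ?_, ?_, C, hC, ?_⟩
  · intro a b h
    show ra (f a) (a m) = ra (f b) (b m)
    rw [h m (Nat.lt_succ_self _), hf.dep a b fun k hk => h k (by omega)]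
  · intro a k x y hk
    show ra (f (Function.update a k (x + y))) ((Function.update a k (x + y)) m) =
      ra (f (Function.update a k x)) ((Function.update a k x) m) +
      ra (f (Function.update a k y)) ((Function.update a k y) m)
    rcases Nat.eq_or_lt_of_le (Nat.lt_succ_iff.1 hk) with h | h
    · subst h
      simp only [hupd, Function.update_self, R14_ra_add]
    · rw [hf.add a k x y h]
      simp [Function.update_of_ne (show m ≠ k by omega), R14_ra_add']
  · intro a k c x hk
    show ra (f (Function.update a k (c • x))) ((Function.update a k (c • x)) m) =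
      c • (ra (f (Function.update a k x)) ((Function.update a k x) m))
    rcases Nat.eq_or_lt_of_le (Nat.lt_succ_iff.1 hk) with h | h
    · subst h
      simp only [hupd, Function.update_self, R14_ra_smul]
    · rw [hf.smul a k c x h]
      simp [Function.update_of_ne (show m ≠ k by omega), R14_ra_smul']
  · intro a
    rw [Finset.prod_range_succ]
    calc ‖ra (f a) (a m)‖ ≤ ‖f a‖ * ‖a m‖ := R14_ra_norm _ _
      _ ≤ (C * ∏ k ∈ range m, ‖a k‖) * ‖a m‖ := mul_le_mul_of_nonneg_right (hf4 _) (norm_nonneg _)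
      _ = _ := by ring

theorem IsB_fX {m i : ℕ} (hi : i ≤ m + 1) {f : (ℕ → A) → (A →L[ℂ] ℂ)} (hf : IsB m f) :
    IsB (m + 1) (fX m i f) := by
  rcases Nat.eq_zero_or_pos i with h0 | h0
  · have : fX m i f = fun a => la (a 0) (f (shift a)) := by
      funext a; simp [fX, h0]
    rw [this]
    exact R14_face0 hf
  · rcases Nat.lt_or_ge m i with h1 | h1
    · have : fX m i f = fun a => ra (f a) (a m) := by
        funext a
        simp only [fX]
        rw [if_neg (by omega), if_neg (by omega)]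
      rw [this]
      exact R14_faceL hf
    · have : fX m i f = fun a => f (mu (i - 1) a) := by
        funext a
        simp only [fX]
        rw [if_neg (by omega), if_pos h1]
      rw [this]
      exact R14_faceM (by omega) hf

theorem IsB_dX {m : ℕ} {f : (ℕ → A) → (A →L[ℂ] ℂ)} (hf : IsB m f) : IsB (m + 1) (dX m f) := by
  have h := IsB_sum (m := m + 1) (range (m + 2)) (f := fun i a => ((-1 : ℂ) ^ i) • fX m i f a)
    (fun i hi => IsB_smul _ (IsB_fX (by rw [Finset.mem_range] at hi; omega) hf))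
  exact h

end H730HC
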