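import Pool.Agent.H730R3.HD.Defs
import Pool.Agent.H730R3.HD.R13
import Pool.Agent.H730R3.HC.Final

set_option autoImplicit false

namespace H730HC

open Finset
open scoped ComplexConjugate

universe u v

variable {A : Type u} [CStarAlgebra A] {τ : A →ₗ[ℂ] ℂ}



theorem R40_pair {R : Type u} [AddCommGroup R] [Module ℂ R] (N : ℕ) (G : ℕ → ℕ → R)
    (hG : ∀ i j, i < j → j ≤ N → G j i = G i (j - 1)) :
    ∑ j ∈ range (N + 1), ∑ i ∈ range N, ((-1 : ℂ) ^ j) • ((-1 : ℂ) ^ i) • G j i = 0 := by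
  rw [← Finset.sum_product']
  refine Finset.sum_involution
    (fun p _ => if p.2 < p.1 then (p.2, p.1 - 1) else (p.2 + 1, p.1)) ?_ ?_ ?_ ?_
  · rintro ⟨j, i⟩ hp
    rw [mem_product, mem_range, mem_range] at hp
    simp only at hp ⊢
    by_cases h : i < j
    · rw [if_pos h]
      obtain ⟨j', rfl⟩ : ∃ j', j = j' + 1 := ⟨j - 1, by omega⟩
      simp only [Nat.add_sub_cancel]
      rw [hG i (j' + 1) h (by omega), Nat.add_sub_cancel, smul_smul, smul_smul, ← add_smul]
      rw [show (-1 : ℂ) ^ (j' + 1) * (-1) ^ i + (-1) ^ i * (-1) ^ j' = 0 by ring, zero_smul]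
    · rw [if_neg h]
      simp only
      rw [hG j (i + 1) (by omega) (by omega), Nat.add_sub_cancel, smul_smul, smul_smul, ← add_smul]
      rw [show (-1 : ℂ) ^ j * (-1) ^ i + (-1) ^ (i + 1) * (-1) ^ j = 0 by ring, zero_smul]
  · rintro ⟨j, i⟩ hp -
    simp only
    split_ifs with h
    · intro he
      rw [Prod.mk.injEq] at he
      omega
    · intro he
      rw [Prod.mk.injEq] at he
      omega
  · rintro ⟨j, i⟩ hp
    rw [mem_product, mem_range, mem_range] at hp
    simp only at hp ⊢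
    split_ifs with h
    · rw [mem_product, mem_range, mem_range]
      simp only
      omega
    · rw [mem_product, mem_range, mem_range]
      simp only
      omega
  · rintro ⟨j, i⟩ hp
    simp only
    by_cases h : i < j
    · rw [if_pos h]
      simp only
      rw [if_neg (by omega)]
      refine Prod.ext ?_ rfl
      simp only
      omega
    · rw [if_neg h]
      simp only
      rw [if_pos (by omega)]
      exact Prod.ext rfl rfl

theorem R40_la (a : A) (s : Finset ℕ) (c : ℕ → ℂ) (g : ℕ → (A →L[ℂ] ℂ)) :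
    la a (∑ i ∈ s, c i • g i) = ∑ i ∈ s, c i • la a (g i) := by
  ext x
  simp only [la, ContinuousLinearMap.comp_apply, ContinuousLinearMap.sum_apply,
    ContinuousLinearMap.smul_apply]

theorem R40_ra (a : A) (s : Finset ℕ) (c : ℕ → ℂ) (g : ℕ → (A →L[ℂ] ℂ)) :
    ra (∑ i ∈ s, c i • g i) a = ∑ i ∈ s, c i • ra (g i) a := by
  ext x
  simp only [ra, ContinuousLinearMap.comp_apply, ContinuousLinearMap.sum_apply,
    ContinuousLinearMap.smul_apply]

theorem dX_dX (m : ℕ) (f : (ℕ → A) → (A →L[ℂ] ℂ)) (hf : ∀ a b, (∀ k < m, a k = b k) → f a = f b)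
    (a : ℕ → A) : dX (m + 1) (dX m f) a = 0 := by
  have hlin : ∀ j, fX (m + 1) j (dX m f) a =
      ∑ i ∈ range (m + 2), ((-1 : ℂ) ^ i) • fX (m + 1) j (fX m i f) a := by
    intro j
    unfold dX
    by_cases h0 : j = 0
    · have e : ∀ g : (ℕ → A) → (A →L[ℂ] ℂ), fX (m + 1) j g a = la (a 0) (g (shift a)) := fun g => by
        unfold fX; rw [if_pos h0]
      simp only [e]
      rw [R40_la]
    · by_cases h1 : j ≤ m + 1
      · have e : ∀ g : (ℕ → A) → (A →L[ℂ] ℂ), fX (m + 1) j g a = g (mu (j - 1) a) := fun g => by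
          unfold fX; rw [if_neg h0, if_pos h1]
        simp only [e]
      · have e : ∀ g : (ℕ → A) → (A →L[ℂ] ℂ), fX (m + 1) j g a = ra (g a) (a (m + 1)) :=
          fun g => by
          unfold fX; rw [if_neg h0, if_neg h1]
        simp only [e]
        rw [R40_ra]
  have h2 : dX (m + 1) (dX m f) a = ∑ j ∈ range (m + 1 + 2), ∑ i ∈ range (m + 2),
      ((-1 : ℂ) ^ j) • ((-1 : ℂ) ^ i) • fX (m + 1) j (fX m i f) a := by
    conv_lhs => unfold dX
    refine Finset.sum_congr rfl (fun j _ => ?_)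
    rw [← Finset.smul_sum, ← hlin j]
    rfl
  rw [h2]
  exact R40_pair (m + 2) (fun j i => fX (m + 1) j (fX m i f) a)
    (fun i j hij hj => fX_fX m i j hij hj f hf a)

end H730HC
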