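import Pool.Agent.H730R3.HD.Defs
import Pool.Agent.H730R3.HD.R04
import Pool.Agent.H730R3.HD.R12
import Pool.Agent.H730R3.HD.R14
import Pool.Agent.H730R3.HC.Final

set_option autoImplicit false

namespace H730HC

open Finset
open scoped ComplexConjugate

universe u v

variable {A : Type u} [CStarAlgebra A] {τ : A →ₗ[ℂ] ℂ}



/-- `IsB` with an explicit constant -/
def R16_U {B : Type v} [NormedAddCommGroup B] [NormedSpace ℂ B] (C : ℝ) (m : ℕ) (f : (ℕ → A) → B) : Prop :=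
  IsB m f ∧ ∀ a : ℕ → A, ‖f a‖ ≤ C * ∏ k ∈ range m, ‖a k‖

theorem R16_upd (l r : ℕ → A) (a : ℕ → A) (j : ℕ) (x : A) :
    (fun k => l k * (Function.update a j x) k * r k) =
      Function.update (fun k => l k * a k * r k) j (l j * x * r j) := by
  funext k
  by_cases h : k = j
  · subst h
    simp
  · simp [Function.update_of_ne h]

theorem R16_la_add (a : A) (φ ψ : A →L[ℂ] ℂ) : la a (φ + ψ) = la a φ + la a ψ := by
  ext x; simp [la]

theorem R16_la_smul (a : A) (c : ℂ) (φ : A →L[ℂ] ℂ) : la a (c • φ) = c • la a φ := by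
  ext x; simp [la]

theorem R16_ra_add (a : A) (φ ψ : A →L[ℂ] ℂ) : ra (φ + ψ) a = ra φ a + ra ψ a := by
  ext x; simp [ra]

theorem R16_ra_smul (a : A) (c : ℂ) (φ : A →L[ℂ] ℂ) : ra (c • φ) a = c • ra φ a := by
  ext x; simp [ra]

theorem R16_la_norm (a : A) (φ : A →L[ℂ] ℂ) : ‖la a φ‖ ≤ ‖a‖ * ‖φ‖ := by
  refine ContinuousLinearMap.opNorm_le_bound _ (by positivity) (fun x => ?_)
  have h0 : la a φ x = φ (x * a) := by simp [la]
  rw [h0]
  calc ‖φ (x * a)‖ ≤ ‖φ‖ * ‖x * a‖ := φ.le_opNorm _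
    _ ≤ ‖φ‖ * (‖x‖ * ‖a‖) := mul_le_mul_of_nonneg_left (norm_mul_le _ _) (norm_nonneg _)
    _ = ‖a‖ * ‖φ‖ * ‖x‖ := by ring

theorem R16_ra_norm (a : A) (φ : A →L[ℂ] ℂ) : ‖ra φ a‖ ≤ ‖φ‖ * ‖a‖ := by
  refine ContinuousLinearMap.opNorm_le_bound _ (by positivity) (fun x => ?_)
  have h0 : ra φ a x = φ (a * x) := by simp [ra]
  rw [h0]
  calc ‖φ (a * x)‖ ≤ ‖φ‖ * ‖a * x‖ := φ.le_opNorm _
    _ ≤ ‖φ‖ * (‖a‖ * ‖x‖) := mul_le_mul_of_nonneg_left (norm_mul_le _ _) (norm_nonneg _)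
    _ = ‖φ‖ * ‖a‖ * ‖x‖ := by ring

theorem R16_la_one (φ : A →L[ℂ] ℂ) : la 1 φ = φ := by
  ext x; simp [la]

theorem R16_two {B : Type v} [NormedAddCommGroup B] [NormedSpace ℂ B] {C : ℝ} (hC : 0 ≤ C) {N : ℕ}
    {F : (ℕ → A) → B} (hF : R16_U C N F)
    (l r : ℕ → A) (hl : ∀ k, ‖l k‖ ≤ 1) (hr : ∀ k, ‖r k‖ ≤ 1) :
    R16_U C N (fun a => F (fun k => l k * a k * r k)) := by
  have hb : ∀ a : ℕ → A, ‖F (fun k => l k * a k * r k)‖ ≤ C * ∏ k ∈ range N, ‖a k‖ := by
    intro a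
    refine (hF.2 _).trans (mul_le_mul_of_nonneg_left ?_ hC)
    refine Finset.prod_le_prod (fun k _ => norm_nonneg _) (fun k _ => ?_)
    calc ‖l k * a k * r k‖ ≤ ‖l k * a k‖ * ‖r k‖ := norm_mul_le _ _
      _ ≤ (‖l k‖ * ‖a k‖) * ‖r k‖ := mul_le_mul_of_nonneg_right (norm_mul_le _ _) (norm_nonneg _)
      _ ≤ (1 * ‖a k‖) * 1 := by
          refine mul_le_mul (mul_le_mul_of_nonneg_right (hl k) (norm_nonneg _)) (hr k)
            (norm_nonneg _) (by positivity)
      _ = ‖a k‖ := by ring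
  refine ⟨⟨?_, ?_, ?_, ⟨C, hC, hb⟩⟩, hb⟩
  · intro a b hab
    exact hF.1.dep _ _ (fun k hk => by simp only [hab k hk])
  · intro a k x y hk
    simp only [R16_upd]
    rw [← hF.1.add _ k _ _ hk]
    congr 2
    rw [mul_add, add_mul]
  · intro a k c x hk
    simp only [R16_upd]
    rw [← hF.1.smul _ k _ _ hk]
    congr 2
    rw [mul_smul_comm, smul_mul_assoc]

theorem R16_lr {C : ℝ} (hC : 0 ≤ C) {N : ℕ} {f : (ℕ → A) → (A →L[ℂ] ℂ)} (hf : R16_U C N f) (x y : A)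
    (hx : ‖x‖ ≤ 1) (hy : ‖y‖ ≤ 1) : R16_U C N (fun a => ra (la x (f a)) y) := by
  have hb : ∀ a : ℕ → A, ‖ra (la x (f a)) y‖ ≤ C * ∏ k ∈ range N, ‖a k‖ := by
    intro a
    calc ‖ra (la x (f a)) y‖ ≤ ‖la x (f a)‖ * ‖y‖ := R16_ra_norm _ _
      _ ≤ (‖x‖ * ‖f a‖) * ‖y‖ := mul_le_mul_of_nonneg_right (R16_la_norm _ _) (norm_nonneg _)
      _ ≤ (1 * ‖f a‖) * 1 := by
          refine mul_le_mul (mul_le_mul_of_nonneg_right hx (norm_nonneg _)) hy
            (norm_nonneg _) (by positivity)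
      _ = ‖f a‖ := by ring
      _ ≤ _ := hf.2 a
  refine ⟨⟨?_, ?_, ?_, ⟨C, hC, hb⟩⟩, hb⟩
  · intro a b hab
    show ra (la x (f a)) y = ra (la x (f b)) y
    rw [hf.1.dep a b hab]
  · intro a k u v hk
    show ra (la x (f _)) y = ra (la x (f _)) y + ra (la x (f _)) y
    rw [hf.1.add a k u v hk, R16_la_add, R16_ra_add]
  · intro a k c u hk
    show ra (la x (f _)) y = c • (ra (la x (f _)) y)
    rw [hf.1.smul a k c u hk, R16_la_smul, R16_ra_smul]

theorem R16_prod (a : ℕ → A) (x : A) : ∀ N j : ℕ, j ≤ N →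
    ∏ k ∈ range (N + 1), ‖ins j x a k‖ = ‖x‖ * ∏ k ∈ range N, ‖a k‖ := by
  intro N
  induction N with
  | zero =>
    intro j hj
    have h : j = 0 := by omega
    subst h
    simp [ins]
  | succ N ih =>
    intro j hj
    by_cases h : j = N + 1
    · subst h
      rw [prod_range_succ, mul_comm]
      congr 1
      · simp [ins]
      · refine prod_congr rfl fun k hk => ?_
        have hk' : k < N + 1 := mem_range.1 hk
        simp [ins, hk']
    · rw [prod_range_succ, ih j (by omega), prod_range_succ (fun k => ‖a k‖), mul_assoc]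
      congr 2
      unfold ins
      rw [if_neg (by omega), if_neg (by omega)]
      simp

theorem R16_ins {C : ℝ} (hC : 0 ≤ C) {N j : ℕ} (hj : j ≤ N) {f : (ℕ → A) → (A →L[ℂ] ℂ)}
    (hf : R16_U C (N + 1) f) (x : A) (hx : ‖x‖ ≤ 1) : R16_U C N (fun a => f (ins j x a)) := by
  refine ⟨IsB_ins hj hf.1 x, fun a => ?_⟩
  refine (hf.2 _).trans (mul_le_mul_of_nonneg_left ?_ hC)
  rw [R16_prod a x N j hj]
  calc ‖x‖ * ∏ k ∈ range N, ‖a k‖ ≤ 1 * ∏ k ∈ range N, ‖a k‖ :=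
        mul_le_mul_of_nonneg_right hx (Finset.prod_nonneg fun k _ => norm_nonneg _)
    _ = _ := one_mul _

theorem R16_Pr {C : ℝ} (hC : 0 ≤ C) {n : ℕ} {F : (ℕ → A) → (A →L[ℂ] ℂ)} (hF : R16_U C (n + 1) F)
    (s t : ℕ → A) (hs : ∀ k, ‖s k‖ ≤ 1) (ht : ∀ k, ‖t k‖ ≤ 1) (h1 : ‖(1 : A)‖ ≤ 1) :
    R16_U ((n + 1) * C) n (PrX (n + 1) s t F) := by
  have hterm : ∀ m ∈ range (n + 1), R16_U C n (fun a => ((-1 : ℂ) ^ m) •
      ra (F (fun k => if k < m then a k else if k = m then s m else t (k - 1) * a (k - 1) * s k))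
      (t ((n + 1) - 1))) := by
    intro m hm
    have hm' : m ≤ n := by
      have := mem_range.1 hm
      omega
    have e1 := R16_two hC hF (fun k => if k ≤ m then 1 else t (k - 1))
      (fun k => if k ≤ m then 1 else s k)
      (fun k => by split_ifs; exacts [h1, ht _])
      (fun k => by split_ifs; exacts [h1, hs _])
    have e2 := R16_ins hC hm' e1 (s m) (hs m)
    have e3 := R16_lr hC e2 1 (t n) h1 (ht n)
    have e4 : (fun a : ℕ → A => ra (la (1 : A) (F (fun k => (if k ≤ m then 1 else t (k - 1)) *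
        ins m (s m) a k * (if k ≤ m then 1 else s k)))) (t n)) = (fun a =>
      (ra (F (fun k => if k < m then a k else if k = m then s m else t (k - 1) * a (k - 1) * s k))
      (t ((n + 1) - 1)))) := by
      funext a
      rw [R16_la_one, Nat.add_sub_cancel]
      congr 2
      funext k
      unfold ins
      by_cases h2 : k < m
      · rw [if_pos h2.le, if_pos h2, if_pos h2.le, if_pos h2, one_mul, mul_one]
      · by_cases h3 : k = m
        · rw [if_pos h3.le, if_neg h2, if_pos h3, if_pos h3.le, if_neg h2, if_pos h3, one_mul,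
            mul_one]
        · have h4 : ¬ k ≤ m := by omega
          rw [if_neg h4, if_neg h2, if_neg h3, if_neg h4, if_neg h2, if_neg h3]
    have e5 : R16_U C n (fun a =>
      (ra (F (fun k => if k < m then a k else if k = m then s m else t (k - 1) * a (k - 1) * s k))
      (t ((n + 1) - 1)))) := by
      rw [← e4]
      exact e3
    refine ⟨IsB_smul _ e5.1, fun a => ?_⟩
    rw [norm_smul, norm_pow, norm_neg, norm_one, one_pow, one_mul]
    exact e5.2 a
  refine ⟨IsB_sum (range (n + 1)) (fun m hm => (hterm m hm).1), fun a => ?_⟩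
  unfold PrX
  calc _ ≤ ∑ m ∈ range (n + 1), C * ∏ k ∈ range n, ‖a k‖ :=
        norm_sum_le_of_le _ (fun m hm => (hterm m hm).2 a)
    _ = _ := by
        rw [sum_const, card_range, nsmul_eq_mul]
        push_cast
        ring

/-- averages -/
theorem R16_avg {I : Type v} {m : (I → ℝ) → ℝ} (hm : IsMean m) {C : ℝ}
    (hC : 0 ≤ C) {N : ℕ} (f : I → (ℕ → A) → (A →L[ℂ] ℂ)) (hf : ∀ i, R16_U C N (f i)) :
    IsB N (fun X => EX m (fun p => f p X)) := by
  have hbd : ∀ a : ℕ → A, ∃ D : ℝ, ∀ i, ‖f i a‖ ≤ D := fun a => ⟨_, fun i => (hf i).2 a⟩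
  refine ⟨?_, ?_, ?_, C, hC, ?_⟩
  · intro a b hab
    have : (fun p => f p a) = fun p => f p b := funext fun p => (hf p).1.dep a b hab
    show EX m (fun p => f p a) = EX m (fun p => f p b)
    rw [this]
  · intro a k x y hk
    show EX m (fun p => f p _) = EX m (fun p => f p _) + EX m (fun p => f p _)
    rw [← EX_add hm _ _ (hbd _) (hbd _)]
    congr 1
    exact funext fun p => (hf p).1.add a k x y hk
  · intro a k c x hk
    show EX m (fun p => f p _) = c • EX m (fun p => f p _)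
    rw [← EX_smul hm c _ (hbd _)]
    congr 1
    exact funext fun p => (hf p).1.smul a k c x hk
  · intro a
    exact (EX_spec hm (fun p => f p a) _ (fun i => (hf i).2 a)).2

theorem R16_alt {x y : A} (hx : ‖x‖ ≤ 1) (hy : ‖y‖ ≤ 1) (k : ℕ) : ‖alt x y k‖ ≤ 1 := by
  unfold alt
  split_ifs
  exacts [hx, hy]

theorem R16_om {s : ℕ → A} (hs : ∀ k, ‖s k‖ ≤ 1) (i k : ℕ) : ‖om i s k‖ ≤ 1 := by
  unfold om
  split_ifs <;> exact hs _

theorem R16_face {I : Type v} {m : (I → ℝ) → ℝ} (hm : IsMean m)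
    (f : I → (ℕ → A) → (A →L[ℂ] ℂ)) (hf : ∀ a : ℕ → A, ∃ D : ℝ, ∀ i, ‖f i a‖ ≤ D) (n i : ℕ)
    (X : ℕ → A) :
    EX m (fun p => fX n i (f p) X) = fX n i (fun Y => EX m (fun p => f p Y)) X := by
  unfold fX
  by_cases h0 : i = 0
  · simp only [if_pos h0]
    exact EX_la hm _ _ (hf _)
  · by_cases h1 : i ≤ n
    · simp only [if_neg h0, if_pos h1]
    · simp only [if_neg h0, if_neg h1]
      exact EX_ra hm _ _ (hf _)

theorem R16_face_bd (f : (ℕ → A) → (A →L[ℂ] ℂ)) (n i : ℕ) (X : ℕ → A) :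
    ‖fX n i f X‖ ≤ ‖X 0‖ * ‖f (shift X)‖ + ‖f (mu (i - 1) X)‖ + ‖f X‖ * ‖X n‖ := by
  unfold fX
  have a1 : 0 ≤ ‖X 0‖ * ‖f (shift X)‖ := by positivity
  have a2 : 0 ≤ ‖f (mu (i - 1) X)‖ := norm_nonneg _
  have a3 : 0 ≤ ‖f X‖ * ‖X n‖ := by positivity
  split_ifs
  · have := R16_la_norm (X 0) (f (shift X))
    linarith
  · linarith
  · have := R16_ra_norm (X n) (f X)
    linarith

theorem R16_one : ‖(1 : A)‖ ≤ 1 := by
  rcases subsingleton_or_nontrivial A with h | h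
  · have : (1 : A) = 0 := Subsingleton.elim _ _
    rw [this, norm_zero]
    exact zero_le_one
  · exact (CStarRing.norm_one (E := A)).le

theorem R16_uni (u : unitary A) : ‖(u : A)‖ ≤ 1 := by
  rcases subsingleton_or_nontrivial A with h | h
  · have : (u : A) = 0 := Subsingleton.elim _ _
    rw [this, norm_zero]
    exact zero_le_one
  · exact (CStarRing.norm_coe_unitary u).le

theorem avg_prism_X (n : ℕ) (F : (ℕ → A) → (A →L[ℂ] ℂ)) (hF : IsB (n + 1) F)
    (hc : ∀ a, dX (n + 1) F a = 0) (m : (unitary A × unitary A → ℝ) → ℝ) (hm : IsMean m) :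
    IsB (n + 1) (fun X => EX m (fun p => cjX (n + 1) (alt (star (p.1 : A)) (p.2 : A))
      (alt (p.1 : A) (star (p.2 : A))) F X)) ∧
    (∀ i, IsB n (fun X => EX m (fun p => PrX (n + 1) (om i (alt (star (p.1 : A)) (p.2 : A)))
      (om i (alt (p.1 : A) (star (p.2 : A)))) F X))) ∧
    ∀ X, F X = EX m (fun p => cjX (n + 1) (alt (star (p.1 : A)) (p.2 : A))
      (alt (p.1 : A) (star (p.2 : A))) F X) -
      ∑ i ∈ range (n + 2), ((-1 : ℂ) ^ i) • fX n i (fun Y => EX m (fun p =>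
        PrX (n + 1) (om i (alt (star (p.1 : A)) (p.2 : A)))
        (om i (alt (p.1 : A) (star (p.2 : A)))) F Y)) X := by
  have h1 : ‖(1 : A)‖ ≤ 1 := R16_one
  have hu : ∀ u : unitary A, ‖(u : A)‖ ≤ 1 := fun u => R16_uni u
  have hu' : ∀ u : unitary A, ‖star (u : A)‖ ≤ 1 := fun u => by rw [norm_star]; exact hu u
  obtain ⟨C, hC, hb⟩ := hF.bd
  have hU : R16_U C (n + 1) F := ⟨hF, hb⟩
  obtain ⟨s, hs⟩ : ∃ s : unitary A × unitary A → ℕ → A,
    s = fun p => alt (star (p.1 : A)) (p.2 : A) := ⟨_, rfl⟩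
  obtain ⟨t, ht⟩ : ∃ t : unitary A × unitary A → ℕ → A,
    t = fun p => alt (p.1 : A) (star (p.2 : A)) := ⟨_, rfl⟩
  have hs1 : ∀ p k, ‖s p k‖ ≤ 1 := fun p k => by rw [hs]; exact R16_alt (hu' _) (hu _) k
  have ht1 : ∀ p k, ‖t p k‖ ≤ 1 := fun p k => by rw [ht]; exact R16_alt (hu _) (hu' _) k
  have hst : ∀ p k, s p k * t p k = 1 := by
    intro p k
    rw [hs, ht]
    simp only [alt]
    split_ifs
    · exact Unitary.coe_star_mul_self p.1
    · exact Unitary.coe_mul_star_self p.2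
  have hcj : ∀ p, R16_U C (n + 1) (cjX (n + 1) (s p) (t p) F) := fun p =>
    R16_lr hC (R16_two hC hU (t p) (fun k => s p (k + 1)) (ht1 p) (fun k => hs1 p _)) _ _
      (hs1 p 0) (ht1 p (n + 1))
  have hPr : ∀ i p, R16_U ((n + 1) * C) n (PrX (n + 1) (om i (s p)) (om i (t p)) F) := fun i p =>
    R16_Pr hC hU _ _ (fun k => R16_om (hs1 p) i k) (fun k => R16_om (ht1 p) i k) h1
  have hC' : 0 ≤ ((n : ℝ) + 1) * C := by positivity
  have R1 := R16_avg hm hC (fun p => cjX (n + 1) (s p) (t p) F) hcj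
  have R2 : ∀ i, IsB n (fun X => EX m (fun p => PrX (n + 1) (om i (s p)) (om i (t p)) F X)) :=
    fun i => R16_avg hm hC' (fun p => PrX (n + 1) (om i (s p)) (om i (t p)) F) (hPr i)
  have R3 : ∀ X, F X = EX m (fun p => cjX (n + 1) (s p) (t p) F X) -
      ∑ i ∈ range (n + 2), ((-1 : ℂ) ^ i) • fX n i (fun Y => EX m (fun p =>
        PrX (n + 1) (om i (s p)) (om i (t p)) F Y)) X := by
    intro X
    have hface : ∀ i, ∃ D : ℝ, ∀ p,
        ‖fX n i (PrX (n + 1) (om i (s p)) (om i (t p)) F) X‖ ≤ D := by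
      intro i
      refine ⟨‖X 0‖ * (((n + 1) * C) * ∏ k ∈ range n, ‖shift X k‖) +
        ((n + 1) * C) * ∏ k ∈ range n, ‖mu (i - 1) X k‖ +
        (((n + 1) * C) * ∏ k ∈ range n, ‖X k‖) * ‖X n‖, fun p => ?_⟩
      refine (R16_face_bd _ n i X).trans ?_
      have b1 := (hPr i p).2 (shift X)
      have b2 := (hPr i p).2 (mu (i - 1) X)
      have b3 := (hPr i p).2 X
      have c1 := mul_le_mul_of_nonneg_left b1 (norm_nonneg (X 0))
      have c3 := mul_le_mul_of_nonneg_right b3 (norm_nonneg (X n))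
      linarith
    have hpr : ∀ p, cjX (n + 1) (s p) (t p) F X = F X + ∑ i ∈ range (n + 2), ((-1 : ℂ) ^ i) •
        fX n i (PrX (n + 1) (om i (s p)) (om i (t p)) F) X := by
      intro p
      have h := prism_X n (s p) (t p) (hst p) F hF.dep hc X
      rw [← h]
      abel
    have e1 : EX m (fun p => cjX (n + 1) (s p) (t p) F X) = F X +
        EX m (fun p => ∑ i ∈ range (n + 2), ((-1 : ℂ) ^ i) •
        fX n i (PrX (n + 1) (om i (s p)) (om i (t p)) F) X) := by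
      have e2 : (fun p => cjX (n + 1) (s p) (t p) F X) = fun p => F X +
        ∑ i ∈ range (n + 2), ((-1 : ℂ) ^ i) •
        fX n i (PrX (n + 1) (om i (s p)) (om i (t p)) F) X := funext hpr
      rw [e2, EX_add hm (fun _ => F X) (fun p => ∑ i ∈ range (n + 2), ((-1 : ℂ) ^ i) •
        fX n i (PrX (n + 1) (om i (s p)) (om i (t p)) F) X) ⟨‖F X‖, fun _ => le_rfl⟩,
        EX_const hm]
      choose D hD using hface
      refine ⟨∑ i ∈ range (n + 2), D i, fun p => norm_sum_le_of_le _ (fun i _ => ?_)⟩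
      rw [norm_smul, norm_pow, norm_neg, norm_one, one_pow, one_mul]
      exact hD i p
    rw [e1, EX_sum hm (range (n + 2)) (fun i p => ((-1 : ℂ) ^ i) •
        fX n i (PrX (n + 1) (om i (s p)) (om i (t p)) F) X) (fun i _ => by
      obtain ⟨D, hD⟩ := hface i
      refine ⟨D, fun p => ?_⟩
      rw [norm_smul, norm_pow, norm_neg, norm_one, one_pow, one_mul]
      exact hD p)]
    have e3 : ∀ i, EX m (fun p => ((-1 : ℂ) ^ i) •
        fX n i (PrX (n + 1) (om i (s p)) (om i (t p)) F) X) = ((-1 : ℂ) ^ i) •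
        fX n i (fun Y => EX m (fun p => PrX (n + 1) (om i (s p)) (om i (t p)) F Y)) X := by
      intro i
      rw [EX_smul hm _ _ (hface i), R16_face hm
        (fun p => PrX (n + 1) (om i (s p)) (om i (t p)) F) (fun a => ⟨_, fun p => (hPr i p).2 a⟩)]
    rw [Finset.sum_congr rfl fun i _ => e3 i]
    abel
  rw [hs, ht] at R1 R2 R3
  exact ⟨R1, R2, R3⟩

end H730HC
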