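import Pool.Agent.H730R3.HD.Defs
import Pool.Agent.H730R3.HD.R01
import Pool.Agent.H730R3.HD.R04
import Pool.Agent.H730R3.HD.R11
import Pool.Agent.H730R3.HC.Final

set_option autoImplicit false

namespace H730HC

open Finset
open scoped ComplexConjugate

universe u v

variable {A : Type u} [CStarAlgebra A] {τ : A →ₗ[ℂ] ℂ}



theorem R17_la_apply (a : A) (φ : A →L[ℂ] ℂ) (x : A) : la a φ x = φ (x * a) := rfl

theorem R17_ra_apply (a : A) (φ : A →L[ℂ] ℂ) (x : A) : ra φ a x = φ (a * x) := rfl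

theorem R17_la_norm (a : A) (φ : A →L[ℂ] ℂ) (ha : ‖a‖ ≤ 1) {C : ℝ} (hC : 0 ≤ C)
    (hφ : ‖φ‖ ≤ C) : ‖la a φ‖ ≤ C := by
  refine ContinuousLinearMap.opNorm_le_bound _ hC fun x => ?_
  rw [R17_la_apply]
  calc ‖φ (x * a)‖ ≤ ‖φ‖ * ‖x * a‖ := φ.le_opNorm _
    _ ≤ C * ‖x‖ := by
      apply mul_le_mul hφ _ (norm_nonneg _) hC
      calc ‖x * a‖ ≤ ‖x‖ * ‖a‖ := norm_mul_le _ _
        _ ≤ ‖x‖ * 1 := mul_le_mul_of_nonneg_left ha (norm_nonneg _)
        _ = ‖x‖ := mul_one _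

theorem R17_ra_norm (a : A) (φ : A →L[ℂ] ℂ) (ha : ‖a‖ ≤ 1) {C : ℝ} (hC : 0 ≤ C)
    (hφ : ‖φ‖ ≤ C) : ‖ra φ a‖ ≤ C := by
  refine ContinuousLinearMap.opNorm_le_bound _ hC fun x => ?_
  rw [R17_ra_apply]
  calc ‖φ (a * x)‖ ≤ ‖φ‖ * ‖a * x‖ := φ.le_opNorm _
    _ ≤ C * ‖x‖ := by
      apply mul_le_mul hφ _ (norm_nonneg _) hC
      calc ‖a * x‖ ≤ ‖a‖ * ‖x‖ := norm_mul_le _ _
        _ ≤ 1 * ‖x‖ := mul_le_mul_of_nonneg_right ha (norm_nonneg _)
        _ = ‖x‖ := one_mul _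

theorem R17_bound (n : ℕ) (F : (ℕ → A) → (A →L[ℂ] ℂ)) (C : ℝ) (hC : 0 ≤ C)
    (hb : ∀ a : ℕ → A, ‖F a‖ ≤ C * ∏ k ∈ range (n + 1), ‖a k‖) (g : unitary A) :
    ‖F (al (g : A))‖ ≤ C := by
  have h2 : ∏ k ∈ range (n + 1), ‖al (g : A) k‖ ≤ 1 :=
    Finset.prod_le_one (fun _ _ => norm_nonneg _) fun k _ => sm_cochain_al g k
  calc _ ≤ C * ∏ k ∈ range (n + 1), ‖al (g : A) k‖ := hb _
    _ ≤ C * 1 := mul_le_mul_of_nonneg_left h2 hC
    _ = C := mul_one _

theorem R17_ui (n : ℕ) (F : (ℕ → A) → (A →L[ℂ] ℂ)) (hUI : UIc τ (n + 1) F) :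
    UIfam τ (fun g : unitary A => F (al (g : A))) := by
  intro ε hε
  obtain ⟨R, hR, h⟩ := hUI ε hε
  refine ⟨R, hR, fun g x => ?_⟩
  have h2 : ∏ k ∈ range (n + 1), ‖al (g : A) k‖ ≤ 1 :=
    Finset.prod_le_one (fun _ _ => norm_nonneg _) fun k _ => sm_cochain_al g k
  have h3 : 0 ≤ R * Real.sqrt (sq τ x) + ε * ‖x‖ :=
    add_nonneg (mul_nonneg hR (Real.sqrt_nonneg _)) (mul_nonneg hε.le (norm_nonneg _))
  calc _ ≤ (∏ k ∈ range (n + 1), ‖al (g : A) k‖) * (R * Real.sqrt (sq τ x) + ε * ‖x‖) := h _ x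
    _ ≤ 1 * (R * Real.sqrt (sq τ x) + ε * ‖x‖) := mul_le_mul_of_nonneg_right h2 h3
    _ = _ := one_mul _

theorem R17_star_norm (g : unitary A) : ‖star (g : A)‖ ≤ 1 := by
  rw [norm_star]; exact sm_cochain_norm_unitary g

theorem R17_ui2 (hτ : IsTS A τ) (n : ℕ) (F : (ℕ → A) → (A →L[ℂ] ℂ)) (hUI : UIc τ (n + 1) F) :
    UIfam τ (fun g : unitary A => ra (F (al (g : A))) (star (g : A))) := by
  intro ε hε
  obtain ⟨R, hR, h⟩ := R17_ui n F hUI ε hε
  refine ⟨R, hR, fun g x => ?_⟩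
  show ‖F (al (g : A)) (star (g : A) * x)‖ ≤ _
  have h1 : ‖F (al (g : A)) (star (g : A) * x)‖ ≤
      R * Real.sqrt (sq τ (star (g : A) * x)) + ε * ‖star (g : A) * x‖ := h g _
  have h2 : sq τ (star (g : A) * x) ≤ sq τ x := by
    have h3 := ts_sq_mul_left hτ (star (g : A)) x
    have h4 : ‖star (g : A)‖ ^ 2 ≤ 1 := pow_le_one₀ (norm_nonneg _) (R17_star_norm g)
    have h5 := ts_sq_nonneg hτ x
    calc _ ≤ _ := h3
      _ ≤ 1 * sq τ x := mul_le_mul_of_nonneg_right h4 h5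
      _ = _ := one_mul _
  have h6 : ‖star (g : A) * x‖ ≤ ‖x‖ := by
    calc ‖star (g : A) * x‖ ≤ ‖star (g : A)‖ * ‖x‖ := norm_mul_le _ _
      _ ≤ 1 * ‖x‖ := mul_le_mul_of_nonneg_right (R17_star_norm g) (norm_nonneg _)
      _ = ‖x‖ := one_mul _
  have h7 := mul_le_mul_of_nonneg_left (Real.sqrt_le_sqrt h2) hR
  have h8 := mul_le_mul_of_nonneg_left h6 hε.le
  linarith

theorem sm_cochain_X (hτ : IsTS A τ) (n : ℕ) (F : (ℕ → A) → (A →L[ℂ] ℂ)) (hF : IsB (n + 1) F)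
    (hUI : UIc τ (n + 1) F) :
    ∃ m : (unitary A × unitary A → ℝ) → ℝ, IsMean m ∧ ∀ g : unitary A,
      if Even (n + 1) then
        IsTr (EX m (fun p => cjX (n + 1) (alt (star (p.1 : A)) (p.2 : A))
          (alt (p.1 : A) (star (p.2 : A))) F (al (g : A))))
      else IsTr (ra (EX m (fun p => cjX (n + 1) (alt (star (p.1 : A)) (p.2 : A))
          (alt (p.1 : A) (star (p.2 : A))) F (al (g : A)))) (star (g : A))) := by
  obtain ⟨C, hC, hb⟩ := hF.bd
  have hB := R17_bound n F C hC hb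
  by_cases he : Even (n + 1)
  · obtain ⟨m, hm, h⟩ := sm_X hτ C (fun g : unitary A => F (al (g : A))) hB (R17_ui n F hUI)
    refine ⟨m, hm, fun g => ?_⟩
    rw [if_pos he]
    have key : (fun p : unitary A × unitary A =>
        cjX (n + 1) (alt (star (p.1 : A)) (p.2 : A)) (alt (p.1 : A) (star (p.2 : A))) F
          (al (g : A)))
        = fun p => ra (la (star (p.1 : A)) (F (al ((p.1 * g * p.2 : unitary A) : A))))
          (p.1 : A) := by
      funext p
      unfold cjX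
      rw [sm_cochain_seq]
      have h0 : alt (star (p.1 : A)) (p.2 : A) 0 = star (p.1 : A) := by
        unfold alt; rw [if_pos (by decide)]
      have h1 : alt (p.1 : A) (star (p.2 : A)) (n + 1) = (p.1 : A) := by
        unfold alt; rw [if_pos he]
      rw [h0, h1]
      rfl
    rw [key]
    exact h g
  · have hB2 : ∀ g : unitary A, ‖ra (F (al (g : A))) (star (g : A))‖ ≤ C := fun g =>
      R17_ra_norm _ _ (R17_star_norm g) hC (hB g)
    obtain ⟨m, hm, h⟩ := sm_X hτ C (fun g : unitary A => ra (F (al (g : A))) (star (g : A))) hB2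
      (R17_ui2 hτ n F hUI)
    refine ⟨m, hm, fun g => ?_⟩
    rw [if_neg he]
    have key : ∀ p : unitary A × unitary A,
        cjX (n + 1) (alt (star (p.1 : A)) (p.2 : A)) (alt (p.1 : A) (star (p.2 : A))) F
          (al (g : A))
        = ra (la (star (p.1 : A)) (F (al ((p.1 * g * p.2 : unitary A) : A))))
          (star (p.2 : A)) := by
      intro p
      unfold cjX
      rw [sm_cochain_seq]
      have h0 : alt (star (p.1 : A)) (p.2 : A) 0 = star (p.1 : A) := by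
        unfold alt; rw [if_pos (by decide)]
      have h1 : alt (p.1 : A) (star (p.2 : A)) (n + 1) = star (p.2 : A) := by
        unfold alt; rw [if_neg he]
      rw [h0, h1]
      rfl
    have hbd : ∃ C : ℝ, ∀ p : unitary A × unitary A,
        ‖cjX (n + 1) (alt (star (p.1 : A)) (p.2 : A)) (alt (p.1 : A) (star (p.2 : A))) F
          (al (g : A))‖ ≤ C := by
      refine ⟨C, fun p => ?_⟩
      rw [key p]
      exact R17_ra_norm _ _ (R17_star_norm p.2) hC
        (R17_la_norm _ _ (R17_star_norm p.1) hC (hB _))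
    rw [← EX_ra hm (star (g : A)) _ hbd]
    have key2 : (fun p : unitary A × unitary A =>
        ra (cjX (n + 1) (alt (star (p.1 : A)) (p.2 : A)) (alt (p.1 : A) (star (p.2 : A))) F
          (al (g : A))) (star (g : A)))
        = fun p => ra (la (star (p.1 : A)) (ra (F (al ((p.1 * g * p.2 : unitary A) : A)))
          (star ((p.1 * g * p.2 : unitary A) : A)))) (p.1 : A) := by
      funext p
      rw [key p]
      refine ContinuousLinearMap.ext fun x => ?_
      simp only [R17_ra_apply, R17_la_apply]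
      congr 1
      show star (p.2 : A) * (star (g : A) * x) * star (p.1 : A) =
        star ((p.1 : A) * (g : A) * (p.2 : A)) * ((p.1 : A) * x * star (p.1 : A))
      have h3 : star ((p.1 : A) * (g : A) * (p.2 : A)) * (p.1 : A)
          = star (p.2 : A) * star (g : A) := by
        rw [star_mul, star_mul, mul_assoc, mul_assoc, Unitary.coe_star_mul_self, mul_one]
      have h4 : star ((p.1 : A) * (g : A) * (p.2 : A)) * ((p.1 : A) * x * star (p.1 : A))
          = (star ((p.1 : A) * (g : A) * (p.2 : A)) * (p.1 : A)) * x * star (p.1 : A) := by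
        simp only [mul_assoc]
      rw [h4, h3]
      simp only [mul_assoc]
    rw [key2]
    exact h g

end H730HC
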