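import Pool.Agent.H730R3.HD.Defs
import Pool.Agent.H730R3.HD.R01
import Pool.Agent.H730R3.HD.R04
import Pool.Agent.H730R3.HD.R06
import Pool.Agent.H730R3.HD.R07
import Pool.Agent.H730R3.HD.R16
import Pool.Agent.H730R3.HD.R17
import Pool.Agent.H730R3.HC.Final

set_option autoImplicit false

namespace H730HC

open Finset
open scoped ComplexConjugate

universe u v

variable {A : Type u} [CStarAlgebra A] {τ : A →ₗ[ℂ] ℂ}



theorem R18_nu (u : unitary A) : ‖(u : A)‖ ≤ 1 := by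
  rcases subsingleton_or_nontrivial A with h | h
  · rw [Subsingleton.elim (u : A) 0, norm_zero]
    exact zero_le_one
  · exact (CStarRing.norm_coe_unitary u).le

theorem R18_ns (u : unitary A) : ‖star (u : A)‖ ≤ 1 := by
  rw [norm_star]
  exact R18_nu u

theorem R18_alt {x y : A} (hx : ‖x‖ ≤ 1) (hy : ‖y‖ ≤ 1) (k : ℕ) : ‖alt x y k‖ ≤ 1 := by
  unfold alt
  split_ifs
  · exact hx
  · exact hy

theorem R18_ra_apply (φ : A →L[ℂ] ℂ) (a x : A) : ra φ a x = φ (a * x) := rfl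

theorem R18_la_apply (a : A) (φ : A →L[ℂ] ℂ) (x : A) : la a φ x = φ (x * a) := rfl

theorem R18_cj_apply (n : ℕ) (s t : ℕ → A) (F : (ℕ → A) → (A →L[ℂ] ℂ)) (X : ℕ → A) (x : A) :
    cjX n s t F X x = F (fun k => t k * X k * s (k + 1)) (t n * x * s 0) := rfl

theorem R18_prod (n : ℕ) {s t : ℕ → A} (hs : ∀ k, ‖s k‖ ≤ 1) (ht : ∀ k, ‖t k‖ ≤ 1) (X : ℕ → A) :
    ∏ k ∈ range n, ‖t k * X k * s (k + 1)‖ ≤ ∏ k ∈ range n, ‖X k‖ := by
  refine Finset.prod_le_prod (fun _ _ => norm_nonneg _) fun k _ => ?_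
  calc ‖t k * X k * s (k + 1)‖ ≤ ‖t k‖ * ‖X k‖ * ‖s (k + 1)‖ :=
        (norm_mul_le _ _).trans (mul_le_mul_of_nonneg_right (norm_mul_le _ _) (norm_nonneg _))
    _ ≤ 1 * ‖X k‖ * 1 := by
        refine mul_le_mul (mul_le_mul_of_nonneg_right (ht k) (norm_nonneg _)) (hs _)
          (norm_nonneg _) ?_
        rw [one_mul]
        exact norm_nonneg _
    _ = ‖X k‖ := by ring

theorem R18_norm3 {s t : A} (hs : ‖s‖ ≤ 1) (ht : ‖t‖ ≤ 1) (x : A) : ‖t * x * s‖ ≤ ‖x‖ := by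
  calc ‖t * x * s‖ ≤ ‖t‖ * ‖x‖ * ‖s‖ :=
        (norm_mul_le _ _).trans (mul_le_mul_of_nonneg_right (norm_mul_le _ _) (norm_nonneg _))
    _ ≤ 1 * ‖x‖ * 1 := by
        refine mul_le_mul (mul_le_mul_of_nonneg_right ht (norm_nonneg _)) hs
          (norm_nonneg _) ?_
        rw [one_mul]
        exact norm_nonneg _
    _ = ‖x‖ := by ring

theorem R18_sq_l (hτ : IsTS A τ) {a : A} (ha : ‖a‖ ≤ 1) (x : A) : sq τ (a * x) ≤ sq τ x := by
  have h1 := ts_sq_mul_left hτ a x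
  have h2 := ts_sq_nonneg hτ x
  have h3 : ‖a‖ ^ 2 ≤ 1 := pow_le_one₀ (norm_nonneg _) ha
  nlinarith

theorem R18_sq_r (hτ : IsTS A τ) {a : A} (ha : ‖a‖ ≤ 1) (x : A) : sq τ (x * a) ≤ sq τ x := by
  have h1 := ts_sq_mul_right hτ a x
  have h2 := ts_sq_nonneg hτ x
  have h3 : ‖a‖ ^ 2 ≤ 1 := pow_le_one₀ (norm_nonneg _) ha
  nlinarith

/-- the averages are uniformly integrable -/
theorem R18_UI (hτ : IsTS A τ) (n : ℕ) (F : (ℕ → A) → (A →L[ℂ] ℂ)) (hF : IsB (n + 1) F)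
    (hUI : UIc τ (n + 1) F) (m : (unitary A × unitary A → ℝ) → ℝ) (hm : IsMean m) (X : ℕ → A) :
    ∀ ε > 0, ∃ R : ℝ, 0 ≤ R ∧ UIat τ R ε (EX m (fun p => cjX (n + 1)
      (alt (star (p.1 : A)) (p.2 : A)) (alt (p.1 : A) (star (p.2 : A))) F X)) := by
  intro ε hε
  have hW : 0 ≤ ∏ k ∈ range (n + 1), ‖X k‖ := Finset.prod_nonneg fun _ _ => norm_nonneg _
  set W := ∏ k ∈ range (n + 1), ‖X k‖ with hWd
  have h0 : 0 < W + 1 := by linarith
  obtain ⟨R, hR, h⟩ := hUI (ε / (W + 1)) (div_pos hε h0)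
  refine ⟨W * R, mul_nonneg hW hR, fun x => ?_⟩
  have hs : ∀ (p : unitary A × unitary A) (k : ℕ), ‖alt (star (p.1 : A)) (p.2 : A) k‖ ≤ 1 :=
    fun p => R18_alt (R18_ns p.1) (R18_nu p.2)
  have ht : ∀ (p : unitary A × unitary A) (k : ℕ), ‖alt (p.1 : A) (star (p.2 : A)) k‖ ≤ 1 :=
    fun p => R18_alt (R18_nu p.1) (R18_ns p.2)
  obtain ⟨C, hC, hb⟩ := hF.bd
  refine EX_bound hm _ ⟨C * W, fun p => ?_⟩ x _ fun p => ?_
  · refine ContinuousLinearMap.opNorm_le_bound _ (mul_nonneg hC hW) fun y => ?_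
    rw [R18_cj_apply]
    refine (ContinuousLinearMap.le_opNorm _ _).trans ?_
    refine mul_le_mul ((hb _).trans ?_) (R18_norm3 (hs p _) (ht p _) y) (norm_nonneg _)
      (mul_nonneg hC hW)
    exact mul_le_mul_of_nonneg_left (R18_prod (n + 1) (hs p) (ht p) X) hC
  · rw [R18_cj_apply]
    refine (h _ _).trans ?_
    have h1 := R18_prod (n + 1) (hs p) (ht p) X
    have h2 : Real.sqrt (sq τ (alt (p.1 : A) (star (p.2 : A)) (n + 1) * x *
        alt (star (p.1 : A)) (p.2 : A) 0)) ≤ Real.sqrt (sq τ x) :=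
      Real.sqrt_le_sqrt ((R18_sq_r hτ (hs p 0) _).trans (R18_sq_l hτ (ht p _) x))
    have h3 := R18_norm3 (hs p 0) (ht p (n + 1)) x
    have h4 : 0 ≤ ε / (W + 1) := (div_pos hε h0).le
    calc (∏ k ∈ range (n + 1), ‖alt (p.1 : A) (star (p.2 : A)) k * X k *
            alt (star (p.1 : A)) (p.2 : A) (k + 1)‖) *
          (R * Real.sqrt (sq τ (alt (p.1 : A) (star (p.2 : A)) (n + 1) * x *
            alt (star (p.1 : A)) (p.2 : A) 0)) + ε / (W + 1) *
            ‖alt (p.1 : A) (star (p.2 : A)) (n + 1) * x * alt (star (p.1 : A)) (p.2 : A) 0‖)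
        ≤ W * (R * Real.sqrt (sq τ x) + ε / (W + 1) * ‖x‖) := by
          refine mul_le_mul h1 (add_le_add (mul_le_mul_of_nonneg_left h2 hR)
            (mul_le_mul_of_nonneg_left h3 h4)) ?_ hW
          exact add_nonneg (mul_nonneg hR (Real.sqrt_nonneg _)) (mul_nonneg h4 (norm_nonneg _))
      _ = W * R * Real.sqrt (sq τ x) + (W * (ε / (W + 1))) * ‖x‖ := by ring
      _ ≤ W * R * Real.sqrt (sq τ x) + ε * ‖x‖ := by
          have h5 : W * (ε / (W + 1)) ≤ ε := by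
            rw [mul_div_assoc', div_le_iff₀ h0]
            nlinarith
          have := mul_le_mul_of_nonneg_right h5 (norm_nonneg x)
          linarith

theorem R18_UI_ra (hτ : IsTS A τ) (φ : A →L[ℂ] ℂ) (a : A)
    (h : ∀ ε > 0, ∃ R : ℝ, 0 ≤ R ∧ UIat τ R ε φ) :
    ∀ ε > 0, ∃ R : ℝ, 0 ≤ R ∧ UIat τ R ε (ra φ a) := by
  intro ε hε
  have h0 : 0 < ‖a‖ + 1 := by positivity
  obtain ⟨R, hR, hφ⟩ := h (ε / (‖a‖ + 1)) (div_pos hε h0)
  refine ⟨R * ‖a‖, mul_nonneg hR (norm_nonneg _), fun x => ?_⟩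
  rw [R18_ra_apply]
  refine (hφ _).trans ?_
  have h1 : Real.sqrt (sq τ (a * x)) ≤ ‖a‖ * Real.sqrt (sq τ x) := by
    calc Real.sqrt (sq τ (a * x)) ≤ Real.sqrt (‖a‖ ^ 2 * sq τ x) :=
          Real.sqrt_le_sqrt (ts_sq_mul_left hτ a x)
      _ = ‖a‖ * Real.sqrt (sq τ x) := by
          rw [Real.sqrt_mul (sq_nonneg _), Real.sqrt_sq (norm_nonneg a)]
  have h4 : 0 ≤ ε / (‖a‖ + 1) := (div_pos hε h0).le
  have h5 : (ε / (‖a‖ + 1)) * ‖a‖ ≤ ε := by
    rw [div_mul_eq_mul_div, div_le_iff₀ h0]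
    nlinarith [norm_nonneg a]
  calc R * Real.sqrt (sq τ (a * x)) + ε / (‖a‖ + 1) * ‖a * x‖
      ≤ R * (‖a‖ * Real.sqrt (sq τ x)) + ε / (‖a‖ + 1) * (‖a‖ * ‖x‖) :=
        add_le_add (mul_le_mul_of_nonneg_left h1 hR)
          (mul_le_mul_of_nonneg_left (norm_mul_le _ _) h4)
    _ = R * ‖a‖ * Real.sqrt (sq τ x) + (ε / (‖a‖ + 1) * ‖a‖) * ‖x‖ := by ring
    _ ≤ R * ‖a‖ * Real.sqrt (sq τ x) + ε * ‖x‖ := by
        have := mul_le_mul_of_nonneg_right h5 (norm_nonneg x)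
        linarith

theorem R18_even {m0 : (unitary A → ℝ) → ℝ} (hm0 : IsMean m0) {m : ℕ}
    {D : (ℕ → A) → (A →L[ℂ] ℂ)} (hD : IsB m D) :
    IsB m (fun X => Cp m0 (D X)) where
  dep a b h := by
    show Cp m0 (D a) = Cp m0 (D b)
    rw [hD.dep a b h]
  add a k x y hk := by
    show Cp m0 (D _) = Cp m0 (D _) + Cp m0 (D _)
    rw [hD.add a k x y hk, Cp_add m0 hm0]
  smul a k c x hk := by
    show Cp m0 (D _) = c • Cp m0 (D _)
    rw [hD.smul a k c x hk, Cp_smul m0 hm0]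
  bd := by
    obtain ⟨C, hC, h⟩ := hD.bd
    exact ⟨C, hC, fun a => (Cp_norm m0 hm0 (D a)).trans (h a)⟩

theorem R18_ra_add (φ ψ : A →L[ℂ] ℂ) (a : A) : ra (φ + ψ) a = ra φ a + ra ψ a := rfl

theorem R18_ra_smul (c : ℂ) (φ : A →L[ℂ] ℂ) (a : A) : ra (c • φ) a = c • ra φ a := rfl

theorem R18_ra_add' (φ : A →L[ℂ] ℂ) (a b : A) : ra φ (a + b) = ra φ a + ra φ b := by
  ext x
  show φ ((a + b) * x) = φ (a * x) + φ (b * x)
  rw [add_mul, map_add]

theorem R18_ra_smul' (c : ℂ) (φ : A →L[ℂ] ℂ) (a : A) : ra φ (c • a) = c • ra φ a := by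
  ext x
  show φ ((c • a) * x) = c • φ (a * x)
  rw [smul_mul_assoc, map_smul]

theorem R18_ra_norm (φ : A →L[ℂ] ℂ) (a : A) : ‖ra φ a‖ ≤ ‖φ‖ * ‖a‖ := by
  refine ContinuousLinearMap.opNorm_le_bound _ (mul_nonneg (norm_nonneg _) (norm_nonneg _))
    fun x => ?_
  rw [R18_ra_apply, mul_assoc]
  exact (ContinuousLinearMap.le_opNorm _ _).trans
    (mul_le_mul_of_nonneg_left (norm_mul_le _ _) (norm_nonneg _))

theorem R18_odd {m0 : (unitary A → ℝ) → ℝ} (hm0 : IsMean m0) {n : ℕ}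
    {D : (ℕ → A) → (A →L[ℂ] ℂ)} (hD : IsB (n + 1) D) :
    IsB (n + 2) (fun X => Cp m0 (ra (D X) (X (n + 1)))) where
  dep a b h := by
    show Cp m0 (ra (D a) (a (n + 1))) = Cp m0 (ra (D b) (b (n + 1)))
    rw [hD.dep a b fun k hk => h k (by omega), h (n + 1) (by omega)]
  add a k x y hk := by
    show Cp m0 (ra (D (Function.update a k (x + y))) (Function.update a k (x + y) (n + 1))) =
      Cp m0 (ra (D (Function.update a k x)) (Function.update a k x (n + 1))) +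
        Cp m0 (ra (D (Function.update a k y)) (Function.update a k y (n + 1)))
    rcases Nat.lt_or_ge k (n + 1) with h | h
    · have h1 : n + 1 ≠ k := by omega
      rw [Function.update_of_ne h1, Function.update_of_ne h1, Function.update_of_ne h1,
        hD.add a k x y h, R18_ra_add, Cp_add m0 hm0]
    · obtain rfl : k = n + 1 := by omega
      have h2 : ∀ z, D (Function.update a (n + 1) z) = D a := by
        intro z
        apply hD.dep
        intro j hj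
        exact Function.update_of_ne (by omega) _ _
      rw [Function.update_self, Function.update_self, Function.update_self, h2, h2, h2,
        R18_ra_add', Cp_add m0 hm0]
  smul a k c x hk := by
    show Cp m0 (ra (D (Function.update a k (c • x))) (Function.update a k (c • x) (n + 1))) =
      c • Cp m0 (ra (D (Function.update a k x)) (Function.update a k x (n + 1)))
    rcases Nat.lt_or_ge k (n + 1) with h | h
    · have h1 : n + 1 ≠ k := by omega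
      rw [Function.update_of_ne h1, Function.update_of_ne h1, hD.smul a k c x h,
        R18_ra_smul, Cp_smul m0 hm0]
    · obtain rfl : k = n + 1 := by omega
      have h2 : ∀ z, D (Function.update a (n + 1) z) = D a := by
        intro z
        apply hD.dep
        intro j hj
        exact Function.update_of_ne (by omega) _ _
      rw [Function.update_self, Function.update_self, h2, h2, R18_ra_smul', Cp_smul m0 hm0]
  bd := by
    obtain ⟨C, hC, h⟩ := hD.bd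
    refine ⟨C, hC, fun a => (Cp_norm m0 hm0 _).trans ?_⟩
    refine (R18_ra_norm _ _).trans ?_
    rw [Finset.prod_range_succ, ← mul_assoc]
    exact mul_le_mul_of_nonneg_right (h a) (norm_nonneg _)

theorem key_X (hτ : IsTS A τ) (n : ℕ) (F : (ℕ → A) → (A →L[ℂ] ℂ)) (hF : IsB (n + 1) F)
    (hUI : UIc τ (n + 1) F) (hc : ∀ a, dX (n + 1) F a = 0) :
    ∃ (P : ℕ → (ℕ → A) → (A →L[ℂ] ℂ)) (Q : (ℕ → A) → (A →L[ℂ] ℂ)), (∀ i, IsB n (P i)) ∧
      (∀ X, IsTr (Q X)) ∧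
      ((Even (n + 1) ∧ IsB (n + 1) Q ∧ ∀ g : unitary A,
          F (al (g : A)) = Q (al (g : A)) - ∑ i ∈ range (n + 2), ((-1 : ℂ) ^ i) • fX n i (P i) (al (g : A))) ∨
        (Odd (n + 1) ∧ IsB (n + 2) Q ∧ ∀ g : unitary A,
          F (al (g : A)) = ra (Q (al (g : A))) (g : A)
            - ∑ i ∈ range (n + 2), ((-1 : ℂ) ^ i) • fX n i (P i) (al (g : A)))) := by
  obtain ⟨m0, hm0, hmix⟩ := ts_exists_mix hτ
  obtain ⟨m, hm, hmg⟩ := sm_cochain_X hτ n F hF hUI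
  obtain ⟨hD, hP, hFX⟩ := avg_prism_X n F hF hc m hm
  have hUI' := R18_UI hτ n F hF hUI m hm
  by_cases hev : Even (n + 1)
  · refine ⟨_, fun X => Cp m0 (EX m (fun p => cjX (n + 1) (alt (star (p.1 : A)) (p.2 : A))
      (alt (p.1 : A) (star (p.2 : A))) F X)), hP,
        fun X => Cp_tr hτ m0 hm0 hmix _ (hUI' X), Or.inl ⟨hev,
        R18_even hm0 hD, fun g => ?_⟩⟩
    have h1 := hmg g
    rw [if_pos hev] at h1
    beta_reduce
    rw [Cp_of_tr m0 hm0 _ h1]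
    exact hFX _
  · refine ⟨_, fun X => Cp m0 (ra (EX m (fun p => cjX (n + 1) (alt (star (p.1 : A)) (p.2 : A))
      (alt (p.1 : A) (star (p.2 : A))) F X)) (X (n + 1))), hP,
        fun X => Cp_tr hτ m0 hm0 hmix _ (R18_UI_ra hτ _ _ (hUI' X)),
        Or.inr ⟨Nat.not_even_iff_odd.1 hev, R18_odd hm0 hD, fun g => ?_⟩⟩
    have h1 := hmg g
    rw [if_neg hev] at h1
    have h2 : al (g : A) (n + 1) = star (g : A) := by
      unfold al alt
      rw [if_neg hev]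
    have h3 : ∀ φ : A →L[ℂ] ℂ, ra (ra φ (star (g : A))) (g : A) = φ := by
      intro φ
      ext x
      show φ (star (g : A) * ((g : A) * x)) = φ x
      rw [← mul_assoc, Unitary.coe_star_mul_self, one_mul]
    beta_reduce
    rw [h2]
    rw [Cp_of_tr m0 hm0 _ h1, h3]
    exact hFX _

end H730HC
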