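import Pool.Agent.H730R3.HD.Defs
import Pool.Agent.H730R3.HC.Final
import Pool.Agent.H730R3.HC.T20

set_option autoImplicit false

namespace H730HC

open Finset
open scoped ComplexConjugate

universe u v

variable {A : Type u} [CStarAlgebra A] {τ : A →ₗ[ℂ] ℂ}



section R21

variable {B : Type v} [NormedAddCommGroup B] [NormedSpace ℂ B]

namespace R21_aux

/-- extension by zero -/
def ext {C : Type*} [Zero C] {n : ℕ} (v : Fin n → C) : ℕ → C :=
  fun k => if h : k < n then v ⟨k, h⟩ else 0

theorem ext_val {C : Type*} [Zero C] {n : ℕ} (v : Fin n → C) (i : Fin n) : ext v (i : ℕ) = v i := by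
  unfold ext
  rw [dif_pos i.2]

theorem ext_update {C : Type*} [Zero C] {n : ℕ} [DecidableEq (Fin n)] (v : Fin n → C) (i : Fin n)
    (x : C) : ext (Function.update v i x) = Function.update (ext v) (i : ℕ) x := by
  funext k
  by_cases hki : k = (i : ℕ)
  · subst hki
    rw [ext_val, Function.update_self, Function.update_self]
  · rw [Function.update_of_ne hki]
    unfold ext
    by_cases hk : k < n
    · rw [dif_pos hk, dif_pos hk, Function.update_of_ne]
      intro h
      exact hki (congrArg Fin.val h)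
    · rw [dif_neg hk, dif_neg hk]

/-- the multilinear map of a bounded multilinear function -/
noncomputable def cm {n : ℕ} (Λ : (ℕ → A) → B) (hΛ : IsB n Λ) :
    ContinuousMultilinearMap ℝ (fun _ : Fin n => A) B :=
  MultilinearMap.mkContinuous
    { toFun := fun v => Λ (ext v)
      map_update_add' := by
        intro _ v i x y
        rw [ext_update, ext_update, ext_update]
        exact hΛ.add _ _ _ _ i.2
      map_update_smul' := by
        intro _ v i c x
        rw [ext_update, ext_update]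
        have := hΛ.smul (ext v) i (c : ℂ) x i.2
        rwa [Complex.coe_smul, Complex.coe_smul] at this }
    hΛ.bd.choose (by
      intro v
      have := hΛ.bd.choose_spec.2 (ext v)
      rw [Finset.prod_range] at this
      simp only [ext_val] at this
      exact this)

theorem cm_apply {n : ℕ} (Λ : (ℕ → A) → B) (hΛ : IsB n Λ) (v : Fin n → A) :
    cm Λ hΛ v = Λ (ext v) := rfl

theorem hasDeriv {n : ℕ} {Λ : (ℕ → A) → B} (hΛ : IsB n Λ) (X : ℕ → ℝ → A) (X' : ℕ → A)
    (hX : ∀ k < n, HasDerivAt (X k) (X' k) 0) :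
    HasDerivAt (fun θ => Λ (fun k => X k θ))
      (∑ m ∈ range n, Λ (Function.update (fun k => X k 0) m (X' m))) 0 := by
  have h1 := HasFDerivAt.multilinear_comp (f := cm Λ hΛ) (g := fun (i : Fin n) => X i)
    (x := (0:ℝ)) (fun i => (hX i i.2).hasFDerivAt)
  have h2 := h1.hasDerivAt
  have e1 : (fun θ => cm Λ hΛ (fun i : Fin n => X i θ)) = fun θ => Λ (fun k => X k θ) := by
    funext θ
    rw [cm_apply]
    apply hΛ.dep
    intro k hk
    exact ext_val _ ⟨k, hk⟩
  rw [e1] at h2
  refine h2.congr_deriv ?_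
  rw [Finset.sum_range]
  rw [_root_.sum_apply]
  apply Finset.sum_congr rfl
  intro i _
  rw [ContinuousLinearMap.comp_apply]
  simp only [ContinuousLinearMap.toSpanSingleton_apply, one_smul]
  rw [ContinuousMultilinearMap.toContinuousLinearMap_apply, cm_apply, ext_update]
  apply hΛ.dep
  intro k hk
  by_cases hki : k = (i : ℕ)
  · subst hki
    rw [Function.update_self, Function.update_self]
  · rw [Function.update_of_ne hki, Function.update_of_ne hki]
    exact ext_val _ ⟨k, hk⟩

theorem ds_add {n : ℕ} {Λ : (ℕ → A) → B} (hΛ : IsB n Λ) (h h' : A) (X : ℕ → A) :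
    ds n (h + h') Λ X = ds n h Λ X + ds n h' Λ X := by
  unfold ds
  rw [← Finset.sum_add_distrib]
  apply Finset.sum_congr rfl
  intro m hm
  rw [← hΛ.add _ _ _ _ (mem_range.1 hm)]
  congr 2
  by_cases he : Even m
  · simp only [he, if_true]
    rw [mul_add]
  · simp only [he, if_false]
    rw [add_mul, neg_add]

theorem ds_smul {n : ℕ} {Λ : (ℕ → A) → B} (hΛ : IsB n Λ) (c : ℂ) (h : A) (X : ℕ → A) :
    ds n (c • h) Λ X = c • ds n h Λ X := by
  unfold ds
  rw [Finset.smul_sum]
  apply Finset.sum_congr rfl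
  intro m hm
  rw [← hΛ.smul _ _ _ _ (mem_range.1 hm)]
  congr 2
  by_cases he : Even m
  · simp only [he, if_true]
    rw [mul_smul_comm]
  · simp only [he, if_false]
    rw [smul_mul_assoc, smul_neg]

/-- the case of a self-adjoint direction, multiplied by `i` -/
theorem sa_step {ι : Type*} (R : Finset ι) (d : ι → ℕ) (Λ : ι → (ℕ → A) → B)
    (hΛ : ∀ r ∈ R, IsB (d r) (Λ r)) (h0 : ∀ g : unitary A, ∑ r ∈ R, Λ r (al (g : A)) = 0)
    (h : selfAdjoint A) (g : unitary A) :
    ∑ r ∈ R, ds (d r) (Complex.I • (h : A)) (Λ r) (al (g : A)) = 0 := by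
  set E : ℝ → A := fun θ => ((selfAdjoint.expUnitary (θ • h) : unitary A) : A) with hE
  have hE0 : E 0 = 1 := by
    rw [hE]
    simp
  have hEd : HasDerivAt E (Complex.I • (h : A)) 0 := by
    have h1 := hasDerivAt_exp_smul_const (𝕂 := ℝ) (Complex.I • (h : A)) (0 : ℝ)
    rw [zero_smul, NormedSpace.exp_zero, one_mul] at h1
    have e : E = fun θ : ℝ => NormedSpace.exp (θ • (Complex.I • (h : A))) := by
      funext θ
      rw [hE]
      simp only [selfAdjoint.expUnitary_coe, selfAdjoint.val_smul]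
      rw [smul_comm]
    rw [e]
    exact h1
  have hX : ∀ k : ℕ, HasDerivAt (fun θ => al ((g : A) * E θ) k)
      (if Even k then al (g : A) k * (Complex.I • (h : A))
        else -((Complex.I • (h : A)) * al (g : A) k)) 0 := by
    intro k
    have h1 : HasDerivAt (fun θ => (g : A) * E θ) ((g : A) * (Complex.I • (h : A))) 0 :=
      hEd.const_mul _
    by_cases he : Even k
    · unfold al alt
      simp only [he, if_true]
      exact h1
    · unfold al alt
      simp only [he, if_false]
      refine h1.star.congr_deriv ?_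
      rw [star_mul, star_smul, h.2.star_eq]
      have : star Complex.I = -Complex.I := Complex.conj_I
      rw [this, neg_smul, neg_mul]
  have hsum : HasDerivAt (fun θ => ∑ r ∈ R, Λ r (al ((g : A) * E θ)))
      (∑ r ∈ R, ds (d r) (Complex.I • (h : A)) (Λ r) (al (g : A))) 0 := by
    have h2 := HasDerivAt.fun_sum (u := R) (A := fun r θ => Λ r (al ((g : A) * E θ)))
      (A' := fun r => ds (d r) (Complex.I • (h : A)) (Λ r) (al (g : A))) (x := (0:ℝ)) ?_
    · exact h2
    · intro r hr
      have h3 := hasDeriv (hΛ r hr) (fun k θ => al ((g : A) * E θ) k) _ (fun k _ => hX k)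
      refine h3.congr_deriv ?_
      unfold ds
      rw [hE0, mul_one]
  have hz : (fun θ => ∑ r ∈ R, Λ r (al ((g : A) * E θ))) = fun _ => 0 := by
    funext θ
    have := h0 (g * selfAdjoint.expUnitary (θ • h))
    exact this
  rw [hz] at hsum
  exact hsum.unique (hasDerivAt_const (0:ℝ) (0:B)) |>.trans rfl

end R21_aux

theorem R21_der_step {ι : Type*} (R : Finset ι) (d : ι → ℕ) (Λ : ι → (ℕ → A) → B)
    (hΛ : ∀ r ∈ R, IsB (d r) (Λ r)) (h0 : ∀ g : unitary A, ∑ r ∈ R, Λ r (al (g : A)) = 0) (h : A) :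
    ∀ g : unitary A, ∑ r ∈ R, ds (d r) h (Λ r) (al (g : A)) = 0 := by
  intro g
  have key : ∀ k : selfAdjoint A, ∑ r ∈ R, ds (d r) (k : A) (Λ r) (al (g : A)) = 0 := by
    intro k
    have h1 := R21_aux.sa_step R d Λ hΛ h0 k g
    have h2 : ∑ r ∈ R, ds (d r) (Complex.I • (k : A)) (Λ r) (al (g : A)) =
        Complex.I • ∑ r ∈ R, ds (d r) (k : A) (Λ r) (al (g : A)) := by
      rw [Finset.smul_sum]
      exact Finset.sum_congr rfl fun r hr => R21_aux.ds_smul (hΛ r hr) _ _ _
    rw [h2] at h1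
    exact (smul_eq_zero.1 h1).resolve_left Complex.I_ne_zero
  have hd := realPart_add_I_smul_imaginaryPart h
  have e : ∑ r ∈ R, ds (d r) h (Λ r) (al (g : A)) =
      ∑ r ∈ R, ds (d r) (realPart h : A) (Λ r) (al (g : A)) +
      Complex.I • ∑ r ∈ R, ds (d r) (imaginaryPart h : A) (Λ r) (al (g : A)) := by
    rw [Finset.smul_sum, ← Finset.sum_add_distrib]
    apply Finset.sum_congr rfl
    intro r hr
    rw [← R21_aux.ds_smul (hΛ r hr), ← R21_aux.ds_add (hΛ r hr), hd]
  rw [e, key, key, smul_zero, add_zero]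


theorem R21_al_one : al (1 : A) = fun _ => 1 := by
  funext k
  unfold al alt
  simp

theorem R21_key {ι : Type*} (R : Finset ι) (d : ι → ℕ) (Λ : ι → (ℕ → A) → B)
    (hΛ : ∀ r ∈ R, IsB (d r) (Λ r)) (h0 : ∀ g : unitary A, ∑ r ∈ R, Λ r (al (g : A)) = 0)
    (n : ℕ) : ∀ (L : ℕ → A) (g : unitary A), ∑ r ∈ R, dn (d r) n L (Λ r) (al (g : A)) = 0 := by
  induction n with
  | zero =>
    intro L g
    exact h0 g
  | succ n ih =>
    intro L g
    exact R21_der_step R d (fun r => dn (d r) n (shift L) (Λ r))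
      (fun r hr => IsB_dn (hΛ r hr) n (shift L)) (ih (shift L)) (L 0) g

end R21

theorem pol_B {B : Type v} [NormedAddCommGroup B] [NormedSpace ℂ B] {ι : Type*} (R : Finset ι) (d : ι → ℕ)
    (Λ : ι → (ℕ → A) → B)
    (hΛ : ∀ r ∈ R, IsB (d r) (Λ r)) (h0 : ∀ g : unitary A, ∑ r ∈ R, Λ r (al (g : A)) = 0)
    (n : ℕ) (L : ℕ → A) :
    ∑ r ∈ R, ∑ σ : Fin n → Fin (d r), Λ r (word n L σ) = 0 := by
  have h := R21_key R d Λ hΛ h0 n L 1
  rw [← h]
  refine Finset.sum_congr rfl (fun r hr => ?_)
  have e1 : al ((1 : unitary A) : A) = fun _ => (1 : A) := by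
    rw [OneMemClass.coe_one]
    exact R21_al_one
  rw [e1, dn_eq (d r) n L (Λ r) _ (hΛ r hr).dep]
  refine Finset.sum_congr rfl (fun σ _ => ?_)
  congr 1
  funext m
  split_ifs <;> simp

end H730HC
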