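import Pool.Agent.H730R3.HD.Defs
import Pool.Agent.H730R3.HC.T24

set_option autoImplicit false

namespace H730HC

open Finset
open scoped ComplexConjugate

universe u v

variable {A : Type u} [CStarAlgebra A] {τ : A →ₗ[ℂ] ℂ}

attribute [local instance] CStarAlgebra.spectralOrder CStarAlgebra.spectralOrderedRing



theorem R24_comm (hτ : IsTS A τ) (J : ℕ) (x y : CStarMatrix (Fin J) (Fin J) A) :
    tauM J τ (x * y) = tauM J τ (y * x) := by
  rw [T24_tau, T24_tau]
  congr 1
  simp only [T24_mul_apply, map_sum]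
  rw [Finset.sum_comm]
  exact Finset.sum_congr rfl fun k _ => Finset.sum_congr rfl fun l _ => hτ.comm _ _

theorem R24_nonneg (hτ : IsTS A τ) (J : ℕ) (x : CStarMatrix (Fin J) (Fin J) A) :
    0 ≤ (tauM J τ (star x * x)).re := by
  rw [T24_re]
  exact mul_nonneg (by positivity) (Finset.sum_nonneg fun k _ => Finset.sum_nonneg fun l _ =>
    hτ.nonneg _)

theorem ts_matrix (hτ : IsTS A τ) (n : ℕ) :
    IsTS (CStarMatrix (Fin (n + 1)) (Fin (n + 1)) A) (tauM (n + 1) τ) := by
  refine ⟨?_, R24_comm hτ (n + 1), R24_nonneg hτ (n + 1), ?_⟩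
  · rw [T24_tau]
    have h1 : ∀ k : Fin (n + 1), (1 : CStarMatrix (Fin (n + 1)) (Fin (n + 1)) A) k k = 1 :=
      fun k => Matrix.one_apply_eq (α := A) k
    simp only [h1, hτ.one, Finset.sum_const, Finset.card_univ, Fintype.card_fin, nsmul_eq_mul,
      mul_one]
    have : (((n + 1 : ℕ) : ℂ)) ≠ 0 := by exact_mod_cast Nat.succ_ne_zero n
    exact inv_mul_cancel₀ this
  · intro x
    rw [T24_form]
    have h1 : (((n + 1 : ℕ) : ℂ))⁻¹ = (((((n + 1 : ℕ) : ℝ))⁻¹ : ℝ) : ℂ) := by push_cast; rfl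
    rw [h1, Complex.im_ofReal_mul, Complex.im_sum]
    simp only [Complex.im_sum, hτ.real, Finset.sum_const_zero, mul_zero]

end H730HC
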