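import Pool.Agent.H730R3.HD.Defs
import Pool.Agent.H730R3.HD.R25
import Pool.Agent.H730R3.HC.Final

set_option autoImplicit false

namespace H730HC

open Finset
open scoped ComplexConjugate

universe u v

variable {A : Type u} [CStarAlgebra A] {τ : A →ₗ[ℂ] ℂ}

attribute [local instance] CStarAlgebra.spectralOrder CStarAlgebra.spectralOrderedRing



/-! ### `IsB` of the faces -/

theorem R26_la_apply (a x : A) (φ : A →L[ℂ] ℂ) : la a φ x = φ (x * a) := rfl

theorem R26_ra_apply (a x : A) (φ : A →L[ℂ] ℂ) : ra φ a x = φ (a * x) := rfl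

theorem R26_la_add (a b : A) (φ : A →L[ℂ] ℂ) : la (a + b) φ = la a φ + la b φ := by
  ext x
  rw [ContinuousLinearMap.add_apply, R26_la_apply, R26_la_apply, R26_la_apply, mul_add, map_add]

theorem R26_la_add' (a : A) (φ ψ : A →L[ℂ] ℂ) : la a (φ + ψ) = la a φ + la a ψ := rfl

theorem R26_la_smul (c : ℂ) (a : A) (φ : A →L[ℂ] ℂ) : la (c • a) φ = c • la a φ := by
  ext x
  rw [ContinuousLinearMap.smul_apply, R26_la_apply, R26_la_apply, mul_smul_comm, map_smul]

theorem R26_la_smul' (c : ℂ) (a : A) (φ : A →L[ℂ] ℂ) : la a (c • φ) = c • la a φ := rfl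

theorem R26_ra_add (a b : A) (φ : A →L[ℂ] ℂ) : ra φ (a + b) = ra φ a + ra φ b := by
  ext x
  rw [ContinuousLinearMap.add_apply, R26_ra_apply, R26_ra_apply, R26_ra_apply, add_mul, map_add]

theorem R26_ra_add' (a : A) (φ ψ : A →L[ℂ] ℂ) : ra (φ + ψ) a = ra φ a + ra ψ a := rfl

theorem R26_ra_smul (c : ℂ) (a : A) (φ : A →L[ℂ] ℂ) : ra φ (c • a) = c • ra φ a := by
  ext x
  rw [ContinuousLinearMap.smul_apply, R26_ra_apply, R26_ra_apply, smul_mul_assoc, map_smul]

theorem R26_ra_smul' (c : ℂ) (a : A) (φ : A →L[ℂ] ℂ) : ra (c • φ) a = c • ra φ a := rfl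

theorem R26_la_norm (a : A) (φ : A →L[ℂ] ℂ) : ‖la a φ‖ ≤ ‖a‖ * ‖φ‖ := by
  refine ContinuousLinearMap.opNorm_le_bound _ (by positivity) fun x => ?_
  rw [R26_la_apply]
  calc ‖φ (x * a)‖ ≤ ‖φ‖ * ‖x * a‖ := φ.le_opNorm _
    _ ≤ ‖φ‖ * (‖x‖ * ‖a‖) := mul_le_mul_of_nonneg_left (norm_mul_le _ _) (norm_nonneg _)
    _ = ‖a‖ * ‖φ‖ * ‖x‖ := by ring

theorem R26_ra_norm (a : A) (φ : A →L[ℂ] ℂ) : ‖ra φ a‖ ≤ ‖φ‖ * ‖a‖ := by
  refine ContinuousLinearMap.opNorm_le_bound _ (by positivity) fun x => ?_
  rw [R26_ra_apply]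
  calc ‖φ (a * x)‖ ≤ ‖φ‖ * ‖a * x‖ := φ.le_opNorm _
    _ ≤ ‖φ‖ * (‖a‖ * ‖x‖) := mul_le_mul_of_nonneg_left (norm_mul_le _ _) (norm_nonneg _)
    _ = ‖φ‖ * ‖a‖ * ‖x‖ := by ring

theorem R26_face0 {m : ℕ} {f : (ℕ → A) → (A →L[ℂ] ℂ)} (hf : IsB m f) :
    IsB (m + 1) (fun a => la (a 0) (f (shift a))) := by
  obtain ⟨C, hC, hf4⟩ := hf.bd
  refine ⟨?_, ?_, ?_, C, hC, ?_⟩
  · intro a b h
    show la (a 0) (f (shift a)) = la (b 0) (f (shift b))
    rw [h 0 (Nat.succ_pos _), hf.dep (shift a) (shift b) fun k hk => h (k + 1) (by omega)]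
  · intro a k x y hk
    show la ((Function.update a k (x + y)) 0) (f (shift (Function.update a k (x + y)))) =
      la ((Function.update a k x) 0) (f (shift (Function.update a k x))) +
      la ((Function.update a k y) 0) (f (shift (Function.update a k y)))
    rcases k with _ | k
    · simp only [T14_shift_zero, Function.update_self, R26_la_add]
    · simp only [T14_shift_succ]
      rw [hf.add (shift a) k x y (by omega), R26_la_add']
      simp [Function.update_apply]
  · intro a k c x hk
    show la ((Function.update a k (c • x)) 0) (f (shift (Function.update a k (c • x)))) =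
      c • (la ((Function.update a k x) 0) (f (shift (Function.update a k x))))
    rcases k with _ | k
    · simp only [T14_shift_zero, Function.update_self, R26_la_smul]
    · simp only [T14_shift_succ]
      rw [hf.smul (shift a) k c x (by omega), R26_la_smul']
      simp [Function.update_apply]
  · intro a
    rw [Finset.prod_range_succ']
    calc ‖la (a 0) (f (shift a))‖ ≤ ‖a 0‖ * ‖f (shift a)‖ := R26_la_norm _ _
      _ ≤ ‖a 0‖ * (C * ∏ k ∈ range m, ‖shift a k‖) :=
          mul_le_mul_of_nonneg_left (hf4 _) (norm_nonneg _)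
      _ = C * ((∏ k ∈ range m, ‖a (k + 1)‖) * ‖a 0‖) := by
          simp only [shift]; ring

theorem R26_faceM {m j : ℕ} (hj : j < m) {f : (ℕ → A) → (A →L[ℂ] ℂ)} (hf : IsB m f) :
    IsB (m + 1) (fun a => f (mu j a)) := by
  obtain ⟨C, hC, hf4⟩ := hf.bd
  refine ⟨?_, ?_, ?_, C, hC, ?_⟩
  · intro a b h
    refine hf.dep _ _ fun k hk => ?_
    simp only [mu]
    rw [h k (by omega), h j (by omega), h (j + 1) (by omega), h (k + 1) (by omega)]
  · intro a k x y hk
    show f (mu j (Function.update a k (x + y))) = f (mu j (Function.update a k x)) +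
      f (mu j (Function.update a k y))
    rcases lt_trichotomy k j with h | h | h
    · simp only [T14_mu_lt j k a _ h]
      exact hf.add _ _ _ _ (by omega)
    · subst h
      simp only [T14_mu_eq, add_mul]
      exact hf.add _ _ _ _ hj
    · obtain ⟨k, rfl⟩ : ∃ l, k = l + 1 := ⟨k - 1, by omega⟩
      rcases Nat.eq_or_lt_of_le (Nat.lt_succ_iff.1 h) with h' | h'
      · subst h'
        simp only [T14_mu_eq', mul_add]
        exact hf.add _ _ _ _ hj
      · simp only [T14_mu_gt j k a _ h']
        exact hf.add _ _ _ _ (by omega)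
  · intro a k c x hk
    show f (mu j (Function.update a k (c • x))) = c • f (mu j (Function.update a k x))
    rcases lt_trichotomy k j with h | h | h
    · simp only [T14_mu_lt j k a _ h]
      exact hf.smul _ _ _ _ (by omega)
    · subst h
      simp only [T14_mu_eq, smul_mul_assoc]
      exact hf.smul _ _ _ _ hj
    · obtain ⟨k, rfl⟩ : ∃ l, k = l + 1 := ⟨k - 1, by omega⟩
      rcases Nat.eq_or_lt_of_le (Nat.lt_succ_iff.1 h) with h' | h'
      · subst h'
        simp only [T14_mu_eq', mul_smul_comm]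
        exact hf.smul _ _ _ _ hj
      · simp only [T14_mu_gt j k a _ h']
        exact hf.smul _ _ _ _ (by omega)
  · intro a
    exact (hf4 _).trans (mul_le_mul_of_nonneg_left (T14_mu_prod j m hj a) hC)

theorem R26_faceL {m : ℕ} {f : (ℕ → A) → (A →L[ℂ] ℂ)} (hf : IsB m f) :
    IsB (m + 1) (fun a => ra (f a) (a m)) := by
  obtain ⟨C, hC, hf4⟩ := hf.bd
  have hupd : ∀ (a : ℕ → A) (x : A), f (Function.update a m x) = f a := fun a x =>
    hf.dep _ _ fun k hk => by rw [Function.update_of_ne (by omega)]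
  refine ⟨?_, ?_, ?_, C, hC, ?_⟩
  · intro a b h
    show ra (f a) (a m) = ra (f b) (b m)
    rw [h m (Nat.lt_succ_self _), hf.dep a b fun k hk => h k (by omega)]
  · intro a k x y hk
    show ra (f (Function.update a k (x + y))) ((Function.update a k (x + y)) m) =
      ra (f (Function.update a k x)) ((Function.update a k x) m) +
      ra (f (Function.update a k y)) ((Function.update a k y) m)
    rcases Nat.eq_or_lt_of_le (Nat.lt_succ_iff.1 hk) with h | h
    · subst h
      simp only [hupd, Function.update_self, R26_ra_add]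
    · rw [hf.add a k x y h, R26_ra_add']
      simp [Function.update_of_ne (show m ≠ k by omega)]
  · intro a k c x hk
    show ra (f (Function.update a k (c • x))) ((Function.update a k (c • x)) m) =
      c • (ra (f (Function.update a k x)) ((Function.update a k x) m))
    rcases Nat.eq_or_lt_of_le (Nat.lt_succ_iff.1 hk) with h | h
    · subst h
      simp only [hupd, Function.update_self, R26_ra_smul]
    · rw [hf.smul a k c x h, R26_ra_smul']
      simp [Function.update_of_ne (show m ≠ k by omega)]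
  · intro a
    rw [Finset.prod_range_succ]
    calc ‖ra (f a) (a m)‖ ≤ ‖f a‖ * ‖a m‖ := R26_ra_norm _ _
      _ ≤ (C * ∏ k ∈ range m, ‖a k‖) * ‖a m‖ := mul_le_mul_of_nonneg_right (hf4 _) (norm_nonneg _)
      _ = _ := by ring

theorem R26_fX_zero (m : ℕ) (f : (ℕ → A) → (A →L[ℂ] ℂ)) :
    fX m 0 f = fun a => la (a 0) (f (shift a)) := by
  funext a
  simp only [fX, if_true]

theorem R26_fX_mid {m i : ℕ} (h0 : 0 < i) (h1 : i ≤ m) (f : (ℕ → A) → (A →L[ℂ] ℂ)) :
    fX m i f = fun a => f (mu (i - 1) a) := by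
  funext a
  simp only [fX, if_neg h0.ne', if_pos h1]

theorem R26_fX_last {m i : ℕ} (h0 : 0 < i) (h1 : ¬ i ≤ m) (f : (ℕ → A) → (A →L[ℂ] ℂ)) :
    fX m i f = fun a => ra (f a) (a m) := by
  funext a
  simp only [fX, if_neg h0.ne', if_neg h1]

theorem R26_IsB_fX {m i : ℕ} {f : (ℕ → A) → (A →L[ℂ] ℂ)} (hf : IsB m f) :
    IsB (m + 1) (fX m i f) := by
  rcases Nat.eq_zero_or_pos i with rfl | h0
  · rw [R26_fX_zero]
    exact R26_face0 hf
  · by_cases h1 : i ≤ m
    · rw [R26_fX_mid h0 h1]
      exact R26_faceM (by omega) hf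
    · rw [R26_fX_last h0 h1]
      exact R26_faceL hf

/-! ### the amplification of the faces -/

theorem R26_map {B : Type v} [AddCommMonoid B] {J : ℕ} (n : ℕ) : ∀ (k l : Fin J) (g : B →+ B)
    (T : (ℕ → A) → B) (X : ℕ → Fin J → Fin J → A),
    ampX n k l (fun a => g (T a)) X = g (ampX n k l T X) := by
  induction n with
  | zero =>
    intro k l g T X
    simp only [ampX]
    split_ifs
    · rfl
    · rw [map_zero]
  | succ n ih =>
    intro k l g T X
    simp only [ampX]
    rw [map_sum]
    exact Finset.sum_congr rfl fun j _ => ih j l g (fun a => T (cons (X 0 k j) a)) _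

theorem R26_zero {B : Type v} [AddCommMonoid B] {J : ℕ} (n : ℕ) :
    ∀ (k l : Fin J) (X : ℕ → Fin J → Fin J → A),
    ampX n k l (fun _ => (0 : B)) X = 0 := by
  induction n with
  | zero =>
    intro k l X
    simp only [ampX]
    split_ifs <;> rfl
  | succ n ih =>
    intro k l X
    simp only [ampX]
    exact Finset.sum_eq_zero fun j _ => ih j l _

theorem R26_add {B : Type v} [AddCommMonoid B] {J : ℕ} (n : ℕ) :
    ∀ (k l : Fin J) (T S : (ℕ → A) → B) (X : ℕ → Fin J → Fin J → A),
    ampX n k l (fun a => T a + S a) X = ampX n k l T X + ampX n k l S X := by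
  induction n with
  | zero =>
    intro k l T S X
    simp only [ampX]
    split_ifs
    · rfl
    · rw [add_zero]
  | succ n ih =>
    intro k l T S X
    simp only [ampX]
    rw [← Finset.sum_add_distrib]
    exact Finset.sum_congr rfl fun j _ =>
      ih j l (fun a => T (cons (X 0 k j) a)) (fun a => S (cons (X 0 k j) a)) _

theorem R26_sum {B : Type v} [AddCommMonoid B] {J : ℕ} {ι : Type*} (n : ℕ) (k l : Fin J)
    (s : Finset ι) (T : ι → (ℕ → A) → B) (X : ℕ → Fin J → Fin J → A) :
    ampX n k l (fun a => ∑ i ∈ s, T i a) X = ∑ i ∈ s, ampX n k l (T i) X := by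
  classical
  induction s using Finset.induction_on with
  | empty => simpa using R26_zero n k l X
  | insert i s hi ih =>
    rw [Finset.sum_insert hi, ← ih, ← R26_add]
    congr 1
    funext a
    rw [Finset.sum_insert hi]

theorem R26_right {B : Type v} [AddCommMonoid B] {J : ℕ} (g : A → (B →+ B)) (m : ℕ) :
    ∀ (k l : Fin J) (T : (ℕ → A) → B)
    (_ : ∀ a b : ℕ → A, (∀ k < m, a k = b k) → T a = T b)
    (X : ℕ → Fin J → Fin J → A),
    ampX (m + 1) k l (fun a => g (a m) (T a)) X = ∑ p, g (X m p l) (ampX m k p T X) := by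
  induction m with
  | zero =>
    intro k l T hT X
    simp only [ampX]
    rw [Finset.sum_eq_single l, Finset.sum_eq_single k]
    · rw [if_pos rfl, if_pos rfl]
      have h : T (cons (X 0 k l) fun _ => 0) = T fun _ => 0 :=
        hT _ _ fun k hk => absurd hk (Nat.not_lt_zero k)
      rw [h]
      rfl
    · intro p _ hp
      rw [if_neg (Ne.symm hp), map_zero]
    · intro h
      exact absurd (Finset.mem_univ k) h
    · intro p _ hp
      rw [if_neg hp]
    · intro h
      exact absurd (Finset.mem_univ l) h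
  | succ m ih =>
    intro k l T hT X
    have hT' : ∀ x : A, ∀ a b : ℕ → A, (∀ k < m, a k = b k) → T (cons x a) = T (cons x b) := by
      intro x a b hab
      apply hT
      intro k hk
      rcases Nat.eq_zero_or_pos k with rfl | hk0
      · rfl
      · have h1 : cons x a k = a (k - 1) := if_neg hk0.ne'
        have h2 : cons x b k = b (k - 1) := if_neg hk0.ne'
        rw [h1, h2]
        exact hab _ (by omega)
    have h1 : ampX (m + 1 + 1) k l (fun a => g (a (m + 1)) (T a)) X
        = ∑ j, ampX (m + 1) j l (fun a => g (a m) (T (cons (X 0 k j) a))) (fun i => X (i + 1)) :=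
      rfl
    have h2 : ∀ p, ampX (m + 1) k p T X
        = ∑ j, ampX m j p (fun a => T (cons (X 0 k j) a)) (fun i => X (i + 1)) := fun p => rfl
    rw [h1]
    simp only [h2, map_sum]
    rw [Finset.sum_comm]
    exact Finset.sum_congr rfl fun j _ =>
      ih j l (fun a => T (cons (X 0 k j) a)) (hT' _) (fun i => X (i + 1))

theorem R26_cons_sum {B : Type v} [AddCommGroup B] {m : ℕ} (hm : 0 < m) {T : (ℕ → A) → B}
    (hadd : ∀ (a : ℕ → A) (k : ℕ) (x y : A), k < m →
      T (Function.update a k (x + y)) = T (Function.update a k x) + T (Function.update a k y))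
    {ι : Type*} (s : Finset ι) (f : ι → A) (a : ℕ → A) :
    T (cons (∑ i ∈ s, f i) a) = ∑ i ∈ s, T (cons (f i) a) := by
  have key : ∀ x y : A, T (cons (x + y) a) = T (cons x a) + T (cons y a) := by
    intro x y
    rw [T26_cons_eq_update (x + y), T26_cons_eq_update x, T26_cons_eq_update y]
    exact hadd _ 0 x y hm
  exact map_sum (AddMonoidHom.mk' (fun y => T (cons y a)) key) f s

theorem R26_mu {B : Type v} [AddCommGroup B] {J : ℕ} (i : ℕ) :
    ∀ (m : ℕ) (_ : i < m) (k l : Fin J) (T : (ℕ → A) → B)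
    (_ : ∀ (a : ℕ → A) (k : ℕ) (x y : A), k < m →
      T (Function.update a k (x + y)) = T (Function.update a k x) + T (Function.update a k y))
    (X : ℕ → Fin J → Fin J → A),
    ampX (m + 1) k l (fun a => T (mu i a)) X = ampX m k l T (T26_mm i X) := by
  induction i with
  | zero =>
    intro m hm k l T hT X
    obtain ⟨m, rfl⟩ : ∃ m', m = m' + 1 := ⟨m - 1, by omega⟩
    have h1 : ampX (m + 1 + 1) k l (fun a => T (mu 0 a)) X
        = ∑ j, ∑ p, ampX m p l (fun a => T (mu 0 (cons (X 0 k j) (cons (X 1 j p) a))))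
          (fun i => X (i + 1 + 1)) := rfl
    have h2 : ampX (m + 1) k l T (T26_mm 0 X)
        = ∑ p, ampX m p l (fun a => T (cons (T26_mm 0 X 0 k p) a))
          (fun i => T26_mm 0 X (i + 1)) := rfl
    rw [h1, h2, Finset.sum_comm]
    refine Finset.sum_congr rfl fun p _ => ?_
    simp only [T26_mu_zero, T26_mm_zero_zero, T26_mm_zero_succ]
    rw [← R26_sum]
    congr 1
    funext a
    rw [R26_cons_sum hm hT]
  | succ i ih =>
    intro m hm k l T hT X
    obtain ⟨m, rfl⟩ : ∃ m', m = m' + 1 := ⟨m - 1, by omega⟩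
    have h1 : ampX (m + 1 + 1) k l (fun a => T (mu (i + 1) a)) X
        = ∑ j, ampX (m + 1) j l (fun a => T (mu (i + 1) (cons (X 0 k j) a)))
          (fun i => X (i + 1)) := rfl
    have h2 : ampX (m + 1) k l T (T26_mm (i + 1) X)
        = ∑ j, ampX m j l (fun a => T (cons (T26_mm (i + 1) X 0 k j) a))
          (fun n => T26_mm (i + 1) X (n + 1)) := rfl
    rw [h1, h2]
    refine Finset.sum_congr rfl fun j _ => ?_
    simp only [T26_mu_succ, T26_mm_succ_zero, T26_mm_succ_succ]
    refine ih m (by omega) j l (fun a => T (cons (X 0 k j) a)) ?_ (fun n => X (n + 1))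
    intro a n x y hn
    simp only [T26_cons_update]
    exact hT _ (n + 1) x y (by omega)

/-- `la x` as an additive map -/
noncomputable def R26_laHom (x : A) : (A →L[ℂ] ℂ) →+ (A →L[ℂ] ℂ) :=
  AddMonoidHom.mk' (fun φ => la x φ) (R26_la_add' x)

/-- `fun φ => ra φ x` as an additive map -/
noncomputable def R26_raHom (x : A) : (A →L[ℂ] ℂ) →+ (A →L[ℂ] ℂ) :=
  AddMonoidHom.mk' (fun φ => ra φ x) (R26_ra_add' x)

theorem R26_la {J : ℕ} (n : ℕ) (k l : Fin J) (x : A) (T : (ℕ → A) → (A →L[ℂ] ℂ))
    (X : ℕ → Fin J → Fin J → A) :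
    ampX n k l (fun a => la x (T a)) X = la x (ampX n k l T X) :=
  R26_map n k l (R26_laHom x) T X

theorem R26_ra {J : ℕ} (m : ℕ) (k l : Fin J) (T : (ℕ → A) → (A →L[ℂ] ℂ))
    (hT : ∀ a b : ℕ → A, (∀ k < m, a k = b k) → T a = T b) (X : ℕ → Fin J → Fin J → A) :
    ampX (m + 1) k l (fun a => ra (T a) (a m)) X = ∑ p, ra (ampX m k p T X) (X m p l) :=
  R26_right (fun x => R26_raHom x) m k l T hT X

theorem ampMX_fX {m i J : ℕ} (hi : i ≤ m + 1) {T : (ℕ → A) → (A →L[ℂ] ℂ)} (hT : IsB m T)
    (X : ℕ → CStarMatrix (Fin J) (Fin J) A) :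
    ampMX (m + 1) (fX m i T) X = fX m i (ampMX m T) X := by
  refine ContinuousLinearMap.ext fun Y => ?_
  rw [ampMX_apply (R26_IsB_fX hT) X Y]
  rcases Nat.eq_zero_or_pos i with rfl | hi0
  · rw [R26_fX_zero, R26_fX_zero]
    show _ = la (X 0) (ampMX m T (shift X)) Y
    rw [R26_la_apply, ampMX_apply hT (shift X)]
    have h3 : ∀ k l : Fin J, ampX (m + 1) k l (fun a => la (a 0) (T (shift a)))
        (fun i p q => X i p q)
        = ∑ j, ampX m j l (fun a => la (X 0 k j) (T a)) (fun i p q => X (i + 1) p q) :=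
      fun k l => rfl
    have h4 : ∀ k l : Fin J, (ampX (m + 1) k l (fun a => la (a 0) (T (shift a)))
        (fun i p q => X i p q)) (Y l k)
        = ∑ j, (ampX m j l T (fun i p q => shift X i p q)) (Y l k * X 0 k j) := by
      intro k l
      rw [h3, ContinuousLinearMap.sum_apply]
      refine Finset.sum_congr rfl fun j _ => ?_
      rw [R26_la, R26_la_apply]
      rfl
    simp only [h4]
    have h5 : ∀ j l : Fin J, (ampX m j l T (fun i p q => shift X i p q)) ((Y * X 0) l j)
        = ∑ k, (ampX m j l T (fun i p q => shift X i p q)) (Y l k * X 0 k j) := by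
      intro j l
      rw [CStarMatrix.mul_apply, map_sum]
    simp only [h5]
    calc ∑ k, ∑ l, ∑ j, (ampX m j l T (fun i p q => shift X i p q)) (Y l k * X 0 k j)
        = ∑ k, ∑ j, ∑ l, (ampX m j l T (fun i p q => shift X i p q)) (Y l k * X 0 k j) :=
          Finset.sum_congr rfl fun k _ => Finset.sum_comm
      _ = ∑ j, ∑ k, ∑ l, (ampX m j l T (fun i p q => shift X i p q)) (Y l k * X 0 k j) :=
          Finset.sum_comm
      _ = ∑ j, ∑ l, ∑ k, (ampX m j l T (fun i p q => shift X i p q)) (Y l k * X 0 k j) :=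
          Finset.sum_congr rfl fun j _ => Finset.sum_comm
  · by_cases him : i ≤ m
    · rw [R26_fX_mid hi0 him, R26_fX_mid hi0 him]
      show _ = ampMX m T (mu (i - 1) X) Y
      rw [ampMX_apply hT (mu (i - 1) X)]
      refine Finset.sum_congr rfl fun k _ => Finset.sum_congr rfl fun l _ => ?_
      rw [R26_mu (i - 1) m (by omega) k l T hT.add]
      have h3 : T26_mm (i - 1) (fun i p q => X i p q) = fun n p q => mu (i - 1) X n p q := by
        funext n p q
        simp only [T26_mm, mu]
        split_ifs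
        · rfl
        · rw [CStarMatrix.mul_apply]
        · rfl
      rw [h3]
    · rw [R26_fX_last hi0 him, R26_fX_last hi0 him]
      show _ = ra (ampMX m T X) (X m) Y
      rw [R26_ra_apply, ampMX_apply hT X]
      have h4 : ∀ k l : Fin J, (ampX (m + 1) k l (fun a => ra (T a) (a m))
          (fun i p q => X i p q)) (Y l k)
          = ∑ p, (ampX m k p T (fun i p q => X i p q)) (X m p l * Y l k) := by
        intro k l
        rw [R26_ra m k l T hT.dep, ContinuousLinearMap.sum_apply]
        exact Finset.sum_congr rfl fun p _ => R26_ra_apply _ _ _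
      simp only [h4]
      have h5 : ∀ k p : Fin J, (ampX m k p T (fun i p q => X i p q)) ((X m * Y) p k)
          = ∑ l, (ampX m k p T (fun i p q => X i p q)) (X m p l * Y l k) := by
        intro k p
        rw [CStarMatrix.mul_apply, map_sum]
      simp only [h5]
      exact Finset.sum_congr rfl fun k _ => Finset.sum_comm

end H730HC
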