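import Pool.Agent.H730R3.HD.Defs
import Pool.Agent.H730R3.HD.R25
import Pool.Agent.H730R3.HD.R23
import Pool.Agent.H730R3.HC.Final

set_option autoImplicit false

namespace H730HC

open Finset
open scoped ComplexConjugate

universe u v

variable {A : Type u} [CStarAlgebra A] {τ : A →ₗ[ℂ] ℂ}

attribute [local instance] CStarAlgebra.spectralOrder CStarAlgebra.spectralOrderedRing



/-- dependence on the first entries and homogeneity -/
structure R27_Hom (k : ℕ) (T : (ℕ → A) → (A →L[ℂ] ℂ)) : Prop where
  dep : ∀ a b : ℕ → A, (∀ i < k, a i = b i) → T a = T b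
  hom : ∀ (a : ℕ → A) (i : ℕ) (c : ℂ), i < k → T (Function.update a i (c • a i)) = c • T a

theorem R27_hom_of {n : ℕ} {T : (ℕ → A) → (A →L[ℂ] ℂ)} (hT : IsB n T) : R27_Hom n T := by
  refine ⟨hT.dep, fun a i c hi => ?_⟩
  rw [hT.smul a i c (a i) hi, Function.update_eq_self]

theorem R27_zero {k : ℕ} {T : (ℕ → A) → (A →L[ℂ] ℂ)} (hT : R27_Hom k T) (a : ℕ → A) (i : ℕ) (hi : i < k)
    (h0 : a i = 0) : T a = 0 := by
  have h := hT.hom a i 0 hi
  have h1 : Function.update a i ((0 : ℂ) • a i) = a := by
    rw [zero_smul, ← h0, Function.update_eq_self]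
  rw [h1] at h
  exact h.trans (zero_smul ℂ (T a))

theorem R27_cons_succ (x : A) (a : ℕ → A) (i : ℕ) : cons x a (i + 1) = a i := by
  simp [cons]

theorem R27_cons_zero (x : A) (a : ℕ → A) : cons x a 0 = x := by
  simp [cons]

theorem R27_hom_cons {k : ℕ} {T : (ℕ → A) → (A →L[ℂ] ℂ)} (hT : R27_Hom (k + 1) T) (x : A) :
    R27_Hom k (fun a => T (cons x a)) := by
  refine ⟨fun a b h => ?_, fun a i c hi => ?_⟩
  · apply hT.dep
    intro i hi
    rcases i with _ | i
    · rw [R27_cons_zero, R27_cons_zero]
    · rw [R27_cons_succ, R27_cons_succ]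
      exact h i (by omega)
  · have h1 : cons x (Function.update a i (c • a i)) =
        Function.update (cons x a) (i + 1) (c • cons x a (i + 1)) := by
      funext j
      rcases j with _ | j
      · rw [R27_cons_zero, Function.update_of_ne (by omega), R27_cons_zero]
      · rw [R27_cons_succ, R27_cons_succ]
        by_cases hj : j = i
        · subst hj
          rw [Function.update_self, Function.update_self]
        · rw [Function.update_of_ne hj, Function.update_of_ne (by omega), R27_cons_succ]
    show T (cons x (Function.update a i (c • a i))) = c • T (cons x a)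
    rw [h1]
    exact hT.hom (cons x a) (i + 1) c (by omega)

theorem R27_amp (NN : ℕ) (a : ℕ → A) (l : Fin (NN + 1)) : ∀ (k : ℕ) (r0 : Fin (NN + 1))
    (T : (ℕ → A) → (A →L[ℂ] ℂ)) (c : ℕ → ℂ) (t : ℕ → ℕ) (X : ℕ → Fin (NN + 1) → Fin (NN + 1) → A),
    R27_Hom k T →
    (∀ i < k, ∀ r s : Fin (NN + 1), X i r s =
      c i • (if (r : ℕ) = t i ∧ (s : ℕ) = t i + 1 then a (t i) else 0)) →
    ampX k r0 l T X = if (∀ i < k, t i = (r0 : ℕ) + i) ∧ (l : ℕ) = (r0 : ℕ) + k then
      (∏ i ∈ range k, c i) • T (fun i => a ((r0 : ℕ) + i)) else 0 := by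
  intro k
  induction k with
  | zero =>
    intro r0 T c t X hT _
    rw [ampX]
    by_cases h : r0 = l
    · subst h
      rw [if_pos rfl, if_pos ⟨fun i hi => absurd hi (by omega), rfl⟩]
      simp only [range_zero, prod_empty, one_smul]
      exact hT.dep _ _ (fun i hi => absurd hi (by omega))
    · rw [if_neg h, if_neg]
      rintro ⟨-, h2⟩
      exact h (Fin.ext (by omega))
  | succ k ih =>
    intro r0 T c t X hT hX
    rw [ampX]
    have h1 : ∀ j : Fin (NN + 1),
        ampX k j l (fun b => T (cons (X 0 r0 j) b)) (fun i => X (i + 1)) =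
        if (∀ i < k, t (i + 1) = (j : ℕ) + i) ∧ (l : ℕ) = (j : ℕ) + k then
          (∏ i ∈ range k, c (i + 1)) • T (cons (X 0 r0 j) (fun i => a ((j : ℕ) + i))) else 0 :=
      fun j => ih j (fun b => T (cons (X 0 r0 j) b)) (fun i => c (i + 1)) (fun i => t (i + 1))
        (fun i => X (i + 1)) (R27_hom_cons hT _) (fun i hi r s => hX (i + 1) (by omega) r s)
    simp only [h1]
    -- vanishing of the wrong terms
    have h2 : ∀ j : Fin (NN + 1), ¬ ((r0 : ℕ) = t 0 ∧ (j : ℕ) = t 0 + 1) →
        (if (∀ i < k, t (i + 1) = (j : ℕ) + i) ∧ (l : ℕ) = (j : ℕ) + k then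
          (∏ i ∈ range k, c (i + 1)) • T (cons (X 0 r0 j) (fun i => a ((j : ℕ) + i))) else 0) =
          (0 : A →L[ℂ] ℂ) := by
      intro j hj
      have h3 : X 0 r0 j = 0 := by
        rw [hX 0 (by omega), if_neg hj, smul_zero]
      have h4 : T (cons (X 0 r0 j) (fun i => a ((j : ℕ) + i))) = 0 :=
        R27_zero hT _ 0 (by omega) (by rw [R27_cons_zero, h3])
      rw [h4]
      split_ifs
      · ext y
        simp
      · rfl
    by_cases h0 : t 0 = (r0 : ℕ)
    · by_cases hp : (r0 : ℕ) + 1 < NN + 1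
      · rw [Finset.sum_eq_single (⟨(r0 : ℕ) + 1, hp⟩ : Fin (NN + 1))]
        · by_cases hc : (∀ i < k, t (i + 1) = (r0 : ℕ) + 1 + i) ∧ (l : ℕ) = (r0 : ℕ) + 1 + k
          · rw [if_pos hc, if_pos]
            · have h3 : X 0 r0 ⟨(r0 : ℕ) + 1, hp⟩ = c 0 • a (r0 : ℕ) := by
                rw [hX 0 (by omega), if_pos ⟨h0.symm, by rw [h0]⟩, h0]
              rw [h3]
              have h4 : cons (c 0 • a (r0 : ℕ)) (fun i => a ((r0 : ℕ) + 1 + i)) =
                  Function.update (fun i => a ((r0 : ℕ) + i)) 0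
                    (c 0 • (fun i => a ((r0 : ℕ) + i)) 0) := by
                funext i
                rcases i with _ | i
                · rw [R27_cons_zero, Function.update_self]
                  rfl
                · rw [R27_cons_succ, Function.update_of_ne (by omega)]
                  exact congrArg a (by omega)
              have h5 : T (cons (c 0 • a (r0 : ℕ)) (fun i => a ((r0 : ℕ) + 1 + i))) =
                  c 0 • T (fun i => a ((r0 : ℕ) + i)) := by
                rw [h4]
                exact hT.hom (fun i => a ((r0 : ℕ) + i)) 0 (c 0) (by omega)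
              show (∏ i ∈ range k, c (i + 1)) •
                T (cons (c 0 • a (r0 : ℕ)) (fun i => a ((r0 : ℕ) + 1 + i))) = _
              rw [h5, smul_smul, Finset.prod_range_succ']
            · refine ⟨fun i hi => ?_, by omega⟩
              rcases i with _ | i
              · rw [h0]; rfl
              · rw [hc.1 i (by omega)]
                omega
          · rw [if_neg hc, if_neg]
            rintro ⟨h3, h4⟩
            apply hc
            refine ⟨fun i hi => ?_, by omega⟩
            rw [h3 (i + 1) (by omega)]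
            omega
        · intro j _ hj
          apply h2
          rintro ⟨-, h4⟩
          apply hj
          apply Fin.ext
          show (j : ℕ) = (r0 : ℕ) + 1
          omega
        · intro h
          exact absurd (Finset.mem_univ _) h
      · rw [if_neg, Finset.sum_eq_zero]
        · intro j _
          apply h2
          rintro ⟨-, h4⟩
          have := j.2
          omega
        · rintro ⟨-, h4⟩
          have := l.2
          omega
    · rw [if_neg, Finset.sum_eq_zero]
      · intro j _
        apply h2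
        rintro ⟨h3, -⟩
        exact h0 h3.symm
      · rintro ⟨h3, -⟩
        exact h0 (by rw [h3 0 (by omega)]; rfl)

theorem R27_prod (n : ℕ) : ∏ i ∈ range n, (if Even i then (1 : ℂ) else -1) = (-1 : ℂ) ^ (n / 2) := by
  induction n with
  | zero => simp
  | succ n ih =>
    rw [Finset.prod_range_succ, ih]
    by_cases h : Even n
    · rw [if_pos h, mul_one]
      obtain ⟨m, hm⟩ := h
      congr 1
      omega
    · rw [if_neg h]
      rw [Nat.not_even_iff_odd] at h
      obtain ⟨m, hm⟩ := h
      have h1 : (n + 1) / 2 = n / 2 + 1 := by omega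
      rw [h1, pow_succ]

theorem ampMX_word {n : ℕ} {T : (ℕ → A) → (A →L[ℂ] ℂ)} (hT : IsB n T) (a : ℕ → A) (σ : Fin n → Fin n)
    (hσ : Function.Injective σ) :
    ent 0 (Fin.last n) (ampMX n T (word n (Lt n a) σ))
      = if ∀ q, σ q = q then ((-1 : ℂ) ^ (n / 2)) • T a else 0 := by
  have hbij : Function.Bijective σ := Finite.injective_iff_bijective.mp hσ
  let e : Fin n ≃ Fin n := Equiv.ofBijective σ hbij
  let t : ℕ → ℕ := fun i => if h : i < n then (e.symm ⟨i, h⟩ : ℕ) else 0
  obtain ⟨hw, -⟩ := word_inj n (Lt n a) σ hσ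
  have hX : ∀ i < n, ∀ r s : Fin (n + 1), word n (Lt n a) σ i r s =
      (if Even i then (1 : ℂ) else -1) •
        (if (r : ℕ) = t i ∧ (s : ℕ) = t i + 1 then a (t i) else 0) := by
    intro i hi r s
    have ht : t i = (e.symm ⟨i, hi⟩ : ℕ) := dif_pos hi
    have hs : σ (e.symm ⟨i, hi⟩) = ⟨i, hi⟩ := e.apply_symm_apply ⟨i, hi⟩
    have h1 := hw (e.symm ⟨i, hi⟩)
    rw [hs] at h1
    have h2 : word n (Lt n a) σ i =
        if Even i then Lt n a (t i) else -(Lt n a (t i)) := by
      rw [ht]
      exact h1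
    rw [h2]
    have h3 : Lt n a (t i) r s = if (r : ℕ) = t i ∧ (s : ℕ) = t i + 1 then a (t i) else 0 := rfl
    split_ifs with h4 h5
    · rw [h3, if_pos h5, one_smul]
    · rw [h3, if_neg h5, smul_zero]
    · rw [CStarMatrix.neg_apply, h3, if_pos (by assumption), neg_smul, one_smul]
    · rw [CStarMatrix.neg_apply, h3, if_neg (by assumption), neg_zero, smul_zero]
  have h := R27_amp n a (Fin.last n) n 0 T (fun i => if Even i then (1 : ℂ) else -1) t
    (fun i p q => word n (Lt n a) σ i p q) (R27_hom_of hT) hX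
  have h0 : ent 0 (Fin.last n) (ampMX n T (word n (Lt n a) σ)) =
      ampX n 0 (Fin.last n) T (fun i p q => word n (Lt n a) σ i p q) := ent_ampMX hT _ _ _
  rw [h0, h, R27_prod]
  have h1 : (fun i => a (((0 : Fin (n + 1)) : ℕ) + i)) = a := by
    funext i
    simp
  rw [h1]
  by_cases hc : ∀ q, σ q = q
  · rw [if_pos hc, if_pos]
    refine ⟨fun i hi => ?_, by simp⟩
    have ht : t i = (e.symm ⟨i, hi⟩ : ℕ) := dif_pos hi
    have h2 : e.symm ⟨i, hi⟩ = ⟨i, hi⟩ := by
      rw [Equiv.symm_apply_eq]
      exact (hc ⟨i, hi⟩).symm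
    rw [ht, h2]
    simp
  · rw [if_neg hc, if_neg]
    rintro ⟨h2, -⟩
    apply hc
    intro q
    have h3 := h2 (q : ℕ) q.2
    have ht : t (q : ℕ) = (e.symm ⟨(q : ℕ), q.2⟩ : ℕ) := dif_pos q.2
    have h4 : e.symm q = q := by
      apply Fin.ext
      have h5 : (e.symm ⟨(q : ℕ), q.2⟩ : ℕ) = (q : ℕ) := by
        rw [← ht, h3]
        simp
      exact h5
    have h6 : e (e.symm q) = q := e.apply_symm_apply q
    rw [h4] at h6
    exact h6

end H730HC
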