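import Pool.Agent.H730R3.HD.Defs
import Pool.Agent.H730R3.HD.R28
import Pool.Agent.H730R3.HD.R39
import Pool.Agent.H730R3.HD.R23
import Pool.Agent.H730R3.HC.Final

set_option autoImplicit false

namespace H730HC

open Finset
open scoped ComplexConjugate

universe u v

variable {A : Type u} [CStarAlgebra A] {τ : A →ₗ[ℂ] ℂ}

attribute [local instance] CStarAlgebra.spectralOrder CStarAlgebra.spectralOrderedRing



theorem R29_ent_zero {J : ℕ} (k l : Fin J) :
    ent k l (0 : CStarMatrix (Fin J) (Fin J) A →L[ℂ] ℂ) = 0 := by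
  have h := ent_add k l (0 : CStarMatrix (Fin J) (Fin J) A →L[ℂ] ℂ) 0
  have h2 : (0 : CStarMatrix (Fin J) (Fin J) A →L[ℂ] ℂ) + 0 = 0 := add_zero _
  rw [h2] at h
  have h3 : ent k l (0 : CStarMatrix (Fin J) (Fin J) A →L[ℂ] ℂ) + 0 =
      ent k l (0 : CStarMatrix (Fin J) (Fin J) A →L[ℂ] ℂ) + ent k l 0 := by
    rw [add_zero]
    exact h
  exact (add_left_cancel h3).symm

theorem SumX_noninj {m d : ℕ} {Λ : (ℕ → CStarMatrix (Fin (m + 1 + 1)) (Fin (m + 1 + 1)) A) →
      (CStarMatrix (Fin (m + 1 + 1)) (Fin (m + 1 + 1)) A →L[ℂ] ℂ)} (hΛ : IsB d Λ) (σ : Fin (m + 1) → Fin d)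
    (hσ : ¬ Function.Injective σ) :
    SumX m 0 (fun a : ℕ → A => ent 0 (Fin.last (m + 1)) (Λ (word (m + 1) (Lt (m + 1) a) σ))) := by
  have hf : IsB (m + 1)
      (fun a : ℕ → A => ent 0 (Fin.last (m + 1)) (Λ (word (m + 1) (Lt (m + 1) a) σ))) :=
    IsB_word_X hΛ σ 0 (Fin.last (m + 1))
  rcases word_gap.{u} (m + 1) σ hσ with ⟨q, hq, h1, h2⟩ | ⟨m0, h0⟩
  · refine SumX_Mid (q := q) (by omega) hf ?_
    intro a
    have key : word (m + 1) (Lt (m + 1) a) σ = word (m + 1)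
        (Lt (m + 1) (Function.update (Function.update a q (a q * a (q + 1))) (q + 1) 1)) σ := by
      funext mm
      refine word_congr_pair (m + 1) _ _ σ q hq ?_ h1 h2 (Lt_pair (m + 1) a q) mm
      intro k hk1 hk2
      apply Lt_congr
      rw [Function.update_of_ne hk2, Function.update_of_ne hk1]
    show ent 0 (Fin.last (m + 1)) (Λ (word (m + 1) (Lt (m + 1) a) σ)) = _
    rw [key]
  · have hzero : (fun a : ℕ → A => ent 0 (Fin.last (m + 1))
        (Λ (word (m + 1) (Lt (m + 1) a) σ))) = fun _ => (0 : A →L[ℂ] ℂ) := by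
      funext a
      have h3 : word (m + 1) (Lt (m + 1) a) σ (m0 : ℕ) = 0 :=
        h0 _ (Lt (m + 1) a) (Lt_mul (m + 1) a)
      have h4 : Λ (word (m + 1) (Lt (m + 1) a) σ) = 0 := by
        have h5 := hΛ.smul (word (m + 1) (Lt (m + 1) a) σ) m0 0 0 m0.2
        have h6 : Function.update (word (m + 1) (Lt (m + 1) a) σ) (m0 : ℕ)
            ((0 : ℂ) • (0 : CStarMatrix (Fin (m + 1 + 1)) (Fin (m + 1 + 1)) A)) =
            word (m + 1) (Lt (m + 1) a) σ := by
          rw [smul_zero, ← h3, Function.update_eq_self]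
        rw [h6] at h5
        rw [h5]
        exact ContinuousLinearMap.ext fun Y => zero_smul ℂ _
      rw [h4]
      exact R29_ent_zero 0 (Fin.last (m + 1))
    rw [hzero]
    exact SumX_zero m

end H730HC
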