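import Pool.Agent.H730R3.HD.Defs
import Pool.Agent.H730R3.HD.R14
import Pool.Agent.H730R3.HD.R23
import Pool.Agent.H730R3.HD.R28
import Pool.Agent.H730R3.HD.R39
import Pool.Agent.H730R3.HC.Final

set_option autoImplicit false

namespace H730HC

open Finset
open scoped ComplexConjugate

universe u v

variable {A : Type u} [CStarAlgebra A] {τ : A →ₗ[ℂ] ℂ}

attribute [local instance] CStarAlgebra.spectralOrder CStarAlgebra.spectralOrderedRing



private theorem R30_congr {m : ℕ} (σ : Fin (m + 1) → Fin (m + 1)) (hσ : Function.Injective σ)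
    (a b : ℕ → A) (k : ℕ) (h : ∀ q : Fin (m + 1), (σ q : ℕ) = k → a q = b q) :
    word (m + 1) (Lt (m + 1) a) σ k = word (m + 1) (Lt (m + 1) b) σ k := by
  by_cases hk : ∃ q : Fin (m + 1), (σ q : ℕ) = k
  · obtain ⟨q, hq⟩ := hk
    have h1 := (word_inj (m + 1) (Lt (m + 1) a) σ hσ).1 q
    have h2 := (word_inj (m + 1) (Lt (m + 1) b) σ hσ).1 q
    rw [hq] at h1 h2
    rw [h1, h2, Lt_congr (m + 1) a b q (h q hq)]
  · push Not at hk
    rw [(word_inj (m + 1) (Lt (m + 1) a) σ hσ).2 k hk, (word_inj (m + 1) (Lt (m + 1) b) σ hσ).2 k hk]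

private theorem R30_surj {m : ℕ} (σ : Fin (m + 1) → Fin (m + 1)) (hσ : Function.Injective σ)
    (k : ℕ) (hk : k < m + 1) : ∃ q : Fin (m + 1), (σ q : ℕ) = k := by
  obtain ⟨q, hq⟩ := (Finite.injective_iff_surjective.1 hσ) ⟨k, hk⟩
  exact ⟨q, by rw [hq]⟩

private theorem R30_letter {m : ℕ} (σ : Fin (m + 1) → Fin (m + 1)) (hσ : Function.Injective σ)
    (a : ℕ → A) (q : Fin (m + 1)) (k : ℕ) (hq : (σ q : ℕ) = k) :
    word (m + 1) (Lt (m + 1) a) σ k = if Even k then Lt (m + 1) a q else -(Lt (m + 1) a q) := by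
  have h1 := (word_inj (m + 1) (Lt (m + 1) a) σ hσ).1 q
  rw [hq] at h1
  exact h1

private theorem R30_zero {m p : ℕ} (hp : p < m)
    {P : (ℕ → CStarMatrix (Fin (m + 1 + 1)) (Fin (m + 1 + 1)) A) →
      (CStarMatrix (Fin (m + 1 + 1)) (Fin (m + 1 + 1)) A →L[ℂ] ℂ)} (hP : IsB m P)
    (Y : ℕ → CStarMatrix (Fin (m + 1 + 1)) (Fin (m + 1 + 1)) A) (hY : Y p = 0) : P Y = 0 := by
  have h := hP.smul Y p 0 0 hp
  rw [zero_smul, ← hY, Function.update_eq_self] at h
  refine h.trans ?_
  ext x
  simp

private theorem R30_ent_zero {J : ℕ} (k l : Fin J) :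
    ent k l (0 : CStarMatrix (Fin J) (Fin J) A →L[ℂ] ℂ) = 0 := by
  have h := ent_smul k l (0 : ℂ) (0 : CStarMatrix (Fin J) (Fin J) A →L[ℂ] ℂ)
  have e : (0 : ℂ) • (0 : CStarMatrix (Fin J) (Fin J) A →L[ℂ] ℂ) = 0 := by
    ext x
    simp
  rw [e] at h
  refine h.trans ?_
  ext x
  simp

private theorem R30_la_one (φ : A →L[ℂ] ℂ) : la (1 : A) φ = φ := by
  ext x
  simp [la]

private theorem R30_ra_one (φ : A →L[ℂ] ℂ) : ra φ (1 : A) = φ := by
  ext x
  simp [ra]

private theorem R30_ra_neg {B : Type u} [CStarAlgebra B] (φ : B →L[ℂ] ℂ) (b : B) :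
    ra φ (-b) = -(ra φ b) := by
  ext x
  simp [ra]

private theorem R30_ra_smul (c : ℂ) (φ : A →L[ℂ] ℂ) (b : A) :
    ra (c • φ) b = c • ra φ b := by
  ext x
  simp [ra]

theorem SumX_face {m i : ℕ} (hi : i ≤ m + 1) {P : (ℕ → CStarMatrix (Fin (m + 1 + 1)) (Fin (m + 1 + 1)) A) →
      (CStarMatrix (Fin (m + 1 + 1)) (Fin (m + 1 + 1)) A →L[ℂ] ℂ)} (hP : IsB m P)
    (σ : Fin (m + 1) → Fin (m + 1)) (hσ : Function.Injective σ) :
    SumX m 0 (fun a : ℕ → A => ent 0 (Fin.last (m + 1)) (fX m i P (word (m + 1) (Lt (m + 1) a) σ))) := by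
  have hB : IsB (m + 1) (fun a : ℕ → A =>
      ent 0 (Fin.last (m + 1)) (fX m i P (word (m + 1) (Lt (m + 1) a) σ))) :=
    IsB_word_X (IsB_fX hi hP) σ 0 (Fin.last (m + 1))
  have hzero : (∀ a : ℕ → A, ent 0 (Fin.last (m + 1))
        (fX m i P (word (m + 1) (Lt (m + 1) a) σ)) = 0) →
      SumX m 0 (fun a : ℕ → A =>
        ent 0 (Fin.last (m + 1)) (fX m i P (word (m + 1) (Lt (m + 1) a) σ))) := by
    intro h
    have : (fun a : ℕ → A => ent 0 (Fin.last (m + 1))
        (fX m i P (word (m + 1) (Lt (m + 1) a) σ))) = fun _ => 0 := funext h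
    rw [this]
    exact SumX_zero m
  by_cases h0 : i = 0
  · -- left face
    subst h0
    obtain ⟨q0, hq0⟩ := R30_surj σ hσ 0 (by omega)
    have hface : ∀ a : ℕ → A, ent 0 (Fin.last (m + 1))
        (fX m 0 P (word (m + 1) (Lt (m + 1) a) σ)) =
        if (q0 : ℕ) = 0 then la (a 0) (ent ⟨min 1 (m + 1), by omega⟩ (Fin.last (m + 1))
          (P (shift (word (m + 1) (Lt (m + 1) a) σ)))) else 0 := by
      intro a
      have e : fX m 0 P (word (m + 1) (Lt (m + 1) a) σ) =
          la (Lt (m + 1) a q0) (P (shift (word (m + 1) (Lt (m + 1) a) σ))) := by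
        unfold fX
        rw [if_pos rfl, R30_letter σ hσ a q0 0 hq0, if_pos Even.zero]
      rw [e, ent_la_Lt (m + 1) a q0 q0.2]
    by_cases hq : (q0 : ℕ) = 0
    · refine SumX_L hB fun a => ?_
      rw [hface, hface, if_pos hq, if_pos hq]
      have e : shift (word (m + 1) (Lt (m + 1) a) σ) =
          shift (word (m + 1) (Lt (m + 1) (Function.update a 0 1)) σ) := by
        funext k
        refine R30_congr σ hσ _ _ (k + 1) fun q hqk => ?_
        have : (q : ℕ) ≠ 0 := by
          intro h
          have : q = q0 := Fin.ext (by rw [h, hq])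
          rw [this, hq0] at hqk
          omega
        rw [Function.update_of_ne this]
      rw [← e, Function.update_self, R30_la_one]
    · exact hzero fun a => by rw [hface, if_neg hq]
  · by_cases hm : i ≤ m
    · -- middle face
      obtain ⟨p, rfl⟩ : ∃ p, i = p + 1 := ⟨i - 1, by omega⟩
      have hp : p < m := by omega
      obtain ⟨q, hq⟩ := R30_surj σ hσ p (by omega)
      obtain ⟨q', hq'⟩ := R30_surj σ hσ (p + 1) (by omega)
      have hface : ∀ Y : ℕ → CStarMatrix (Fin (m + 1 + 1)) (Fin (m + 1 + 1)) A,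
          fX m (p + 1) P Y = P (mu p Y) := by
        intro Y
        unfold fX
        rw [if_neg h0, if_pos hm, Nat.add_sub_cancel]
      have hprod : ∀ a : ℕ → A, word (m + 1) (Lt (m + 1) a) σ p *
          word (m + 1) (Lt (m + 1) a) σ (p + 1) = -(Lt (m + 1) a q * Lt (m + 1) a q') := by
        intro a
        rw [R30_letter σ hσ a q p hq, R30_letter σ hσ a q' (p + 1) hq']
        by_cases he : Even p
        · rw [if_pos he, if_neg (by rw [Nat.even_add_one]; exact fun h => h he), mul_neg]
        · rw [if_neg he, if_pos (by rw [Nat.even_add_one]; exact he), neg_mul]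
      by_cases hqq : (q' : ℕ) = q + 1
      · refine SumX_Mid (q := q) (by have := q'.2; omega) hB fun a => ?_
        rw [hface, hface]
        set a' : ℕ → A := Function.update (Function.update a q (a q * a (q + 1))) (q + 1) 1 with ha'
        have hmu : mu p (word (m + 1) (Lt (m + 1) a) σ) = mu p (word (m + 1) (Lt (m + 1) a') σ) := ?_
        · rw [hmu]
        funext k
        unfold mu
        have hne : ∀ r : Fin (m + 1), r ≠ q → r ≠ q' → a r = a' r := by
          intro r h1 h2
          rw [ha', Function.update_of_ne (fun h => h2 (Fin.ext (by rw [h, hqq]))),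
            Function.update_of_ne (fun h => h1 (Fin.ext h))]
        rcases lt_trichotomy k p with hk | hk | hk
        · rw [if_pos hk, if_pos hk]
          refine R30_congr σ hσ _ _ k fun r hr => hne r ?_ ?_
          · intro h; rw [h, hq] at hr; omega
          · intro h; rw [h, hq'] at hr; omega
        · subst hk
          rw [if_neg (lt_irrefl _), if_pos rfl, if_neg (lt_irrefl _), if_pos rfl, hprod, hprod, hqq,
            Lt_pair (m + 1) a q]
        · rw [if_neg (by omega), if_neg (by omega), if_neg (by omega), if_neg (by omega)]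
          refine R30_congr σ hσ _ _ (k + 1) fun r hr => hne r ?_ ?_
          · intro h; rw [h, hq] at hr; omega
          · intro h; rw [h, hq'] at hr; omega
      · refine hzero fun a => ?_
        rw [hface, R30_zero hp hP _ ?_]
        · exact R30_ent_zero 0 (Fin.last (m + 1))
        · unfold mu
          rw [if_neg (lt_irrefl _), if_pos rfl, hprod, Lt_mul (m + 1) a q q' hqq, neg_zero]
    · -- right face
      have him : i = m + 1 := by omega
      subst him
      obtain ⟨q1, hq1⟩ := R30_surj σ hσ m (by omega)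
      have hface : ∀ a : ℕ → A, ent 0 (Fin.last (m + 1)) (fX m (m + 1) P
          (word (m + 1) (Lt (m + 1) a) σ)) = (if Even m then (1 : ℂ) else -1) •
          (if (q1 : ℕ) + 1 = m + 1 then ra (ent 0 ⟨m + 1 - 1, by omega⟩
            (P (word (m + 1) (Lt (m + 1) a) σ))) (a q1) else 0) := by
        intro a
        have e : fX m (m + 1) P (word (m + 1) (Lt (m + 1) a) σ) =
            (if Even m then (1 : ℂ) else -1) •
              (ra (P (word (m + 1) (Lt (m + 1) a) σ)) (Lt (m + 1) a q1)) := by
          unfold fX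
          rw [if_neg h0, if_neg hm, R30_letter σ hσ a q1 m hq1]
          by_cases he : Even m
          · rw [if_pos he, if_pos he, one_smul]
          · rw [if_neg he, if_neg he, R30_ra_neg]
            ext x
            simp
        rw [e, ent_smul, ent_ra_Lt (m + 1) a q1 q1.2]
      by_cases hq : (q1 : ℕ) + 1 = m + 1
      · refine SumX_R hB fun a => ?_
        have hq' : (q1 : ℕ) = m := by omega
        rw [hface, hface, if_pos hq, if_pos hq]
        have e : P (word (m + 1) (Lt (m + 1) a) σ) =
            P (word (m + 1) (Lt (m + 1) (Function.update a m 1)) σ) := by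
          refine hP.dep _ _ fun k hk => ?_
          refine R30_congr σ hσ _ _ k fun q hqk => ?_
          have : (q : ℕ) ≠ m := by
            intro h
            have : q = q1 := Fin.ext (by rw [h, hq'])
            rw [this, hq1] at hqk
            omega
          rw [Function.update_of_ne this]
        rw [← e, hq', Function.update_self, R30_ra_one, R30_ra_smul]
      · refine hzero fun a => ?_
        rw [hface, if_neg hq]
        generalize (if Even m then (1 : ℂ) else -1) = c
        ext x
        simp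

end H730HC
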