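import Pool.Agent.H730R3.HD.Defs
import Pool.Agent.H730R3.HD.R23
import Pool.Agent.H730R3.HC.Final

set_option autoImplicit false

namespace H730HC

open Finset
open scoped ComplexConjugate

universe u v

variable {A : Type u} [CStarAlgebra A] {τ : A →ₗ[ℂ] ℂ}

attribute [local instance] CStarAlgebra.spectralOrder CStarAlgebra.spectralOrderedRing



theorem R37_sgl_apply {J : ℕ} (k l p q : Fin J) (x : A) :
    sgl k l x p q = if p = k ∧ q = l then x else 0 := rfl

theorem R37_sgl_mul {J : ℕ} (k l r : Fin J) (x y : A) :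
    sgl k l x * sgl l r y = sgl k r (x * y) := by
  ext p q
  rw [CStarMatrix.mul_apply, Finset.sum_eq_single l]
  · rw [R37_sgl_apply, R37_sgl_apply, R37_sgl_apply]
    by_cases h1 : p = k <;> by_cases h2 : q = r <;> simp [h1, h2]
  · intro j _ hj
    rw [R37_sgl_apply, if_neg (fun h => hj h.2), zero_mul]
  · intro h
    exact absurd (Finset.mem_univ _) h

theorem R37_sgl_mul_ne {J : ℕ} (k l l' r : Fin J) (h : l ≠ l') (x y : A) :
    sgl k l x * sgl l' r y = 0 := by
  ext p q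
  rw [CStarMatrix.mul_apply, CStarMatrix.zero_apply]
  refine Finset.sum_eq_zero fun j _ => ?_
  rw [R37_sgl_apply, R37_sgl_apply]
  by_cases h1 : j = l
  · rw [if_neg (c := j = l' ∧ q = r) (fun h2 => h (h1.symm.trans h2.1)), mul_zero]
  · rw [if_neg (c := p = k ∧ j = l) (fun h2 => h1 h2.2), zero_mul]

theorem R37_corner {J : ℕ} (k l r s : Fin J) (X : CStarMatrix (Fin J) (Fin J) A) (y : A) :
    sgl k l 1 * (X * sgl r s y) = sgl k s (X l r * y) := by
  ext p q
  rw [CStarMatrix.mul_apply, Finset.sum_eq_single l]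
  · rw [CStarMatrix.mul_apply, Finset.sum_eq_single r]
    · rw [R37_sgl_apply, R37_sgl_apply, R37_sgl_apply]
      by_cases h1 : p = k <;> by_cases h2 : q = s <;> simp [h1, h2]
    · intro j _ hj
      rw [R37_sgl_apply, if_neg (fun h => hj h.1), mul_zero]
    · intro h
      exact absurd (Finset.mem_univ _) h
  · intro j _ hj
    rw [R37_sgl_apply, if_neg (fun h => hj h.2), zero_mul]
  · intro h
    exact absurd (Finset.mem_univ _) h

theorem ent_tr (n : ℕ) (hn : 1 ≤ n) (φ : CStarMatrix (Fin (n + 1)) (Fin (n + 1)) A →L[ℂ] ℂ) (hφ : IsTr φ) :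
    ent 0 (Fin.last n) φ = 0 ∧ IsTr (ent 0 0 φ) ∧
      ∀ (X : CStarMatrix (Fin (n + 1)) (Fin (n + 1)) A) (l : Fin (n + 1)),
        ent 0 l (ra φ X) = ra (ent 0 0 φ) (X 0 l) := by
  have h0 : (0 : Fin (n + 1)) ≠ Fin.last n := by
    intro h
    have := congrArg Fin.val h
    simp at this
    omega
  refine ⟨?_, ?_, ?_⟩
  · ext y
    rw [ent_apply, ContinuousLinearMap.zero_apply]
    have h1 : sgl (Fin.last n) 0 y = sgl (Fin.last n) (Fin.last n) 1 * sgl (Fin.last n) 0 y := by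
      rw [R37_sgl_mul, one_mul]
    rw [h1, hφ, R37_sgl_mul_ne _ _ _ _ h0, map_zero]
  · intro x y
    rw [ent_apply, ent_apply, ← R37_sgl_mul 0 0 0 x y, hφ, R37_sgl_mul]
  · intro X l
    ext y
    rw [ent_apply]
    show φ (X * sgl l 0 y) = ent 0 0 φ (X 0 l * y)
    rw [ent_apply]
    have h1 : sgl l 0 y = sgl l 0 y * sgl (0 : Fin (n + 1)) 0 (1 : A) := by
      rw [R37_sgl_mul, mul_one]
    have h2 : X * sgl l 0 y = (X * sgl l 0 y) * sgl (0 : Fin (n + 1)) 0 (1 : A) := by
      rw [mul_assoc, ← h1]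
    rw [h2, hφ, R37_corner]

end H730HC
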