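import Pool.Agent.H730R3.HD.Defs
import Pool.Agent.H730R3.HD.R23
import Pool.Agent.H730R3.HD.R37
import Pool.Agent.H730R3.HD.R39
import Pool.Agent.H730R3.HD.R28
import Pool.Agent.H730R3.HC.Final

set_option autoImplicit false

namespace H730HC

open Finset
open scoped ComplexConjugate

universe u v

variable {A : Type u} [CStarAlgebra A] {τ : A →ₗ[ℂ] ℂ}

attribute [local instance] CStarAlgebra.spectralOrder CStarAlgebra.spectralOrderedRing



theorem R31_isB_pr (φ : A →L[ℂ] ℂ) (n : ℕ) :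
    IsB n (fun a : ℕ → A => ra φ (pr n a)) := by
  obtain ⟨L, hL⟩ : ∃ L : A →L[ℂ] (A →L[ℂ] ℂ), ∀ x, L x = ra φ x :=
    ⟨(ContinuousLinearMap.compL ℂ A A ℂ φ).comp (ContinuousLinearMap.mul ℂ A), fun _ => rfl⟩
  have h := IsB_comp (T31_pr (M := A) n) L
  simp only [hL] at h
  exact h

theorem R31_ra_zero (φ : A →L[ℂ] ℂ) : ra φ (0 : A) = 0 := by
  ext x
  simp [ra]

theorem SumX_Q {m d : ℕ} {Q : (ℕ → CStarMatrix (Fin (m + 1 + 1)) (Fin (m + 1 + 1)) A) →
      (CStarMatrix (Fin (m + 1 + 1)) (Fin (m + 1 + 1)) A →L[ℂ] ℂ)} (hd : Even d) (hQ : IsB d Q)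
    (hQc : ∀ X, IsTr (Q X)) (σ : Fin (m + 1) → Fin (d + 1)) :
    SumX m 0 (fun a : ℕ → A => ent 0 (Fin.last (m + 1)) (ra (Q (word (m + 1) (Lt (m + 1) a) σ))
      (word (m + 1) (Lt (m + 1) a) σ d))) := by
  have h1 : ∀ a : ℕ → A, ent 0 (Fin.last (m + 1)) (ra (Q (word (m + 1) (Lt (m + 1) a) σ))
      (word (m + 1) (Lt (m + 1) a) σ d)) =
      ra (ent 0 0 (Q (word (m + 1) (Lt (m + 1) a) σ)))
        (if ∀ q, (σ q : ℕ) = d then pr (m + 1) a else 0) := by
    intro a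
    rw [(ent_tr (m + 1) (by omega) _ (hQc _)).2.2,
      word_full (m + 1) (d + 1) (by omega) a σ d hd]
  simp only [h1]
  by_cases hσ : ∀ q, (σ q : ℕ) = d
  · simp only [if_pos hσ]
    have h2 : ∀ a : ℕ → A, Q (word (m + 1) (Lt (m + 1) a) σ) = Q (fun _ => 1) := by
      intro a
      apply hQ.dep
      intro k hk
      exact T31_word_one k (m + 1) _ σ (fun q => by rw [hσ q]; omega)
    simp only [h2]
    obtain ⟨φ, hφ⟩ : ∃ φ : A →L[ℂ] ℂ, φ = ent 0 0 (Q (fun _ => 1)) := ⟨_, rfl⟩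
    have hφc : IsTr φ := by
      rw [hφ]
      exact (ent_tr (m + 1) (by omega) _ (hQc _)).2.1
    rw [← hφ]
    apply SumX_L
    · exact R31_isB_pr φ (m + 1)
    · intro a
      simp only [pr, T31_shift_zero, Function.update_self, one_mul]
      ext x
      have h3 : φ (a 0 * pr m (shift a) * x) = φ (pr m (shift a) * (x * a 0)) := by
        rw [mul_assoc, hφc (a 0), mul_assoc]
      exact h3
  · simp only [if_neg hσ, R31_ra_zero]
    exact SumX_zero m

end H730HC
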