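import Pool.Agent.H730R3.HD.Defs
import Pool.Agent.H730R3.HD.R25
import Pool.Agent.H730R3.HD.R26
import Pool.Agent.H730R3.HC.Final

set_option autoImplicit false

namespace H730HC

open Finset
open scoped ComplexConjugate

universe u v

variable {A : Type u} [CStarAlgebra A] {τ : A →ₗ[ℂ] ℂ}

attribute [local instance] CStarAlgebra.spectralOrder CStarAlgebra.spectralOrderedRing



theorem R41_ampX_sum {J : ℕ} {B : Type*} [AddCommMonoid B] [Module ℂ B] {ι : Type*} (s : Finset ι)
    (c : ι → ℂ) : ∀ (n : ℕ) (k l : Fin J)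
    (T : ι → (ℕ → A) → B) (X : ℕ → Fin J → Fin J → A),
    ampX n k l (fun a => ∑ i ∈ s, c i • T i a) X = ∑ i ∈ s, c i • ampX n k l (T i) X := by
  intro n
  induction n with
  | zero =>
    intro k l T X
    unfold ampX
    split_ifs with h
    · rfl
    · simp
  | succ n ih =>
    intro k l T X
    simp only [ampX]
    have e : ∀ j : Fin J, ampX n j l (fun a => ∑ i ∈ s, c i • T i (cons (X 0 k j) a))
        (fun i => X (i + 1)) = ∑ i ∈ s, c i • ampX n j l (fun a => T i (cons (X 0 k j) a))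
        (fun i => X (i + 1)) := fun j => ih j l (fun i a => T i (cons (X 0 k j) a)) _
    simp only [e]
    rw [Finset.sum_comm]
    exact Finset.sum_congr rfl (fun i _ => (Finset.smul_sum).symm)

theorem R41_ampX_zero {J : ℕ} {B : Type*} [AddCommMonoid B] : ∀ (n : ℕ) (k l : Fin J)
    (X : ℕ → Fin J → Fin J → A), ampX n k l (fun _ : ℕ → A => (0 : B)) X = 0 := by
  intro n
  induction n with
  | zero => intro k l X; unfold ampX; simp
  | succ n ih =>
    intro k l X
    simp only [ampX, ih]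
    exact Finset.sum_const_zero

/-- entries as a continuous linear map -/
noncomputable def R41_entL {J : ℕ} (k l : Fin J) : CStarMatrix (Fin J) (Fin J) A →L[ℂ] A :=
  LinearMap.mkContinuous
    { toFun := fun Y => Y k l
      map_add' := fun _ _ => rfl
      map_smul' := fun _ _ => rfl } 1 (fun Y => by
        rw [one_mul]
        exact CStarMatrix.norm_entry_le_norm (M := Y) (i := k) (j := l))

theorem R41_apply {n J : ℕ} (T : (ℕ → A) → (A →L[ℂ] ℂ))
    (X : ℕ → CStarMatrix (Fin J) (Fin J) A) (Y : CStarMatrix (Fin J) (Fin J) A) :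
    ampMX n T X Y = ∑ k, ∑ l, ampX n k l T (fun i p q => X i p q) (Y l k) := by
  have h : ∃ φ : CStarMatrix (Fin J) (Fin J) A →L[ℂ] ℂ, ∀ Y, φ Y =
      ∑ k, ∑ l, ampX n k l T (fun i p q => X i p q) (Y l k) := by
    refine ⟨∑ k, ∑ l, (ampX n k l T (fun i p q => X i p q)).comp (R41_entL l k), fun Y => ?_⟩
    simp only [ContinuousLinearMap.sum_apply, ContinuousLinearMap.comp_apply]
    rfl
  unfold ampMX
  rw [dif_pos h]
  exact h.choose_spec Y

theorem ampMX_cocycle {m J : ℕ} {T : (ℕ → A) → (A →L[ℂ] ℂ)} (hT : IsB m T) (hc : ∀ a, dX m T a = 0)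
    (X : ℕ → CStarMatrix (Fin J) (Fin J) A) : dX m (ampMX m T) X = 0 := by
  have h1 : dX m (ampMX m T) X = ∑ i ∈ range (m + 2), ((-1 : ℂ) ^ i) •
      ampMX (m + 1) (fX m i T) X := by
    unfold dX
    refine Finset.sum_congr rfl (fun i hi => ?_)
    rw [ampMX_fX (by rw [mem_range] at hi; omega) hT]
  have h3 : (fun a => ∑ i ∈ range (m + 2), ((-1 : ℂ) ^ i) • fX m i T a) =
      fun _ => (0 : A →L[ℂ] ℂ) := by
    funext a
    exact hc a
  rw [h1]
  refine ContinuousLinearMap.ext (fun Y => ?_)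
  have h4 : ∀ k l : Fin J, ∑ i ∈ range (m + 2), ((-1 : ℂ) ^ i) •
      ampX (m + 1) k l (fX m i T) (fun i p q => X i p q) (Y l k) = 0 := by
    intro k l
    have h5 := R41_ampX_sum (A := A) (range (m + 2)) (fun i => (-1 : ℂ) ^ i) (m + 1) k l
      (fun i => fX m i T) (fun i p q => X i p q)
    rw [h3, R41_ampX_zero] at h5
    have h6 := congrArg (fun ψ : A →L[ℂ] ℂ => ψ (Y l k)) h5
    simp only [ContinuousLinearMap.zero_apply, ContinuousLinearMap.sum_apply,
      ContinuousLinearMap.smul_apply] at h6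
    exact h6.symm
  simp only [ContinuousLinearMap.sum_apply, ContinuousLinearMap.smul_apply, R41_apply,
    ContinuousLinearMap.zero_apply, Finset.smul_sum]
  rw [Finset.sum_comm]
  refine Finset.sum_eq_zero fun k _ => ?_
  rw [Finset.sum_comm]
  refine Finset.sum_eq_zero fun l _ => ?_
  exact h4 k l

end H730HC
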