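import Pool.Agent.H730R3.HD.Defs
import Pool.Agent.H730R3.HD.R14
import Pool.Agent.H730R3.HD.R39
import Pool.Agent.H730R3.HD.R18
import Pool.Agent.H730R3.HD.R21
import Pool.Agent.H730R3.HD.R23
import Pool.Agent.H730R3.HD.R37
import Pool.Agent.H730R3.HD.R24
import Pool.Agent.H730R3.HD.R25
import Pool.Agent.H730R3.HD.R05
import Pool.Agent.H730R3.HD.R41
import Pool.Agent.H730R3.HD.R27
import Pool.Agent.H730R3.HD.R29
import Pool.Agent.H730R3.HD.R30
import Pool.Agent.H730R3.HD.R31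
import Pool.Agent.H730R3.HC.Final

set_option autoImplicit false

namespace H730HC

open Finset
open scoped ComplexConjugate

universe u v

variable {A : Type u} [CStarAlgebra A] {τ : A →ₗ[ℂ] ℂ}

attribute [local instance] CStarAlgebra.spectralOrder CStarAlgebra.spectralOrderedRing




theorem R32_congr {m : ℕ} {f g : (ℕ → A) → (A →L[ℂ] ℂ)} (hf : SumX m 0 f) (h : ∀ a, g a = f a) :
    SumX m 0 g := by
  obtain ⟨w, hw, hs⟩ := hf
  exact ⟨w, hw, fun a => by rw [h a, hs a]⟩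

theorem R32_ent_zero {J : ℕ} (k l : Fin J) :
    ent k l (0 : CStarMatrix (Fin J) (Fin J) A →L[ℂ] ℂ) = 0 := by
  have h := ent_smul (A := A) k l (0 : ℂ) 0
  have h1 : ent k l ((0 : ℂ) • (0 : CStarMatrix (Fin J) (Fin J) A →L[ℂ] ℂ)) =
      ent k l (0 : CStarMatrix (Fin J) (Fin J) A →L[ℂ] ℂ) :=
    congrArg (ent k l) (zero_smul ℂ (0 : CStarMatrix (Fin J) (Fin J) A →L[ℂ] ℂ))
  have h2 : (0 : ℂ) • (ent k l (0 : CStarMatrix (Fin J) (Fin J) A →L[ℂ] ℂ)) = (0 : A →L[ℂ] ℂ) :=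
    zero_smul ℂ (ent k l (0 : CStarMatrix (Fin J) (Fin J) A →L[ℂ] ℂ))
  exact h1.symm.trans (h.trans h2)

theorem R32_alg {V : Type*} [AddCommGroup V] [Module ℂ V] (k : ℕ) (x : V) :
    x = (-((-1 : ℂ) ^ k)) • (-(((-1 : ℂ) ^ k) • x)) := by
  rw [neg_smul, smul_neg, neg_neg, smul_smul, ← mul_pow]
  norm_num

theorem R32_ent_sum {J : ℕ} {ι : Type*} (s : Finset ι)
    (f : ι → (CStarMatrix (Fin J) (Fin J) A →L[ℂ] ℂ))
    (k l : Fin J) : ent k l (∑ r ∈ s, f r) = ∑ r ∈ s, ent k l (f r) := by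
  classical
  induction s using Finset.induction_on with
  | empty => simp only [Finset.sum_empty]; exact R32_ent_zero k l
  | insert a s ha ih => rw [Finset.sum_insert ha, Finset.sum_insert ha, ent_add, ih]

/-- the terms attached to the amplification of `T` -/
theorem R32_F {m : ℕ} {T : (ℕ → A) → (A →L[ℂ] ℂ)} (hT : IsB (m + 1) T) :
    SumX m 0 (fun a : ℕ → A =>
      (∑ σ : Fin (m + 1) → Fin (m + 1),
        ent 0 (Fin.last (m + 1))
          (ampMX (J := m + 1 + 1) (m + 1) T (word (m + 1) (Lt (m + 1) a) σ)))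
        - ((-1 : ℂ) ^ ((m + 1) / 2)) • T a) := by
  classical
  have h1 : SumX m 0 (fun a : ℕ → A =>
      ∑ σ ∈ (univ : Finset (Fin (m + 1) → Fin (m + 1))).filter (fun σ => ¬ Function.Injective σ),
        ent 0 (Fin.last (m + 1))
          (ampMX (J := m + 1 + 1) (m + 1) T (word (m + 1) (Lt (m + 1) a) σ))) := by
    refine SumX_sum _ fun σ hσ => ?_
    exact SumX_noninj (IsB_ampMX hT) σ (Finset.mem_filter.1 hσ).2
  refine R32_congr h1 fun a => ?_
  rw [← Finset.sum_filter_add_sum_filter_not univ (fun σ : Fin (m + 1) → Fin (m + 1) =>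
    Function.Injective σ)]
  have h2 : ∑ σ ∈ (univ : Finset (Fin (m + 1) → Fin (m + 1))).filter (fun σ => Function.Injective σ),
      ent 0 (Fin.last (m + 1))
        (ampMX (J := m + 1 + 1) (m + 1) T (word (m + 1) (Lt (m + 1) a) σ))
      = ((-1 : ℂ) ^ ((m + 1) / 2)) • T a := by
    rw [Finset.sum_congr rfl (fun σ hσ => ampMX_word hT a σ (Finset.mem_filter.1 hσ).2)]
    rw [Finset.sum_eq_single (fun q => q)]
    · simp
    · intro σ _ hne
      rw [if_neg]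
      intro h
      exact hne (funext h)
    · intro h
      exact absurd (Finset.mem_filter.2 ⟨Finset.mem_univ _, fun x y hxy => hxy⟩) h
  rw [h2]
  abel

theorem R32_face {m i : ℕ} (hi : i ≤ m + 1) {P : (ℕ → CStarMatrix (Fin (m + 1 + 1)) (Fin (m + 1 + 1)) A) →
      (CStarMatrix (Fin (m + 1 + 1)) (Fin (m + 1 + 1)) A →L[ℂ] ℂ)} (hP : IsB m P) :
    SumX m 0 (fun a : ℕ → A =>
      ∑ σ : Fin (m + 1) → Fin (m + 1),
        ent 0 (Fin.last (m + 1)) (((-1 : ℂ) ^ i) • fX m i P (word (m + 1) (Lt (m + 1) a) σ))) := by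
  refine SumX_sum _ fun σ _ => ?_
  refine R32_congr (SumX_smul ((-1 : ℂ) ^ i) (?_ : SumX m 0 (fun a : ℕ → A =>
    ent 0 (Fin.last (m + 1)) (fX m i P (word (m + 1) (Lt (m + 1) a) σ))))) fun a => ?_
  · by_cases hσ : Function.Injective σ
    · exact SumX_face hi hP σ hσ
    · exact SumX_noninj (IsB_fX hi hP) σ hσ
  · rw [ent_smul]

/-- the degrees -/
def R32_d (m e : ℕ) : ℕ → ℕ
  | 0 => m + 1
  | 1 => e
  | _ + 2 => m + 1

/-- the family of terms -/
noncomputable def R32_L {N : Type u} [CStarAlgebra N] (m : ℕ) (F q : (ℕ → N) → (N →L[ℂ] ℂ))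
    (P : ℕ → (ℕ → N) → (N →L[ℂ] ℂ)) : ℕ → (ℕ → N) → (N →L[ℂ] ℂ)
  | 0 => F
  | 1 => fun X => (-1 : ℂ) • q X
  | i + 2 => fun X => ((-1 : ℂ) ^ i) • fX m i (P i) X

theorem R32_core {m : ℕ} {T : (ℕ → A) → (A →L[ℂ] ℂ)} (hT : IsB (m + 1) T)
    (P : ℕ → (ℕ → CStarMatrix (Fin (m + 1 + 1)) (Fin (m + 1 + 1)) A) →
      (CStarMatrix (Fin (m + 1 + 1)) (Fin (m + 1 + 1)) A →L[ℂ] ℂ)) (hP : ∀ i, IsB m (P i)) (e : ℕ)
    (q : (ℕ → CStarMatrix (Fin (m + 1 + 1)) (Fin (m + 1 + 1)) A) →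
      (CStarMatrix (Fin (m + 1 + 1)) (Fin (m + 1 + 1)) A →L[ℂ] ℂ)) (hq : IsB e q)
    (hqS : ∀ σ : Fin (m + 1) → Fin e, SumX m 0 (fun a : ℕ → A =>
      ent 0 (Fin.last (m + 1)) (q (word (m + 1) (Lt (m + 1) a) σ))))
    (h0 : ∀ g : unitary (CStarMatrix (Fin (m + 1 + 1)) (Fin (m + 1 + 1)) A),
      ampMX (m + 1) T (al (g : CStarMatrix (Fin (m + 1 + 1)) (Fin (m + 1 + 1)) A)) =
        q (al (g : CStarMatrix (Fin (m + 1 + 1)) (Fin (m + 1 + 1)) A)) -
          ∑ i ∈ range (m + 2), ((-1 : ℂ) ^ i) •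
            fX m i (P i) (al (g : CStarMatrix (Fin (m + 1 + 1)) (Fin (m + 1 + 1)) A))) :
    SumX m 0 T := by
  have hB : ∀ r ∈ range (m + 4), IsB (R32_d m e r) (R32_L m (ampMX (m + 1) T) q P r) := by
    intro r hr
    rw [Finset.mem_range] at hr
    match r, hr with
    | 0, _ => exact IsB_ampMX hT
    | 1, _ => exact IsB_smul (-1 : ℂ) hq
    | i + 2, hr => exact IsB_smul ((-1 : ℂ) ^ i) (IsB_fX (by omega) (hP i))
  have hS : ∀ g : unitary (CStarMatrix (Fin (m + 1 + 1)) (Fin (m + 1 + 1)) A),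
      ∑ r ∈ range (m + 4), R32_L m (ampMX (m + 1) T) q P r
        (al (g : CStarMatrix (Fin (m + 1 + 1)) (Fin (m + 1 + 1)) A)) = 0 := by
    intro g
    rw [Finset.sum_range_succ', Finset.sum_range_succ']
    have h1 := h0 g
    have h2 : ∑ i ∈ range (m + 2), R32_L m (ampMX (m + 1) T) q P (i + 1 + 1)
        (al (g : CStarMatrix (Fin (m + 1 + 1)) (Fin (m + 1 + 1)) A)) =
        ∑ i ∈ range (m + 2), ((-1 : ℂ) ^ i) •
            fX m i (P i) (al (g : CStarMatrix (Fin (m + 1 + 1)) (Fin (m + 1 + 1)) A)) :=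
      Finset.sum_congr rfl fun i _ => rfl
    have h3 : R32_L m (ampMX (m + 1) T) q P (0 + 1)
        (al (g : CStarMatrix (Fin (m + 1 + 1)) (Fin (m + 1 + 1)) A)) =
        -(q (al (g : CStarMatrix (Fin (m + 1 + 1)) (Fin (m + 1 + 1)) A))) := by
      exact neg_one_smul ℂ (q (al (g : CStarMatrix (Fin (m + 1 + 1)) (Fin (m + 1 + 1)) A)))
    have h4 : R32_L m (ampMX (m + 1) T) q P 0
        (al (g : CStarMatrix (Fin (m + 1 + 1)) (Fin (m + 1 + 1)) A)) =
        ampMX (m + 1) T (al (g : CStarMatrix (Fin (m + 1 + 1)) (Fin (m + 1 + 1)) A)) := rfl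
    rw [h2, h3, h4, h1]
    abel
  have hpol : ∀ a : ℕ → A, ∑ r ∈ range (m + 4), ∑ σ : Fin (m + 1) → Fin (R32_d m e r),
      ent 0 (Fin.last (m + 1))
        (R32_L m (ampMX (m + 1) T) q P r (word (m + 1) (Lt (m + 1) a) σ)) = 0 := by
    intro a
    have h := pol_B (range (m + 4)) (R32_d m e) (R32_L m (ampMX (m + 1) T) q P) hB hS (m + 1)
      (Lt (m + 1) a)
    have h' := congrArg (fun Y : CStarMatrix (Fin (m + 1 + 1)) (Fin (m + 1 + 1)) A →L[ℂ] ℂ =>
      ent 0 (Fin.last (m + 1)) Y) h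
    simp only [R32_ent_sum, R32_ent_zero] at h'
    exact h'
  have hfa : ∀ i ∈ range (m + 2), SumX m 0 (fun a : ℕ → A =>
      ∑ σ : Fin (m + 1) → Fin (m + 1),
        ent 0 (Fin.last (m + 1))
          (((-1 : ℂ) ^ i) • fX m i (P i) (word (m + 1) (Lt (m + 1) a) σ))) := by
    intro i hi
    rw [Finset.mem_range] at hi
    exact R32_face (by omega) (hP i)
  have hfs := SumX_sum (range (m + 2)) hfa
  have hqs : SumX m 0 (fun a : ℕ → A => ∑ σ : Fin (m + 1) → Fin e,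
      ent 0 (Fin.last (m + 1)) (q (word (m + 1) (Lt (m + 1) a) σ))) := SumX_sum _ fun σ _ => hqS σ
  have hF := R32_F hT
  have htot := SumX_smul (-((-1 : ℂ) ^ ((m + 1) / 2)))
    (SumX_add (SumX_add hF (SumX_smul (-1 : ℂ) hqs)) hfs)
  refine R32_congr htot fun a => ?_
  have h := hpol a
  rw [Finset.sum_range_succ', Finset.sum_range_succ'] at h
  have h3 : ∑ σ : Fin (m + 1) → Fin (R32_d m e (0 + 1)),
      ent 0 (Fin.last (m + 1))
        (R32_L m (ampMX (m + 1) T) q P (0 + 1) (word (m + 1) (Lt (m + 1) a) σ))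
      = (-1 : ℂ) • ∑ σ : Fin (m + 1) → Fin e,
        ent 0 (Fin.last (m + 1)) (q (word (m + 1) (Lt (m + 1) a) σ)) := by
    rw [Finset.smul_sum]
    refine Finset.sum_congr rfl fun σ _ => ?_
    show ent 0 (Fin.last (m + 1)) ((-1 : ℂ) • q (word (m + 1) (Lt (m + 1) a) σ)) = _
    rw [ent_smul]
    rfl
  rw [h3] at h
  have h2 : ∑ i ∈ range (m + 2), ∑ σ : Fin (m + 1) → Fin (R32_d m e (i + 1 + 1)),
      ent 0 (Fin.last (m + 1))
        (R32_L m (ampMX (m + 1) T) q P (i + 1 + 1) (word (m + 1) (Lt (m + 1) a) σ)) =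
      ∑ i ∈ range (m + 2), ∑ σ : Fin (m + 1) → Fin (m + 1),
        ent 0 (Fin.last (m + 1))
          (((-1 : ℂ) ^ i) • fX m i (P i) (word (m + 1) (Lt (m + 1) a) σ)) := rfl
  rw [h2] at h
  have h4 : ∑ σ : Fin (m + 1) → Fin (R32_d m e 0),
      ent 0 (Fin.last (m + 1))
        (R32_L m (ampMX (m + 1) T) q P 0 (word (m + 1) (Lt (m + 1) a) σ)) =
      ∑ σ : Fin (m + 1) → Fin (m + 1),
        ent 0 (Fin.last (m + 1))
          (ampMX (J := m + 1 + 1) (m + 1) T (word (m + 1) (Lt (m + 1) a) σ)) := rfl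
  rw [h4] at h
  set A1 := ∑ i ∈ range (m + 2), ∑ σ : Fin (m + 1) → Fin (m + 1),
        ent 0 (Fin.last (m + 1))
          (((-1 : ℂ) ^ i) • fX m i (P i) (word (m + 1) (Lt (m + 1) a) σ)) with hA1
  set A2 := ∑ σ : Fin (m + 1) → Fin e,
        ent 0 (Fin.last (m + 1)) (q (word (m + 1) (Lt (m + 1) a) σ)) with hA2
  set A3 := ∑ σ : Fin (m + 1) → Fin (m + 1),
        ent 0 (Fin.last (m + 1))
          (ampMX (J := m + 1 + 1) (m + 1) T (word (m + 1) (Lt (m + 1) a) σ)) with hA3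
  have h5 : A3 - ((-1 : ℂ) ^ ((m + 1) / 2)) • T a + (-1 : ℂ) • A2 + A1 =
      -(((-1 : ℂ) ^ ((m + 1) / 2)) • T a) := by
    have h6 : A3 - ((-1 : ℂ) ^ ((m + 1) / 2)) • T a + (-1 : ℂ) • A2 + A1 =
      (A1 + (-1 : ℂ) • A2 + A3) - ((-1 : ℂ) ^ ((m + 1) / 2)) • T a := by abel
    rw [h6, h, zero_sub]
  rw [h5]
  exact R32_alg _ _

theorem R32_ra_add {N : Type u} [CStarAlgebra N] (φ : N →L[ℂ] ℂ) (x y : N) :
    ra φ (x + y) = ra φ x + ra φ y := by
  ext z
  simp [ra, add_mul]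

theorem R32_ra_smul {N : Type u} [CStarAlgebra N] (φ : N →L[ℂ] ℂ) (c : ℂ) (x : N) :
    ra φ (c • x) = c • ra φ x := by
  ext z
  simp [ra]

theorem R32_add_ra {N : Type u} [CStarAlgebra N] (φ ψ : N →L[ℂ] ℂ) (x : N) :
    ra (φ + ψ) x = ra φ x + ra ψ x := by
  ext z
  simp [ra]

theorem R32_smul_ra {N : Type u} [CStarAlgebra N] (c : ℂ) (φ : N →L[ℂ] ℂ) (x : N) :
    ra (c • φ) x = c • ra φ x := by
  ext z
  simp [ra]

theorem R32_norm_ra {N : Type u} [CStarAlgebra N] (φ : N →L[ℂ] ℂ) (x : N) :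
    ‖ra φ x‖ ≤ ‖φ‖ * ‖x‖ := by
  unfold ra
  exact (ContinuousLinearMap.opNorm_comp_le _ _).trans
    (mul_le_mul_of_nonneg_left (ContinuousLinearMap.opNorm_mul_apply_le ℂ N x) (norm_nonneg _))

theorem R32_mulB {N : Type u} [CStarAlgebra N]
    {n : ℕ} {Q : (ℕ → N) → (N →L[ℂ] ℂ)} (hQ : IsB n Q) :
    IsB (n + 1) (fun X => ra (Q X) (X n)) := by
  obtain ⟨hdep, hadd, hsmul, C, hC, hbd⟩ := hQ
  refine ⟨?_, ?_, ?_, C, hC, ?_⟩
  · intro a b h
    show ra (Q a) (a n) = ra (Q b) (b n)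
    rw [hdep a b fun k hk => h k (by omega), h n (by omega)]
  · intro a k x y hk
    show ra (Q (Function.update a k (x + y))) (Function.update a k (x + y) n) = _
    rcases Nat.lt_or_ge k n with h | h
    · rw [hadd a k x y h, R32_add_ra]
      simp only [Function.update_of_ne (show n ≠ k by omega)]
    · have hkn : k = n := by omega
      subst hkn
      have hu : ∀ z : N, Q (Function.update a k z) = Q a := fun z =>
        hdep _ _ fun i hi => by rw [Function.update_of_ne (show i ≠ k by omega)]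
      simp only [hu, Function.update_self, R32_ra_add]
  · intro a k c x hk
    show ra (Q (Function.update a k (c • x))) (Function.update a k (c • x) n) = _
    rcases Nat.lt_or_ge k n with h | h
    · rw [hsmul a k c x h, R32_smul_ra]
      simp only [Function.update_of_ne (show n ≠ k by omega)]
    · have hkn : k = n := by omega
      subst hkn
      have hu : ∀ z : N, Q (Function.update a k z) = Q a := fun z =>
        hdep _ _ fun i hi => by rw [Function.update_of_ne (show i ≠ k by omega)]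
      simp only [hu, Function.update_self, R32_ra_smul]
  · intro a
    rw [Finset.prod_range_succ]
    calc ‖ra (Q a) (a n)‖ ≤ ‖Q a‖ * ‖a n‖ := R32_norm_ra _ _
      _ ≤ (C * ∏ k ∈ range n, ‖a k‖) * ‖a n‖ := mul_le_mul_of_nonneg_right (hbd a) (norm_nonneg _)
      _ = C * ((∏ k ∈ range n, ‖a k‖) * ‖a n‖) := by ring

theorem main_sum_X (hτ : IsTS A τ) (m : ℕ) (T : (ℕ → A) → (A →L[ℂ] ℂ)) (hT : IsB (m + 1) T)
    (hUI : UIc τ (m + 1) T) (hc : ∀ a, dX (m + 1) T a = 0) : SumX m 0 T := by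
  obtain ⟨P, Q, hP, hQc, h⟩ := key_X (ts_matrix hτ (m + 1)) m
    (ampMX (m + 1) T) (IsB_ampMX hT) (UI_ampMX hτ hT hUI) (ampMX_cocycle hT hc)
  rcases h with ⟨_, hQ, hg⟩ | ⟨hodd, hQ, hg⟩
  · refine R32_core hT P hP (m + 1) Q hQ (fun σ => ?_) hg
    refine R32_congr (SumX_zero m) fun a => ?_
    exact (ent_tr (m + 1) (by omega) _ (hQc _)).1
  · have hev : Even (m + 2) := by
      rcases hodd with ⟨k, hk⟩
      exact ⟨k + 1, by omega⟩
    refine R32_core hT P hP (m + 2 + 1) (fun X => ra (Q X) (X (m + 2)))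
      (R32_mulB hQ) (fun σ => ?_) ?_
    · exact SumX_Q hev hQ hQc σ
    · intro g
      rw [hg g]
      have hal : al (g : CStarMatrix (Fin (m + 1 + 1)) (Fin (m + 1 + 1)) A) (m + 2) = g := by
        show (if Even (m + 2) then _ else _) = _
        rw [if_pos hev]
      show _ = ra (Q _) (al (g : CStarMatrix (Fin (m + 1 + 1)) (Fin (m + 1 + 1)) A) (m + 2)) - _
      rw [hal]

end H730HC
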