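import Pool.Agent.H730R3.HD.Defs
import Pool.Agent.H730R3.HD.R14
import Pool.Agent.H730R3.HD.R15
import Pool.Agent.H730R3.HD.R32
import Pool.Agent.H730R3.HC.Final

set_option autoImplicit false

namespace H730HC

open Finset
open scoped ComplexConjugate

universe u v

variable {A : Type u} [CStarAlgebra A] {τ : A →ₗ[ℂ] ℂ}



/-- extension by zero -/
noncomputable def R33_ext {B : Type u} [Zero B] {m : ℕ} (b : Fin m → B) : ℕ → B :=
  fun k => if h : k < m then b ⟨k, h⟩ else 0

theorem R33_ext_apply {B : Type u} [Zero B] {m : ℕ} (b : Fin m → B) :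
    (fun i : Fin m => R33_ext b i) = b := by
  funext i
  simp [R33_ext]

theorem R33_ext_update {B : Type u} [Zero B] {m : ℕ} (b : Fin m → B) (i : Fin m) (x : B) :
    R33_ext (Function.update b i x) = Function.update (R33_ext b) (i : ℕ) x := by
  funext k
  by_cases h : k < m
  · by_cases hk : k = i
    · subst hk
      simp [R33_ext]
    · have hne : (⟨k, h⟩ : Fin m) ≠ i := fun h' => hk (by rw [← h'])
      rw [Function.update_of_ne hk]
      simp only [R33_ext, dif_pos h]
      rw [Function.update_of_ne hne]
  · have hk : k ≠ i := fun h' => h (h' ▸ i.isLt)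
    rw [Function.update_of_ne hk]
    simp only [R33_ext, dif_neg h]

theorem R33_restr_update {B : Type u} {m : ℕ} (a : ℕ → B) (k : ℕ) (hk : k < m) (x : B) :
    (fun i : Fin m => Function.update a k x i) =
      Function.update (fun i : Fin m => a i) ⟨k, hk⟩ x := by
  funext i
  by_cases h : i = ⟨k, hk⟩
  · subst h
    simp
  · have h' : (i : ℕ) ≠ k := fun h' => h (Fin.ext h')
    rw [Function.update_of_ne h, Function.update_of_ne h']

theorem R33_dX (m : ℕ) (θ : (Fin m → A) → (A →L[ℂ] ℂ)) (a : ℕ → A) (x : A) :
    dX m (fun a => θ (fun i : Fin m => a i)) a x =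
      θ (Fin.tail (fun i : Fin (m + 1) => a i)) (x * a 0)
          + ∑ i : Fin m, (-1 : ℂ) ^ (i.val + 1) *
              θ (fun j : Fin m =>
                if j < i then (fun i : Fin (m + 1) => a i) j.castSucc
                else if j = i then (fun i : Fin (m + 1) => a i) j.castSucc *
                  (fun i : Fin (m + 1) => a i) j.succ
                else (fun i : Fin (m + 1) => a i) j.succ) x
          + (-1 : ℂ) ^ (m + 1) * θ (Fin.init (fun i : Fin (m + 1) => a i)) (a m * x) := by
  unfold dX
  rw [Finset.sum_range_succ, Finset.sum_range_succ', pow_zero, one_smul]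
  have h0 : fX m 0 (fun a => θ (fun i : Fin m => a i)) a x =
      θ (Fin.tail (fun i : Fin (m + 1) => a i)) (x * a 0) := by
    simp only [fX, if_true]
    rfl
  have h1 : fX m (m + 1) (fun a => θ (fun i : Fin m => a i)) a x =
      θ (Fin.init (fun i : Fin (m + 1) => a i)) (a m * x) := by
    simp only [fX]
    rw [if_neg (by omega), if_neg (by omega)]
    rfl
  have h2 : (∑ i ∈ range m, (-1 : ℂ) ^ (i + 1) •
        fX m (i + 1) (fun a => θ (fun i : Fin m => a i)) a) x
      = ∑ i : Fin m, (-1 : ℂ) ^ (i.val + 1) *
              θ (fun j : Fin m =>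
                if j < i then (fun i : Fin (m + 1) => a i) j.castSucc
                else if j = i then (fun i : Fin (m + 1) => a i) j.castSucc *
                  (fun i : Fin (m + 1) => a i) j.succ
                else (fun i : Fin (m + 1) => a i) j.succ) x := by
    rw [ContinuousLinearMap.sum_apply, Finset.sum_range]
    refine Finset.sum_congr rfl fun i _ => ?_
    rw [ContinuousLinearMap.smul_apply, smul_eq_mul]
    congr 1
    simp only [fX]
    rw [if_neg (by omega), if_pos (by have := i.isLt; omega), Nat.add_sub_cancel]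
    have e : (fun k : Fin m => mu (i : ℕ) a k) = (fun j : Fin m =>
                if j < i then (fun i : Fin (m + 1) => a i) j.castSucc
                else if j = i then (fun i : Fin (m + 1) => a i) j.castSucc *
                  (fun i : Fin (m + 1) => a i) j.succ
                else (fun i : Fin (m + 1) => a i) j.succ) := by
      funext j
      simp only [mu, Fin.val_castSucc, Fin.val_succ, Fin.lt_def, Fin.ext_iff]
      by_cases hji : (j : ℕ) < i
      · rw [if_pos hji, if_pos hji]
      · rw [if_neg hji, if_neg hji]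
        by_cases hji' : (j : ℕ) = i
        · rw [if_pos hji', if_pos hji', hji']
        · rw [if_neg hji', if_neg hji']
    rw [e]
  rw [ContinuousLinearMap.add_apply, ContinuousLinearMap.add_apply, ContinuousLinearMap.smul_apply,
    smul_eq_mul, h0, h1, h2]
  ring

theorem final_X (hτ : IsTS A τ) (n : ℕ)
    (φ : ContinuousMultilinearMap ℂ (fun _ : Fin (n + 1) => A) (A →L[ℂ] ℂ))
    (hUI : ∀ ε > 0, ∃ R : ℝ, ∀ (a : Fin (n + 1) → A) (x : A),
      ‖φ a x‖ ≤ (∏ i, ‖a i‖) * (R * Real.sqrt ((τ (star x * x)).re) + ε * ‖x‖))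
    (hφ : ∀ (a : Fin (n + 2) → A) (x : A),
        φ (Fin.tail a) (x * a 0)
          + ∑ i : Fin (n + 1), (-1 : ℂ) ^ (i.val + 1) *
              φ (fun j : Fin (n + 1) =>
                if j < i then a j.castSucc
                else if j = i then a j.castSucc * a j.succ
                else a j.succ) x
          + (-1 : ℂ) ^ (n + 2) * φ (Fin.init a) (a (Fin.last (n + 1)) * x) = 0) :
      ∃ ψ : ContinuousMultilinearMap ℂ (fun _ : Fin n => A) (A →L[ℂ] ℂ),
        ∀ (a : Fin (n + 1) → A) (x : A),
          φ a x = ψ (Fin.tail a) (x * a 0)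
            + ∑ i : Fin n, (-1 : ℂ) ^ (i.val + 1) *
                ψ (fun j : Fin n =>
                  if j < i then a j.castSucc
                  else if j = i then a j.castSucc * a j.succ
                  else a j.succ) x
            + (-1 : ℂ) ^ (n + 1) * ψ (Fin.init a) (a (Fin.last n) * x) := by
  have hT : IsB (n + 1) (fun a : ℕ → A => φ (fun i : Fin (n + 1) => a i)) := by
    refine ⟨?_, ?_, ?_, ‖φ‖, φ.opNorm_nonneg, ?_⟩
    · intro a b h
      show φ _ = φ _
      congr 1
      funext i
      exact h i i.isLt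
    · intro a k x y hk
      show φ _ = φ _ + φ _
      rw [R33_restr_update a k hk, R33_restr_update a k hk, R33_restr_update a k hk]
      exact φ.map_update_add _ _ _ _
    · intro a k c x hk
      show φ _ = c • φ _
      rw [R33_restr_update a k hk, R33_restr_update a k hk]
      exact φ.map_update_smul _ _ _ _
    · intro a
      rw [Finset.prod_range]
      exact φ.le_opNorm _
  have hUIc : UIc τ (n + 1) (fun a : ℕ → A => φ (fun i : Fin (n + 1) => a i)) := by
    intro ε hε
    obtain ⟨R, hR⟩ := hUI ε hε
    refine ⟨max R 0, le_max_right _ _, fun a x => ?_⟩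
    rw [Finset.prod_range]
    refine (hR (fun i : Fin (n + 1) => a i) x).trans ?_
    refine mul_le_mul_of_nonneg_left ?_ (Finset.prod_nonneg fun i _ => norm_nonneg _)
    have h1 : R * Real.sqrt ((τ (star x * x)).re) ≤ max R 0 * Real.sqrt ((τ (star x * x)).re) :=
      mul_le_mul_of_nonneg_right (le_max_left _ _) (Real.sqrt_nonneg _)
    unfold sq
    linarith
  have hc : ∀ a, dX (n + 1) (fun a : ℕ → A => φ (fun i : Fin (n + 1) => a i)) a = 0 := by
    intro a
    ext x
    rw [R33_dX (n + 1) (fun b => φ b) a x]
    exact hφ (fun i : Fin (n + 2) => a i) x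
  obtain ⟨S, hS, hTS⟩ := sumX_exact n _ hT hc (main_sum_X hτ n _ hT hUIc hc)
  obtain ⟨C, hC, hSb⟩ := hS.bd
  let ψ₀ : MultilinearMap ℂ (fun _ : Fin n => A) (A →L[ℂ] ℂ) :=
    { toFun := fun b => S (R33_ext b)
      map_update_add' := by
        intro inst b i x y
        obtain rfl : inst = instDecidableEqFin n := Subsingleton.elim _ _
        rw [R33_ext_update, R33_ext_update, R33_ext_update]
        exact hS.add _ _ _ _ i.isLt
      map_update_smul' := by
        intro inst b i c x
        obtain rfl : inst = instDecidableEqFin n := Subsingleton.elim _ _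
        rw [R33_ext_update, R33_ext_update]
        exact hS.smul _ _ _ _ i.isLt }
  let ψ : ContinuousMultilinearMap ℂ (fun _ : Fin n => A) (A →L[ℂ] ℂ) := ψ₀.mkContinuous C (by
    intro b
    refine (hSb (R33_ext b)).trans (le_of_eq ?_)
    rw [Finset.prod_range]
    congr 1
    refine Finset.prod_congr rfl fun i _ => ?_
    have := congrFun (R33_ext_apply b) i
    rw [this])
  have hψ : S = fun a => ψ (fun i : Fin n => a i) := by
    funext a
    refine hS.dep _ _ fun k hk => ?_
    simp [R33_ext, hk]
  refine ⟨ψ, fun a x => ?_⟩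
  have h1 : φ a = dX n S (R33_ext a) := by
    rw [← hTS (R33_ext a)]
    show φ a = φ (fun i : Fin (n + 1) => R33_ext a i)
    rw [R33_ext_apply]
  rw [h1, hψ, R33_dX n (fun b => ψ b) (R33_ext a) x, R33_ext_apply]
  have h2 : R33_ext a 0 = a 0 := congrFun (R33_ext_apply a) 0
  have h3 : R33_ext a n = a (Fin.last n) := congrFun (R33_ext_apply a) (Fin.last n)
  simp only [h2, h3]

end H730HC
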